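import Mathlib
import Pool.Agent.Lib.MP_c82530_nt.AE.Stm

set_option autoImplicit false

/-!
# Free commutative monoids with norms

`ι` is a set of primes, `q i ≥ 2` the norm of the prime `i`, a finitely supported `m : ι →₀ ℕ` is
an integer (an integral ideal in the application), `nm q m` its norm, `Fv f m` the value of the
additive function with values `f i` at the primes (a logarithm in the application).
-/

namespace Pool.Agent.Lib.MP_c82530_nt.AG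

open Set Pool.Agent.Lib.MP_c82530_nt Pool.Agent.Lib.MP_c82530_nt.AA Module Filter Topology

/-- the norm -/
noncomputable def nm {ι : Type} (q : ι → ℕ) (m : ι →₀ ℕ) : ℕ := m.prod fun i k => q i ^ k

/-- the additive function -/
noncomputable def Fv {ι : Type} (f : ι → ℂ) (m : ι →₀ ℕ) : ℂ := m.sum fun i k => (k : ℂ) * f i

/-- the Euler product over `P` -/
noncomputable def ZP {ι : Type} (q : ι → ℕ) (P : Finset ι) : ℝ := ∏ i ∈ P, (1 - (q i : ℝ)⁻¹)⁻¹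

/-- `A` has measure at most `ε` among the integers composed of primes in `P` -/
def Sm {ι : Type} (q : ι → ℕ) (P : Finset ι) (A : Set (ι →₀ ℕ)) (ε : ℝ) : Prop :=
  ∀ Y : Finset (ι →₀ ℕ), (∀ m ∈ Y, m.support ⊆ P) → (∀ m ∈ Y, m ∈ A) →
    ∑ m ∈ Y, (nm q m : ℝ)⁻¹ ≤ ε * ZP q P

/-- the weight of the primes `i ∈ P` with `f i ∉ K` -/
noncomputable def EK {ι : Type} (q : ι → ℕ) (f : ι → ℂ) (K : Submodule ℚ ℂ) (P : Finset ι) : ℝ :=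
  ∑ i ∈ P, {i : ι | f i ∉ K}.indicator (fun i => (q i : ℝ)⁻¹) i

/-- the primes with `f i ∉ K` have bounded weight -/
def Bd {ι : Type} (q : ι → ℕ) (f : ι → ℂ) (K : Submodule ℚ ℂ) : Prop :=
  ∃ C : ℝ, ∀ P : Finset ι, EK q f K P ≤ C

/-- the weight of the members of `A` in the finite set `T` -/
noncomputable def Wt {ι : Type} (q : ι → ℕ) (A : Set (ι →₀ ℕ)) (T : Finset (ι →₀ ℕ)) : ℝ :=
  ∑ m ∈ T, A.indicator (fun m => (nm q m : ℝ)⁻¹) m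

/-- `L x` is the set of the integers of norm at most `x` -/
def IsL {ι : Type} (q : ι → ℕ) (L : ℕ → Finset (ι →₀ ℕ)) : Prop :=
  ∀ (x : ℕ) (m : ι →₀ ℕ), m ∈ L x ↔ nm q m ≤ x

/-- logarithmic density zero -/
def LN {ι : Type} (q : ι → ℕ) (L : ℕ → Finset (ι →₀ ℕ)) (A : Set (ι →₀ ℕ)) : Prop :=
  Tendsto (fun x : ℕ => Wt q A (L x) / Real.log x) atTop (𝓝 0)

/-- Mertens type upper bound for the integers prime to `P` -/
def Mt0 {ι : Type} (q : ι → ℕ) (L : ℕ → Finset (ι →₀ ℕ)) : Prop :=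
  ∃ C : ℝ, 0 < C ∧ ∀ P : Finset ι, ∃ x₀ : ℕ, ∀ x : ℕ, x₀ ≤ x →
    Wt q {m | Disjoint m.support P} (L x) ≤ C * Real.log x / ZP q P

/-- lower bound -/
def Low {ι : Type} (q : ι → ℕ) (L : ℕ → Finset (ι →₀ ℕ)) : Prop :=
  ∃ c : ℝ, 0 < c ∧ ∀ᶠ x : ℕ in atTop, c * Real.log x ≤ Wt q univ (L x)

/-- the values at the primes are linearly independent modulo the algebraic numbers -/
def Ind {ι : Type} (f : ι → ℂ) : Prop :=
  ∀ a : ι →₀ ℚ, IsAlgebraic ℚ (a.sum fun i t => (t : ℂ) * f i) → a = 0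

/-! ### pieces of the abstract part -/

/-- piece LO: as `p_lo` in AA/PLo.lean (Euler product, the sum over the integers composed of primes
in `P` is a finite product of geometric series). -/
def S_lo : Prop := ∃ C : ℝ, 0 < C ∧ ∀ (ι : Type) (q : ι → ℕ), (∀ i, 2 ≤ q i) → ∀ (P : Finset ι)
  (a : ι → ℤ) (k : ℤ) (Y : Finset (ι →₀ ℕ)), (∀ m ∈ Y, m.support ⊆ P) →
  (∀ m ∈ Y, ∑ i ∈ P, (m i : ℤ) * a i = k) →
  0 < ∑ i ∈ P, {i : ι | a i ≠ 0}.indicator (fun i => (q i : ℝ)⁻¹) i →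
  ∑ m ∈ Y, (nm q m : ℝ)⁻¹ ≤
    C / √(∑ i ∈ P, {i : ι | a i ≠ 0}.indicator (fun i => (q i : ℝ)⁻¹) i) * ZP q P

/-- piece LOS: `theorem p_los (h : S_lo) : S_los`, as `lo_sub` in AA/LoSub.lean. -/
def S_los : Prop := ∃ C : ℝ, 0 < C ∧ ∀ (ι : Type) (q : ι → ℕ) (f : ι → ℂ), (∀ i, 2 ≤ q i) →
  ∀ (P : Finset ι) (K : Submodule ℚ ℂ) (g : ℂ), 0 < EK q f K P →
    Sm q P {m | g + Fv f m ∈ K} (C / √(EK q f K P))

/-- piece ZS: finite sums are at most the product (as `p_zs` in AA/PZs.lean). -/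
def S_zs : Prop := ∀ (ι : Type) (q : ι → ℕ), (∀ i, 2 ≤ q i) → ∀ (P : Finset ι)
  (Y : Finset (ι →₀ ℕ)), (∀ m ∈ Y, m.support ⊆ P) → ∑ m ∈ Y, (nm q m : ℝ)⁻¹ ≤ ZP q P

/-- piece TWO: `theorem p_two (hzs : S_zs) : S_two`, as AD/P_two.lean; the decomposition of an
integer composed of primes in `P₁ ∪ P₂` is `m = m.filter (· ∈ P₁) + m.filter (· ∉ P₁)`. -/
def S_two : Prop := ∀ (ι : Type) [DecidableEq ι] (q : ι → ℕ), (∀ i, 2 ≤ q i) →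
  ∀ (P₁ P₂ : Finset ι) (F : Finset (ι →₀ ℕ)), Disjoint P₁ P₂ →
  ∀ (A : Set (ι →₀ ℕ)) (ε₁ δ : ℝ), 0 ≤ ε₁ → 0 ≤ δ → 5 * ε₁ ≤ δ ^ 2 →
  Sm q P₁ {s | s ∉ F} ε₁ →
  ∀ (B0 : (ι →₀ ℕ) → Set (ι →₀ ℕ)) (BA BB : (ι →₀ ℕ) → (ι →₀ ℕ) → Set (ι →₀ ℕ)),
  (∀ t, Sm q P₁ (B0 t) ε₁) → (∀ s t, Sm q P₁ (BA s t) ε₁) →
  (∀ s ∈ F, ∀ s' ∈ F, Sm q P₂ (BB s s') ε₁) →
  (∀ s s' t : ι →₀ ℕ, s.support ⊆ P₁ → s'.support ⊆ P₁ → t.support ⊆ P₂ →
    s + t ∈ A → s' + t ∈ A → s ∈ B0 t ∨ s' ∈ BA s t ∨ t ∈ BB s s') →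
  Sm q (P₁ ∪ P₂) A δ

/-- piece CUT: `theorem p_cut (hzs : S_zs) : S_cut`, as AD/P_cut.lean -/
def S_cut : Prop := ∀ (ι : Type) (q : ι → ℕ), (∀ i, 2 ≤ q i) → ∀ (P : Finset ι) (ε : ℝ), 0 < ε →
  ∃ F : Finset (ι →₀ ℕ), Sm q P {s | s ∉ F} ε

/-- piece CMK: compactness, as AE/P_cmk.lean. Instead of `Nat.primesBelow x` use all finite sets
`P` of primes: if the statement fails for the dimension `d + 1` choose for every finite set `P` a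
space `W P` with `EK q f (K (W P)) P < C`; take `P₀` from the case of dimension `d` and `2 C`; for
`P ⊇ P₀` one gets `W P = W P₀`, and the space `W P₀` contradicts the hypothesis. Finally remove
the set `E` (its weight is at most `∑ i ∈ E, 1 / q i`). -/
def S_cmk : Prop := ∀ (ι : Type) [DecidableEq ι] (q : ι → ℕ) (f : ι → ℂ), (∀ i, 2 ≤ q i) →
  ∀ K : Submodule ℚ ℂ → Submodule ℚ ℂ, AE.Adm K →
  ∀ 𝒞 : Submodule ℚ ℂ → Prop, (∀ W1 W2, Good W2 → W1 ≤ W2 → 𝒞 W2 → 𝒞 W1) →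
  (∀ W, Good W → 𝒞 W → ¬ Bd q f (K W)) → ∀ (M : ℕ) (C : ℝ) (E : Finset ι), ∃ P : Finset ι,
    Disjoint P E ∧ ∀ W, Good W → 𝒞 W → finrank ℚ W ≤ M → C ≤ EK q f (K W) P

/-- piece EXK, as AE/P_exk.lean -/
def S_exk : Prop := ∀ (ι : Type) (q : ι → ℕ) (f : ι → ℂ), (∀ i, 2 ≤ q i) →
  ∀ K : Submodule ℚ ℂ, Bd q f K → ∀ ε : ℝ, 0 < ε → ∃ Q : Finset ι,
  ∀ P : Finset ι, (∀ i ∈ P, i ∉ Q ∧ f i ∉ K) → ∑ i ∈ P, (q i : ℝ)⁻¹ ≤ ε

/-- piece FRA: most integers have no prime factor outside `A`.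
Proof. The other integers of norm at most `x` are divisible by a prime `i ∉ A` with `q i ≤ x`
(finitely many, as `Finsupp.single i 1` is in `L x`), and for each `i` the integers in `L x`
divisible by `i` are `m' + single i 1` with `m' ∈ L x`: weight at most `1 / q i` times that of
`L x`. See AB/P_fra.lean. -/
def S_fra : Prop := ∀ (ι : Type) (q : ι → ℕ) (L : ℕ → Finset (ι →₀ ℕ)), (∀ i, 2 ≤ q i) →
  IsL q L → ∀ (A : Set ι) (ε : ℝ),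
  (∀ P : Finset ι, (∀ i ∈ P, i ∉ A) → ∑ i ∈ P, (q i : ℝ)⁻¹ ≤ ε) → ∀ x : ℕ,
  (1 - ε) * Wt q univ (L x) ≤ Wt q {m | ∀ i ∈ m.support, i ∈ A} (L x)

/-- piece MTA: `theorem p_mta : S_mta`, from the integers prime to `P` to sets which are small on
all cosets. Proof: an integer `m` in `L x` is `s + t` with `s = m.filter (· ∈ P)` and `t` prime to
`P`, `t ∈ L x`; for fixed `t` the sum of `1 / nm q s` is at most `ε * ZP q P`. -/
def S_mta : Prop := ∀ (ι : Type) (q : ι → ℕ) (L : ℕ → Finset (ι →₀ ℕ)), (∀ i, 2 ≤ q i) →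
  IsL q L → ∀ (P : Finset ι) (A : Set (ι →₀ ℕ)) (ε : ℝ), 0 ≤ ε →
  (∀ t : ι →₀ ℕ, Sm q P {s | s + t ∈ A} ε) → ∀ x : ℕ,
  Wt q A (L x) ≤ ε * ZP q P * Wt q {m | Disjoint m.support P} (L x)

/-- piece LIM, as AD/P_lim.lean; `Wt q univ (L x) ≤ C * log x` for large `x` by `Mt0` with the
empty set. -/
def S_lim : Prop := ∀ (ι : Type) (q : ι → ℕ) (L : ℕ → Finset (ι →₀ ℕ)), (∀ i, 2 ≤ q i) →
  IsL q L → Mt0 q L → ∀ D : Set (ι →₀ ℕ), (∀ ε : ℝ, 0 < ε → ∃ D1 D2 : Set (ι →₀ ℕ),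
    D ⊆ D1 ∪ D2 ∧ LN q L D1 ∧ ∀ x : ℕ, Wt q D2 (L x) ≤ ε * Wt q univ (L x)) → LN q L D

/-- piece GRP: `theorem p_grp (hzs : S_zs) : S_grp`, as AE/P_grp.lean: the space `G` of the
`a : ι →₀ ℚ` with `∑ a i * f i` in `C ⊔ KK ⊥` is finite dimensional (by `Ind f`), so there is a
finite set `Q` of primes such that an element of `G` is determined by its coordinates in `Q`; the
map `m ↦ m.filter (· ∈ Q)` is injective on `Y`, and the sum is at most `ZP q Q`. -/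
def S_grp : Prop := ∀ (ι : Type) (q : ι → ℕ) (f : ι → ℂ), (∀ i, 2 ≤ q i) → Ind f →
  ∀ C : Submodule ℚ ℂ, FiniteDimensional ℚ C → ∃ M : ℝ, ∀ s₀ : ι →₀ ℕ,
  ∀ Y : Finset (ι →₀ ℕ), (∀ s ∈ Y, Fv f s - Fv f s₀ ∈ C ⊔ KK ⊥) →
    ∑ s ∈ Y, (nm q s : ℝ)⁻¹ ≤ M

/-- piece ZEX: the Euler product is at most an exponential (as `ZP_le_exp` in AA). -/
def S_zex : Prop := ∀ (ι : Type) (q : ι → ℕ), (∀ i, 2 ≤ q i) → ∀ P : Finset ι,
  ZP q P ≤ Real.exp (2 * ∑ i ∈ P, (q i : ℝ)⁻¹)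

/-- piece POS: `theorem p_pos (hzs : S_zs) (hexk : S_exk) (hfra : S_fra) : S_pos`, as `pos_prop` in
AE/Fin.lean: a positive proportion of the integers `m` has `Fv f m ∈ K`. -/
def S_pos : Prop := ∀ (ι : Type) (q : ι → ℕ) (f : ι → ℂ) (L : ℕ → Finset (ι →₀ ℕ)),
  (∀ i, 2 ≤ q i) → IsL q L → Low q L → ∀ K : Submodule ℚ ℂ, Bd q f K →
  ∃ δ : ℝ, 0 < δ ∧ ∀ᶠ x : ℕ in atTop, δ * Real.log x ≤ Wt q {m | Fv f m ∈ K} (L x)

end Pool.Agent.Lib.MP_c82530_nt.AG
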