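import Mathlib
import Pool.Agent.Lib.MP_c82530_nt.AG.Defs
import Pool.Agent.Lib.MP_c82530_nt.AE.Claim

set_option autoImplicit false

namespace Pool.Agent.Lib.MP_c82530_nt.AG

open Set Pool.Agent.Lib.MP_c82530_nt Pool.Agent.Lib.MP_c82530_nt.AA Module Filter Topology
open Pool.Agent.Lib.MP_c82530_nt.AE (EvK)

variable {ι : Type} {q : ι → ℕ} {f : ι → ℂ}

lemma zp_pos (hq : ∀ i, 2 ≤ q i) (P : Finset ι) : 0 < ZP q P := by
  unfold ZP
  apply Finset.prod_pos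
  intro i _
  have h : (2 : ℝ) ≤ q i := by exact_mod_cast hq i
  have h1 : (q i : ℝ)⁻¹ ≤ 2⁻¹ := inv_anti₀ (by norm_num) h
  have h2 : (0 : ℝ) < 1 - (q i : ℝ)⁻¹ := by
    have : (2 : ℝ)⁻¹ < 1 := by norm_num
    linarith
  positivity

lemma nm_add (s t : ι →₀ ℕ) : nm q (s + t) = nm q s * nm q t := by
  classical
  unfold nm
  rw [Finsupp.prod_add_index']
  · intro i; simp
  · intro i a b; rw [pow_add]

lemma nm_pos (hq : ∀ i, 2 ≤ q i) (m : ι →₀ ℕ) : 0 < nm q m := by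
  unfold nm
  apply Finset.prod_pos
  intro i _
  have := hq i
  positivity

lemma fv_add (s t : ι →₀ ℕ) : Fv f (s + t) = Fv f s + Fv f t := by
  classical
  unfold Fv
  rw [Finsupp.sum_add_index']
  · intro i; simp
  · intro i a b; push_cast; ring

lemma fv_zero : Fv f 0 = 0 := by
  unfold Fv; simp

lemma fv_mem {K : Submodule ℚ ℂ} {m : ι →₀ ℕ} (h : ∀ i ∈ m.support, f i ∈ K) :
    Fv f m ∈ K := by
  unfold Fv
  apply Submodule.sum_mem
  intro i hi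
  have e : ((m i : ℕ) : ℂ) * f i = ((m i : ℕ) : ℚ) • f i := by
    rw [Rat.smul_def]; push_cast; rfl
  change ((m i : ℕ) : ℂ) * f i ∈ K
  rw [e]
  exact Submodule.smul_mem _ _ (h i hi)

lemma Sm.mono {P : Finset ι} (hq : ∀ i, 2 ≤ q i) {A B : Set (ι →₀ ℕ)} {ε δ : ℝ}
    (hA : Sm q P A ε) (h : ∀ m ∈ B, m ∈ A) (hle : ε ≤ δ) : Sm q P B δ := by
  intro Y hY hYB
  refine (hA Y hY (fun m hm => h m (hYB m hm))).trans ?_
  exact mul_le_mul_of_nonneg_right hle (zp_pos hq P).le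

lemma Sm.sum_ite {P : Finset ι} {A : Set (ι →₀ ℕ)} {ε : ℝ} (hA : Sm q P A ε)
    {Y : Finset (ι →₀ ℕ)} (hY : ∀ m ∈ Y, m.support ⊆ P) [DecidablePred (· ∈ A)] :
    ∑ m ∈ Y, (if m ∈ A then (nm q m : ℝ)⁻¹ else 0) ≤ ε * ZP q P := by
  rw [← Finset.sum_filter]
  apply hA
  · intro m hm; exact hY m (Finset.mem_filter.mp hm).1
  · intro m hm; exact (Finset.mem_filter.mp hm).2

lemma sm_empty (hq : ∀ i, 2 ≤ q i) {P : Finset ι} {A : Set (ι →₀ ℕ)} (hA : ∀ b, b ∉ A) {ε : ℝ}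
    (hε : 0 ≤ ε) : Sm q P A ε := by
  intro Y hY hYA
  have : Y = ∅ := by
    rw [Finset.eq_empty_iff_forall_notMem]
    intro b hb
    exact hA b (hYA b hb)
  rw [this, Finset.sum_empty]
  exact mul_nonneg hε (zp_pos hq P).le

lemma sm_iUnion {J : Type*} {P : Finset ι} (I : Finset J) (A : J → Set (ι →₀ ℕ)) {ε : ℝ}
    (h : ∀ i ∈ I, Sm q P (A i) ε) : Sm q P {b | ∃ i ∈ I, b ∈ A i} (I.card * ε) := by
  classical
  intro Y hY hYA
  calc ∑ b ∈ Y, (nm q b : ℝ)⁻¹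
      ≤ ∑ b ∈ Y, ∑ i ∈ I, (if b ∈ A i then (nm q b : ℝ)⁻¹ else 0) := by
        apply Finset.sum_le_sum
        intro b hb
        obtain ⟨i, hi, hbi⟩ := hYA b hb
        have h1 : (nm q b : ℝ)⁻¹ = if b ∈ A i then (nm q b : ℝ)⁻¹ else 0 := by rw [if_pos hbi]
        conv_lhs => rw [h1]
        apply Finset.single_le_sum (f := fun i => if b ∈ A i then (nm q b : ℝ)⁻¹ else 0) _ hi
        intro j _
        by_cases hj : b ∈ A j
        · simp only [if_pos hj]; positivity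
        · simp only [if_neg hj]; exact le_rfl
    _ = ∑ i ∈ I, ∑ b ∈ Y, (if b ∈ A i then (nm q b : ℝ)⁻¹ else 0) := Finset.sum_comm
    _ ≤ ∑ i ∈ I, ε * ZP q P := by
        apply Finset.sum_le_sum
        intro i hi
        exact (h i hi).sum_ite hY
    _ = _ := by rw [Finset.sum_const, nsmul_eq_mul]; ring

lemma sm_union2 {P : Finset ι} {A B : Set (ι →₀ ℕ)} {ε δ : ℝ} (hA : Sm q P A ε)
    (hB : Sm q P B δ) : Sm q P (A ∪ B) (ε + δ) := by
  classical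
  intro Y hY hYA
  have h1 : ∑ b ∈ Y, (nm q b : ℝ)⁻¹ ≤ ∑ b ∈ Y, ((if b ∈ A then (nm q b : ℝ)⁻¹ else 0) +
      (if b ∈ B then (nm q b : ℝ)⁻¹ else 0)) := by
    apply Finset.sum_le_sum
    intro b hb
    have h0 : (0 : ℝ) ≤ (nm q b : ℝ)⁻¹ := by positivity
    rcases hYA b hb with h | h
    · rw [if_pos h]
      split_ifs <;> linarith
    · rw [if_pos h]
      split_ifs <;> linarith
  rw [Finset.sum_add_distrib] at h1
  have h2 := hA.sum_ite hY
  have h3 := hB.sum_ite hY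
  linarith

/-- uniform smallness -/
def QK (q : ι → ℕ) (f : ι → ℂ) (K : Submodule ℚ ℂ → Submodule ℚ ℂ)
    (𝒞 : Submodule ℚ ℂ → Prop) (r : ℕ) : Prop :=
  ∀ (M : ℕ) (ε : ℝ), 0 < ε → ∀ E : Finset ι, ∃ P : Finset ι,
    Disjoint P E ∧ ∀ U, Good U → finrank ℚ U ≤ M → ∀ g : ℂ,
      Sm q P {s | EvK K 𝒞 U r (g + Fv f s)} ε

lemma exists_lo [DecidableEq ι] (hq : ∀ i, 2 ≤ q i) (hlos : S_los) (hcmk : S_cmk)
    {K : Submodule ℚ ℂ → Submodule ℚ ℂ} (hK : AE.Adm K)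
    {𝒞 : Submodule ℚ ℂ → Prop} (hdown : ∀ W1 W2, Good W2 → W1 ≤ W2 → 𝒞 W2 → 𝒞 W1)
    (hno : ∀ W, Good W → 𝒞 W → ¬ Bd q f (K W)) (M : ℕ) {ε : ℝ} (hε : 0 < ε) (E : Finset ι) :
    ∃ P : Finset ι, Disjoint P E ∧ ∀ U, Good U → 𝒞 U → finrank ℚ U ≤ M →
      ∀ g : ℂ, Sm q P {s | g + Fv f s ∈ K U} ε := by
  obtain ⟨C, hC, h⟩ := hlos
  obtain ⟨P, hP, hE⟩ := hcmk ι q f hq K hK 𝒞 hdown hno M ((C / ε) ^ 2) E
  refine ⟨P, hP, fun U hU hCU hM g => ?_⟩
  have hE1 : (C / ε) ^ 2 ≤ EK q f (K U) P := hE U hU hCU hM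
  have hpos : 0 < (C / ε) ^ 2 := by positivity
  refine (h ι q f hq P (K U) g (hpos.trans_le hE1)).mono hq (fun b hb => hb) ?_
  rw [div_le_iff₀ (Real.sqrt_pos.mpr (hpos.trans_le hE1))]
  have h1 : C / ε ≤ √(EK q f (K U) P) := Real.le_sqrt_of_sq_le hE1
  calc C = ε * (C / ε) := by field_simp
    _ ≤ ε * √(EK q f (K U) P) := mul_le_mul_of_nonneg_left h1 hε.le

theorem QK_zero [DecidableEq ι] (hq : ∀ i, 2 ≤ q i) (hlos : S_los) (hcmk : S_cmk)
    {K : Submodule ℚ ℂ → Submodule ℚ ℂ} (hK : AE.Adm K)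
    {𝒞 : Submodule ℚ ℂ → Prop} (hdown : ∀ W1 W2, Good W2 → W1 ≤ W2 → 𝒞 W2 → 𝒞 W1)
    (hno : ∀ W, Good W → 𝒞 W → ¬ Bd q f (K W)) : QK q f K 𝒞 0 := by
  intro M ε hε E
  obtain ⟨P, hP, hPs⟩ := exists_lo hq hlos hcmk hK hdown hno M hε E
  refine ⟨P, hP, fun U hU hM g => ?_⟩
  have key : ∀ y, EvK K 𝒞 U 0 y → 𝒞 U ∧ y ∈ K U := by
    rintro y ⟨S, h1, h2, h3, h4, h5⟩
    have := h1.1
    have h6 : U = S := Submodule.eq_of_le_of_finrank_le h3 h4
    rw [h6]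
    exact ⟨h2, h5⟩
  by_cases hCU : 𝒞 U
  · exact (hPs U hU hCU hM g).mono hq (fun b hb => (key _ hb).2) le_rfl
  · exact sm_empty hq (fun b hb => hCU (key _ hb).1) hε.le

theorem QK_succ [DecidableEq ι] (hq : ∀ i, 2 ≤ q i) (hlos : S_los) (hcmk : S_cmk)
    (htwo : S_two) (hcut : S_cut)
    {K : Submodule ℚ ℂ → Submodule ℚ ℂ} (hK : AE.Adm K)
    {𝒞 : Submodule ℚ ℂ → Prop} (hdown : ∀ W1 W2, Good W2 → W1 ≤ W2 → 𝒞 W2 → 𝒞 W1)
    (hno : ∀ W, Good W → 𝒞 W → ¬ Bd q f (K W)) {r : ℕ} (hQ : QK q f K 𝒞 r) :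
    QK q f K 𝒞 (r + 1) := by
  classical
  intro M ε hε E
  have hε1 : 0 < ε ^ 2 / 5 := by positivity
  obtain ⟨P1, hP1, ha1⟩ := exists_lo hq hlos hcmk hK hdown hno M hε1 E
  obtain ⟨F, hF⟩ := hcut ι q hq P1 _ hε1
  choose fam hfam using hK.2
  set k : ℕ := F.sup (fun s => F.sup (fun s' => (fam (Fv f s - Fv f s')).card)) with hk
  have hε2 : 0 < (ε ^ 2 / 5) / 2 ^ (k + 1) := by positivity
  obtain ⟨P2, hP2, hb2⟩ := hQ (M + (r + 1)) _ hε2 (E ∪ P1)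
  have hd : Disjoint P1 P2 := (Finset.disjoint_of_subset_right Finset.subset_union_right hP2).symm
  refine ⟨P1 ∪ P2, ?_, fun U hU hM g => ?_⟩
  · rw [Finset.disjoint_union_left]
    exact ⟨hP1, Finset.disjoint_of_subset_right Finset.subset_union_left hP2⟩
  have hU1 := hU.1
  refine htwo ι q hq P1 P2 F hd _ (ε ^ 2 / 5) ε hε1.le hε.le (by linarith) hF
    (fun t => {s | 𝒞 U ∧ g + Fv f t + Fv f s ∈ K U})
    (fun s _ => {s' | 𝒞 U ∧ -(Fv f s) + Fv f s' ∈ K U})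
    (fun s s' => {t | ∃ I ∈ (fam (Fv f s - Fv f s')).powerset,
      t ∈ {t : ι →₀ ℕ | (Good (U ⊔ Finset.sup I id) ∧
        finrank ℚ (U ⊔ Finset.sup I id : Submodule ℚ ℂ) ≤
        M + (r + 1)) ∧ EvK K 𝒞 (U ⊔ Finset.sup I id) r (g + Fv f s + Fv f t)} ∪
        {t : ι →₀ ℕ | (Good (U ⊔ Finset.sup I id) ∧
        finrank ℚ (U ⊔ Finset.sup I id : Submodule ℚ ℂ) ≤
        M + (r + 1)) ∧ EvK K 𝒞 (U ⊔ Finset.sup I id) r (g + Fv f s' + Fv f t)}})
    ?_ ?_ ?_ ?_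
  · intro t
    by_cases hCU : 𝒞 U
    · exact (ha1 U hU hCU hM (g + Fv f t)).mono hq (fun b hb => hb.2) le_rfl
    · exact sm_empty hq (fun b hb => hCU hb.1) hε1.le
  · intro s _
    by_cases hCU : 𝒞 U
    · exact (ha1 U hU hCU hM (-(Fv f s))).mono hq (fun b hb => hb.2) le_rfl
    · exact sm_empty hq (fun b hb => hCU hb.1) hε1.le
  · intro s hs s' hs'
    have h3 := sm_iUnion (q := q) (P := P2)
      (fam (Fv f s - Fv f s')).powerset
      (fun I => {t : ι →₀ ℕ | (Good (U ⊔ Finset.sup I id) ∧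
        finrank ℚ (U ⊔ Finset.sup I id : Submodule ℚ ℂ) ≤
        M + (r + 1)) ∧ EvK K 𝒞 (U ⊔ Finset.sup I id) r (g + Fv f s + Fv f t)} ∪
        {t : ι →₀ ℕ | (Good (U ⊔ Finset.sup I id) ∧
        finrank ℚ (U ⊔ Finset.sup I id : Submodule ℚ ℂ) ≤
        M + (r + 1)) ∧ EvK K 𝒞 (U ⊔ Finset.sup I id) r (g + Fv f s' + Fv f t)})
      (ε := (ε ^ 2 / 5) / 2 ^ (k + 1) + (ε ^ 2 / 5) / 2 ^ (k + 1)) ?_
    · refine h3.mono hq (fun b hb => hb) ?_
      have h4 : ((fam (Fv f s - Fv f s')).powerset.card : ℝ) ≤ 2 ^ k := by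
        have h5 : (fam (Fv f s - Fv f s')).powerset.card ≤ 2 ^ k := by
          rw [Finset.card_powerset]
          apply Nat.pow_le_pow_right (by norm_num)
          rw [hk]
          refine le_trans ?_ (Finset.le_sup (f := fun s => F.sup (fun s' =>
            (fam (Fv f s - Fv f s')).card)) hs)
          exact Finset.le_sup (f := fun s' => (fam (Fv f s - Fv f s')).card) hs'
        exact_mod_cast h5
      calc _ ≤ 2 ^ k * ((ε ^ 2 / 5) / 2 ^ (k + 1) + (ε ^ 2 / 5) / 2 ^ (k + 1)) :=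
            mul_le_mul_of_nonneg_right h4 (by positivity)
        _ = ε ^ 2 / 5 := by field_simp; ring
    · intro I _
      by_cases hI : Good (U ⊔ Finset.sup I id) ∧
        finrank ℚ (U ⊔ Finset.sup I id : Submodule ℚ ℂ) ≤ M + (r + 1)
      · apply sm_union2
        · exact (hb2 _ hI.1 hI.2 (g + Fv f s)).mono hq (fun b hb => hb.2) le_rfl
        · exact (hb2 _ hI.1 hI.2 (g + Fv f s')).mono hq (fun b hb => hb.2) le_rfl
      · apply sm_empty hq _ (by positivity)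
        rintro b (hb | hb)
        · exact hI hb.1
        · exact hI hb.1
  · intro s s' t hs hs' ht hst hst'
    obtain ⟨S, c1, c2, c3, c4, c5⟩ := hst
    obtain ⟨S', d1, d2, d3, d4, d5⟩ := hst'
    rw [fv_add, ← add_assoc] at c5
    rw [fv_add, ← add_assoc] at d5
    obtain ⟨T1, t1, t2, t3, t4⟩ := hK.exists_least ⟨S, c1, c3, c5⟩
    obtain ⟨T4, u1, u2, u3, u4⟩ := hK.exists_least ⟨S', d1, d3, d5⟩
    have hT1S : T1 ≤ S := t4 S c1 c3 c5
    have hT4S : T4 ≤ S' := u4 S' d1 d3 d5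
    have hCT1 : 𝒞 T1 := hdown _ _ c1 hT1S c2
    have hCT4 : 𝒞 T4 := hdown _ _ d1 hT4S d2
    have fS := c1.1
    have fS' := d1.1
    have f1 := t1.1
    have f4 := u1.1
    have hr1 : finrank ℚ T1 ≤ finrank ℚ U + (r + 1) := (Submodule.finrank_mono hT1S).trans c4
    have hr4 : finrank ℚ T4 ≤ finrank ℚ U + (r + 1) := (Submodule.finrank_mono hT4S).trans d4
    have hCU : 𝒞 U := hdown _ _ t1 t2 hCT1
    have hz : Fv f s - Fv f s' ∈ K T1 ⊔ K T4 := by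
      have e : Fv f s - Fv f s' = (g + Fv f s + Fv f t) - (g + Fv f s' + Fv f t) := by
        ring
      rw [e]
      apply Submodule.sub_mem
      · exact Submodule.mem_sup_left t3
      · exact Submodule.mem_sup_right u3
    obtain ⟨g1, g2⟩ := hfam _ T1 T4 t1 u1 hz
    set Fz := fam (Fv f s - Fv f s') with hFz
    -- a larger space
    have hlarge : ∀ (I : Finset (Submodule ℚ ℂ)) (T : Submodule ℚ ℂ) (y : ℂ), Good T → 𝒞 T →
        U ≤ T → finrank ℚ T ≤ finrank ℚ U + (r + 1) → y ∈ K T → Finset.sup I id ≤ T →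
        U < U ⊔ Finset.sup I id → (Good (U ⊔ Finset.sup I id) ∧
          finrank ℚ (U ⊔ Finset.sup I id : Submodule ℚ ℂ) ≤ M + (r + 1)) ∧
          EvK K 𝒞 (U ⊔ Finset.sup I id) r y := by
      intro I T y hT hCT hUT hrT hy hIT hlt
      have fT := hT.1
      have hle : U ⊔ Finset.sup I id ≤ T := sup_le hUT hIT
      have hG : Good (U ⊔ Finset.sup I id) := hT.of_le hle
      have fG := hG.1
      have e1 := Submodule.finrank_mono hle
      have e2 := Submodule.finrank_lt_finrank_of_lt hlt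
      exact ⟨⟨hG, by omega⟩, T, hT, hCT, hle, by omega, hy⟩
    set I := Fz.filter (fun M => M ≤ T1) with hI
    have hIs : Finset.sup I id ≤ T1 := by
      rw [Finset.sup_le_iff]
      intro M hM
      rw [hI, Finset.mem_filter] at hM
      exact hM.2
    by_cases hUI : U < U ⊔ Finset.sup I id
    · right; right
      refine ⟨I, ?_, Or.inl ?_⟩
      · rw [Finset.mem_powerset]
        exact Finset.filter_subset _ _
      · exact hlarge I T1 _ t1 hCT1 t2 hr1 t3 hIs hUI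
    have hUI' : U ⊔ Finset.sup I id = U := by
      by_contra h
      exact hUI (lt_of_le_of_ne le_sup_left (Ne.symm h))
    have h5 : ∀ M ∈ Fz, M ≤ T4 := by
      intro M hM
      rcases g1 M hM with h | h
      · have h6 : M ≤ Finset.sup I id := Finset.le_sup (f := id) (by
          rw [hI, Finset.mem_filter]; exact ⟨hM, h⟩)
        exact (h6.trans (le_sup_right.trans hUI'.le)).trans u2
      · exact h
    by_cases hUF : U < U ⊔ Finset.sup Fz id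
    · right; right
      refine ⟨Fz, ?_, Or.inr ?_⟩
      · rw [Finset.mem_powerset]
      · exact hlarge Fz T4 _ u1 hCT4 u2 hr4 u3 (Finset.sup_le_iff.mpr h5) hUF
    have hUF' : U ⊔ Finset.sup Fz id = U := by
      by_contra h
      exact hUF (lt_of_le_of_ne le_sup_left (Ne.symm h))
    right; left
    refine ⟨hCU, ?_⟩
    have h6 : Fv f s - Fv f s' ∈ K U := by
      apply g2 U hU
      intro M hM
      exact (Finset.le_sup (f := id) hM).trans (le_sup_right.trans hUF'.le)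
    have e : -(Fv f s) + Fv f s' = -(Fv f s - Fv f s') := by ring
    rw [e]
    exact Submodule.neg_mem _ h6

theorem QK_all [DecidableEq ι] (hq : ∀ i, 2 ≤ q i) (hlos : S_los) (hcmk : S_cmk)
    (htwo : S_two) (hcut : S_cut)
    {K : Submodule ℚ ℂ → Submodule ℚ ℂ} (hK : AE.Adm K)
    {𝒞 : Submodule ℚ ℂ → Prop} (hdown : ∀ W1 W2, Good W2 → W1 ≤ W2 → 𝒞 W2 → 𝒞 W1)
    (hno : ∀ W, Good W → 𝒞 W → ¬ Bd q f (K W)) (r : ℕ) : QK q f K 𝒞 r := by
  induction r with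
  | zero => exact QK_zero hq hlos hcmk hK hdown hno
  | succ r ih => exact QK_succ hq hlos hcmk htwo hcut hK hdown hno ih

end Pool.Agent.Lib.MP_c82530_nt.AG
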