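import Mathlib
import Pool.Agent.Lib.MP_c82530_nt.AG.Claim

set_option autoImplicit false

namespace Pool.Agent.Lib.MP_c82530_nt.AG

open Set Pool.Agent.Lib.MP_c82530_nt Pool.Agent.Lib.MP_c82530_nt.AA Module Filter Topology
open Pool.Agent.Lib.MP_c82530_nt.AE (EvK)

variable {ι : Type} {q : ι → ℕ} {f : ι → ℂ} {L : ℕ → Finset (ι →₀ ℕ)}

lemma wt_nonneg (A : Set (ι →₀ ℕ)) (T : Finset (ι →₀ ℕ)) : 0 ≤ Wt q A T := by
  unfold Wt
  apply Finset.sum_nonneg
  intro m _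
  apply Set.indicator_nonneg
  intro m _; positivity

lemma wt_mono {A B : Set (ι →₀ ℕ)} {T : Finset (ι →₀ ℕ)} (h : ∀ m ∈ T, m ∈ A → m ∈ B) :
    Wt q A T ≤ Wt q B T := by
  classical
  unfold Wt
  apply Finset.sum_le_sum
  intro m hm
  have h0 : (0 : ℝ) ≤ (nm q m : ℝ)⁻¹ := by positivity
  by_cases hA : m ∈ A
  · rw [Set.indicator_of_mem hA, Set.indicator_of_mem (h m hm hA)]
  · rw [Set.indicator_of_notMem hA]
    exact Set.indicator_nonneg (fun m _ => by positivity) m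

lemma wt_eq_filter (A : Set (ι →₀ ℕ)) (T : Finset (ι →₀ ℕ)) [DecidablePred (· ∈ A)] :
    Wt q A T = ∑ m ∈ T.filter (· ∈ A), (nm q m : ℝ)⁻¹ := by
  unfold Wt
  rw [Finset.sum_filter]
  apply Finset.sum_congr rfl
  intro m _
  rw [Set.indicator_apply]

lemma LN.mono {A B : Set (ι →₀ ℕ)} (hA : LN q L A) (h : ∀ m ∈ B, m ∈ A) : LN q L B := by
  refine squeeze_zero (fun x => ?_) (fun x => ?_) hA
  · exact div_nonneg (wt_nonneg _ _) (Real.log_natCast_nonneg x)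
  · exact div_le_div_of_nonneg_right (wt_mono fun m _ hm => h m hm) (Real.log_natCast_nonneg x)

/-- density zero from smallness on all cosets -/
theorem LN_of_small (hmta : S_mta) (hq : ∀ i, 2 ≤ q i) (hL : IsL q L) (hMt : Mt0 q L)
    {A : Set (ι →₀ ℕ)}
    (h : ∀ ε : ℝ, 0 < ε → ∃ P : Finset ι, ∀ t : ι →₀ ℕ, Sm q P {s | s + t ∈ A} ε) :
    LN q L A := by
  obtain ⟨C, hC, hMt⟩ := hMt
  unfold LN
  rw [Metric.tendsto_atTop]
  intro δ hδ
  obtain ⟨P, hP⟩ := h (δ / (2 * C)) (by positivity)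
  obtain ⟨x₀, hx₀⟩ := hMt P
  refine ⟨max x₀ 2, fun x hx => ?_⟩
  have hx1 : x₀ ≤ x := (le_max_left _ _).trans hx
  have hx2 : 2 ≤ x := (le_max_right _ _).trans hx
  have hlog : 0 < Real.log x := Real.log_pos (by exact_mod_cast hx2)
  have hZ := zp_pos hq P
  have h1 := hmta ι q L hq hL P A _ (by positivity) hP x
  have h2 := hx₀ x hx1
  have h3 : Wt q A (L x) ≤ δ / 2 * Real.log x := by
    refine h1.trans ?_
    calc δ / (2 * C) * ZP q P * Wt q {m | Disjoint m.support P} (L x)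
        ≤ δ / (2 * C) * ZP q P * (C * Real.log x / ZP q P) :=
          mul_le_mul_of_nonneg_left h2 (by positivity)
      _ = δ / 2 * Real.log x := by field_simp
  rw [Real.dist_eq, sub_zero, abs_of_nonneg (div_nonneg (wt_nonneg _ _) hlog.le),
    div_lt_iff₀ hlog]
  refine h3.trans_lt ?_
  apply mul_lt_mul_of_pos_right _ hlog
  linarith

/-- density zero for one class -/
theorem LN_K [DecidableEq ι] (hlos : S_los) (hcmk : S_cmk) (htwo : S_two) (hcut : S_cut)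
    (hmta : S_mta) (hq : ∀ i, 2 ≤ q i) (hL : IsL q L) (hMt : Mt0 q L)
    {K : Submodule ℚ ℂ → Submodule ℚ ℂ} (hK : AE.Adm K)
    {𝒞 : Submodule ℚ ℂ → Prop} (hdown : ∀ W1 W2, Good W2 → W1 ≤ W2 → 𝒞 W2 → 𝒞 W1)
    (hno : ∀ W, Good W → 𝒞 W → ¬ Bd q f (K W)) (r : ℕ) (c : ℂ) :
    LN q L {m | ∃ S, Good S ∧ 𝒞 S ∧ finrank ℚ S ≤ r ∧ c + Fv f m ∈ K S} := by
  apply LN_of_small hmta hq hL hMt
  intro ε hε
  obtain ⟨P, hP, hPs⟩ := QK_all hq hlos hcmk htwo hcut hK hdown hno r 0 ε hε ∅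
  refine ⟨P, fun t => ?_⟩
  refine (hPs ⊥ Good.bot (by simp) (c + Fv f t)).mono hq ?_ le_rfl
  rintro s ⟨S, h1, h2, h3, h4⟩
  refine ⟨S, h1, h2, bot_le, by simpa using h3, ?_⟩
  rw [fv_add] at h4
  have e : c + Fv f t + Fv f s = c + (Fv f s + Fv f t) := by ring
  rw [e]; exact h4

/-- all spaces which do not contain `V` -/
theorem LN_B [DecidableEq ι] (hlos : S_los) (hcmk : S_cmk) (htwo : S_two) (hcut : S_cut)
    (hmta : S_mta) (hrrk : AE.S_rrk) (hlim : S_lim) (hexk : S_exk) (hfra : S_fra)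
    (hq : ∀ i, 2 ≤ q i) (hL : IsL q L) (hMt : Mt0 q L)
    {K : Submodule ℚ ℂ → Submodule ℚ ℂ} (hK : AE.Adm K) {V : Submodule ℚ ℂ} (hV : Good V)
    (hBV : Bd q f (K V)) (hmin : ∀ W, Good W → Bd q f (K W) → V ≤ W) (c : ℂ) :
    LN q L {m | ∃ S, Good S ∧ ¬ V ≤ S ∧ c + Fv f m ∈ K S} := by
  classical
  apply hlim ι q L hq hL hMt
  intro ε hε
  obtain ⟨Q, hQs⟩ := hexk ι q f hq (K V) hBV ε hε
  set F : Submodule ℚ ℂ := Submodule.span ℚ (insert c (f '' (Q : Set ι))) with hF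
  have hFd : FiniteDimensional ℚ F :=
    FiniteDimensional.span_of_finite ℚ ((Q.finite_toSet.image _).insert c)
  obtain ⟨R, hR, hVR, hRR⟩ := hrrk K hK V hV F hFd
  have fR := hR.1
  set A : Set ι := {i : ι | i ∈ Q ∨ f i ∈ K V} with hA
  refine ⟨{m | ∃ S, Good S ∧ ¬ V ≤ S ∧ finrank ℚ S ≤ finrank ℚ R ∧ c + Fv f m ∈ K S},
    {m | ¬ ∀ i ∈ m.support, i ∈ A}, ?_,
    LN_K hlos hcmk htwo hcut hmta hq hL hMt hK (𝒞 := fun S => ¬ V ≤ S)
      (fun W1 W2 _ h12 h2 h1 => h2 (h1.trans h12)) (fun W hW h1 h2 => h1 (hmin W hW h2)) _ c, ?_⟩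
  · rintro m ⟨S, hS, hVS, hKS⟩
    by_cases hbA : ∀ i ∈ m.support, i ∈ A
    · left
      have hy : c + Fv f m ∈ F ⊔ K V := by
        apply Submodule.add_mem
        · exact Submodule.mem_sup_left (Submodule.subset_span (mem_insert _ _))
        · apply fv_mem
          intro i hi
          rcases hbA i hi with h | h
          · exact Submodule.mem_sup_left
              (Submodule.subset_span (mem_insert_of_mem _ ⟨i, h, rfl⟩))
          · exact Submodule.mem_sup_right h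
      have h1 := hRR _ hy S hS hKS
      exact ⟨S ⊓ R, hS.inf, fun h => hVS (h.trans inf_le_left),
        Submodule.finrank_mono inf_le_right, hK.inf hS hR hKS h1⟩
    · right; exact hbA
  · intro x
    have h1 := hfra ι q L hq hL A ε (fun P hP => hQs P fun i hi =>
      ⟨fun h => (hP i hi) (Or.inl h), fun h => (hP i hi) (Or.inr h)⟩) x
    have h2 : Wt q univ (L x) = Wt q {m | ∀ i ∈ m.support, i ∈ A} (L x) +
        Wt q {m | ¬ ∀ i ∈ m.support, i ∈ A} (L x) := by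
      unfold Wt
      rw [← Finset.sum_add_distrib]
      apply Finset.sum_congr rfl
      intro m _
      rw [Set.indicator_of_mem (mem_univ m)]
      by_cases hb : ∀ i ∈ m.support, i ∈ A
      · rw [Set.indicator_of_mem (show m ∈ {m : ι →₀ ℕ | ∀ i ∈ m.support, i ∈ A} from hb),
          Set.indicator_of_notMem
            (show m ∉ {m : ι →₀ ℕ | ¬ ∀ i ∈ m.support, i ∈ A} from fun h => h hb), add_zero]
      · rw [Set.indicator_of_notMem (show m ∉ {m : ι →₀ ℕ | ∀ i ∈ m.support, i ∈ A} from hb),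
          Set.indicator_of_mem
            (show m ∈ {m : ι →₀ ℕ | ¬ ∀ i ∈ m.support, i ∈ A} from hb), zero_add]
    linarith

/-- the primes outside `K` in a finite set -/
lemma ek_eq [DecidableEq ι] (K : Submodule ℚ ℂ) (P : Finset ι) [DecidablePred fun i => f i ∉ K] :
    EK q f K P = ∑ i ∈ P.filter (fun i => f i ∉ K), (q i : ℝ)⁻¹ := by
  unfold EK
  rw [Finset.sum_filter]
  apply Finset.sum_congr rfl
  intro i _
  rw [Set.indicator_apply]
  rfl

/-- the exceptional set for spaces disjoint from `V` -/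
theorem bdd_disjoint [DecidableEq ι] (hzs : S_zs) (hzex : S_zex) (hgrp : S_grp)
    (hq : ∀ i, 2 ≤ q i) (hInd : Ind f) {C' : Submodule ℚ ℂ} (hC' : FiniteDimensional ℚ C')
    (hK : AE.Adm (fun S => C' ⊔ KK S)) {V : Submodule ℚ ℂ} (hVg : Good V)
    (hV : Bd q f (C' ⊔ KK V)) :
    ∃ B : ℝ, ∀ Y : Finset (ι →₀ ℕ), (∀ m ∈ Y, ∃ S, Good S ∧ S ⊓ V = ⊥ ∧
      Fv f m ∈ C' ⊔ KK S) → ∑ m ∈ Y, (nm q m : ℝ)⁻¹ ≤ B := by
  classical
  obtain ⟨C, hC⟩ := hV
  obtain ⟨M, hM⟩ := hgrp ι q f hq hInd C' hC'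
  have hM0 : 0 ≤ M := by simpa using hM 0 ∅ (by simp)
  refine ⟨M * Real.exp (2 * C), fun Y hY => ?_⟩
  set P : Finset ι := Y.sup (fun m => m.support) with hP
  set P2 : Finset ι := P.filter (fun i => f i ∉ C' ⊔ KK V) with hP2
  have hYP : ∀ m ∈ Y, m.support ⊆ P := fun m hm => Finset.le_sup (f := fun m => m.support) hm
  set s : (ι →₀ ℕ) → (ι →₀ ℕ) := fun m => m.filter (fun i => f i ∈ C' ⊔ KK V) with hs
  set t : (ι →₀ ℕ) → (ι →₀ ℕ) := fun m => m.filter (fun i => ¬ f i ∈ C' ⊔ KK V) with ht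
  have hst : ∀ m, s m + t m = m := fun m => Finsupp.filter_pos_add_filter_neg m _
  have hsV : ∀ m, Fv f (s m) ∈ C' ⊔ KK V := by
    intro m
    apply fv_mem
    intro i hi
    rw [hs] at hi
    simp only [Finsupp.support_filter, Finset.mem_filter] at hi
    exact hi.2
  have htP : ∀ m ∈ Y, (t m).support ⊆ P2 := by
    intro m hm i hi
    rw [ht] at hi
    simp only [Finsupp.support_filter, Finset.mem_filter] at hi
    rw [hP2, Finset.mem_filter]
    exact ⟨hYP m hm hi.1, hi.2⟩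
  -- the cofactors with the same `t`
  have hkey : ∀ b ∈ Y, ∀ b' ∈ Y, t b = t b' → Fv f (s b) - Fv f (s b') ∈ C' ⊔ KK ⊥ := by
    intro b hb b' hb' htt
    obtain ⟨S, hS1, hS2, hS3⟩ := hY b hb
    obtain ⟨S', hS1', hS2', hS3'⟩ := hY b' hb'
    have hdiff : Fv f b - Fv f b' = Fv f (s b) - Fv f (s b') := by
      conv_lhs => rw [← hst b, ← hst b', fv_add, fv_add, htt]
      ring
    have hdV : Fv f b - Fv f b' ∈ C' ⊔ KK V := by
      rw [hdiff]
      exact Submodule.sub_mem _ (hsV b) (hsV b')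
    obtain ⟨T, hT1, -, hT3, hT4⟩ := hK.exists_least (W := ⊥) ⟨S, hS1, bot_le, hS3⟩
    obtain ⟨T', hT1', -, hT3', hT4'⟩ := hK.exists_least (W := ⊥) ⟨S', hS1', bot_le, hS3'⟩
    have hTV : T ⊓ V = ⊥ := by
      rw [eq_bot_iff, ← hS2]
      exact inf_le_inf_right V (hT4 S hS1 bot_le hS3)
    have hTV' : T' ⊓ V = ⊥ := by
      rw [eq_bot_iff, ← hS2']
      exact inf_le_inf_right V (hT4' S' hS1' bot_le hS3')
    -- the two least spaces agree
    have key : ∀ A B : Submodule ℚ ℂ, ∀ y y' : ℂ, Good A → Good B → A ⊓ V = ⊥ →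
        y ∈ C' ⊔ KK A → y' ∈ C' ⊔ KK B → y - y' ∈ C' ⊔ KK V →
        (∀ S, Good S → ⊥ ≤ S → y ∈ C' ⊔ KK S → A ≤ S) → A ≤ B := by
      intro A B y y' hA hB hAV hy hy' hyy hleast
      have hG : Good (V ⊔ (A ⊓ B)) := hVg.sup hA.inf
      have h1 : y ∈ C' ⊔ KK (V ⊔ (A ⊓ B)) :=
        hK.ral hA hB hG le_sup_right hy hy' (hK.mono hVg hG le_sup_left hyy)
      have h2 : A ≤ V ⊔ (A ⊓ B) := hleast _ hG bot_le h1
      intro a ha
      obtain ⟨v, hv, r, hr, hvr⟩ := Submodule.mem_sup.mp (h2 ha)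
      have h3 : v ∈ A := by
        have : v = a - r := by rw [← hvr]; ring
        rw [this]; exact A.sub_mem ha hr.1
      have h4 : v ∈ A ⊓ V := ⟨h3, hv⟩
      rw [hAV, Submodule.mem_bot] at h4
      rw [← hvr, h4, zero_add]
      exact hr.2
    have hTT : T = T' := by
      apply le_antisymm
      · exact key T T' _ _ hT1 hT1' hTV hT3 hT3' hdV hT4
      · apply key T' T _ _ hT1' hT1 hTV' hT3' hT3 _ hT4'
        rw [← neg_sub]
        exact Submodule.neg_mem _ hdV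
    have hdT : Fv f b - Fv f b' ∈ C' ⊔ KK T := by
      apply Submodule.sub_mem _ hT3
      rw [hTT]; exact hT3'
    have hbot : Fv f b - Fv f b' ∈ C' ⊔ KK (T ⊓ V) := hK.inf hT1 hVg hdT hdV
    rw [hTV, hdiff] at hbot
    exact hbot
  have hsum : ∑ b ∈ Y, (nm q b : ℝ)⁻¹ = ∑ u ∈ Y.image t, ∑ b ∈ Y with t b = u, (nm q b : ℝ)⁻¹ :=
    (Finset.sum_fiberwise_of_maps_to (fun b hb => Finset.mem_image_of_mem t hb) _).symm
  rw [hsum]
  have hstep : ∀ u ∈ Y.image t, ∑ b ∈ Y with t b = u, (nm q b : ℝ)⁻¹ ≤ (nm q u : ℝ)⁻¹ * M := by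
    intro u hu
    obtain ⟨b0, hb0, rfl⟩ := Finset.mem_image.mp hu
    have hinj : Set.InjOn s (Y.filter fun b => t b = t b0 : Finset (ι →₀ ℕ)) := by
      intro x hx y hy hxy
      simp only [Finset.coe_filter, Set.mem_setOf_eq] at hx hy
      rw [← hst x, ← hst y, hxy, hx.2, hy.2]
    have h3 : ∑ b ∈ Y with t b = t b0, (nm q b : ℝ)⁻¹ =
        (nm q (t b0) : ℝ)⁻¹ * ∑ a ∈ (Y.filter fun b => t b = t b0).image s, (nm q a : ℝ)⁻¹ := by
      rw [Finset.sum_image hinj, Finset.mul_sum]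
      apply Finset.sum_congr rfl
      intro b hb
      rw [Finset.mem_filter] at hb
      have h5 := hst b
      rw [hb.2] at h5
      conv_lhs => rw [← h5, nm_add]
      push_cast
      rw [mul_inv, mul_comm]
    rw [h3]
    apply mul_le_mul_of_nonneg_left _ (by positivity)
    apply hM (s b0)
    intro a ha
    obtain ⟨b, hb, rfl⟩ := Finset.mem_image.mp ha
    rw [Finset.mem_filter] at hb
    exact hkey b hb.1 b0 hb0 hb.2
  calc _ ≤ ∑ u ∈ Y.image t, (nm q u : ℝ)⁻¹ * M := Finset.sum_le_sum hstep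
    _ = M * ∑ u ∈ Y.image t, (nm q u : ℝ)⁻¹ := by rw [← Finset.sum_mul, mul_comm]
    _ ≤ M * ZP q P2 := by
        apply mul_le_mul_of_nonneg_left _ hM0
        apply hzs ι q hq P2
        intro u hu
        obtain ⟨b, hb, rfl⟩ := Finset.mem_image.mp hu
        exact htP b hb
    _ ≤ M * Real.exp (2 * ∑ i ∈ P2, (q i : ℝ)⁻¹) :=
        mul_le_mul_of_nonneg_left (hzex ι q hq P2) hM0
    _ ≤ M * Real.exp (2 * C) := by
        apply mul_le_mul_of_nonneg_left _ hM0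
        rw [Real.exp_le_exp]
        have h1 := hC P
        rw [ek_eq] at h1
        linarith

/-- almost all values at primes in `C + KK W` -/
def CoP (q : ι → ℕ) (f : ι → ℂ) (C W : Submodule ℚ ℂ) : Prop :=
  FiniteDimensional ℚ C ∧ Good W ∧ Bd q f (C ⊔ KK W)

lemma Bd.mono {K K' : Submodule ℚ ℂ} (h : Bd q f K) (hle : K ≤ K') : Bd q f K' := by
  classical
  obtain ⟨C, hC⟩ := h
  refine ⟨C, fun P => (?_ : EK q f K' P ≤ EK q f K P).trans (hC P)⟩
  unfold EK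
  apply Finset.sum_le_sum
  intro i _
  apply Set.indicator_le_indicator_of_subset
  · intro i hi h
    exact hi (hle h)
  · intro i; positivity

lemma Bd.inf {K1 K2 K : Submodule ℚ ℂ} (h1 : Bd q f K1) (h2 : Bd q f K2)
    (h : ∀ z, z ∈ K1 → z ∈ K2 → z ∈ K) : Bd q f K := by
  classical
  obtain ⟨C1, hC1⟩ := h1
  obtain ⟨C2, hC2⟩ := h2
  refine ⟨C1 + C2, fun P => le_trans ?_ (add_le_add (hC1 P) (hC2 P))⟩
  unfold EK
  rw [← Finset.sum_add_distrib]
  apply Finset.sum_le_sum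
  intro i _
  have hp : (0 : ℝ) ≤ (q i : ℝ)⁻¹ := by positivity
  simp only [Set.indicator_apply, Set.mem_setOf_eq]
  by_cases a1 : f i ∈ K1
  · by_cases a2 : f i ∈ K2
    · rw [if_neg (not_not.mpr (h _ a1 a2)), if_neg (not_not.mpr a1), if_neg (not_not.mpr a2),
        add_zero]
    · rw [if_neg (not_not.mpr a1), if_pos a2]
      split_ifs <;> linarith
  · rw [if_pos a1]
    split_ifs <;> linarith

lemma CoP.inf (hadm : AE.S_adm) {C1 C2 W1 W2 : Submodule ℚ ℂ} (h1 : CoP q f C1 W1)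
    (h2 : CoP q f C2 W2) : ∃ C3, CoP q f C3 (W1 ⊓ W2) := by
  have f1 := h1.1
  have f2 := h2.1
  obtain ⟨C', hC', hle, hK⟩ := hadm (C1 ⊔ C2) (Submodule.finiteDimensional_sup C1 C2)
  refine ⟨C', hC', h1.2.1.inf, ?_⟩
  apply Bd.inf (h1.2.2.mono (sup_le_sup_right (le_sup_left.trans hle) (KK W1)))
    (h2.2.2.mono (sup_le_sup_right (le_sup_right.trans hle) (KK W2)))
  intro z hz1 hz2
  exact hK.inf h1.2.1 h2.2.1 hz1 hz2

lemma exists_min (hadm : AE.S_adm) (h : ∃ C W, CoP q f C W) :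
    ∃ C V, CoP q f C V ∧ ∀ C' W, CoP q f C' W → V ≤ W := by
  classical
  have hex : ∃ n : ℕ, ∃ C W, CoP q f C W ∧ finrank ℚ W = n := by
    obtain ⟨C, W, hW⟩ := h
    exact ⟨_, C, W, hW, rfl⟩
  obtain ⟨C, V, hV, hn⟩ := Nat.find_spec hex
  refine ⟨C, V, hV, fun C' W hW => ?_⟩
  obtain ⟨C3, h3⟩ := hV.inf hadm hW
  have h1 : Nat.find hex ≤ finrank ℚ (V ⊓ W : Submodule ℚ ℂ) :=
    Nat.find_min' hex ⟨C3, V ⊓ W, h3, rfl⟩
  rw [← hn] at h1
  have := hV.2.1.1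
  have h3 : (V ⊓ W : Submodule ℚ ℂ) = V := Submodule.eq_of_le_of_finrank_le inf_le_left h1
  rw [← h3]
  exact inf_le_right

lemma CoP.map {C W D : Submodule ℚ ℂ} (h : CoP q f C W) (τ : ι ≃ ι)
    (hτq : ∀ i, q (τ i) = q i) (hD : FiniteDimensional ℚ D)
    (hτ : ∀ i, (starRingEnd ℂ) (f i) - f (τ i) ∈ D) :
    CoP q f (C.map cjL ⊔ D) (W.map cjL) := by
  classical
  obtain ⟨hC, ⟨hfd, halg⟩, B, hB⟩ := h
  have hCm : FiniteDimensional ℚ (C.map cjL) := inferInstance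
  refine ⟨Submodule.finiteDimensional_sup _ _, ⟨inferInstance, map_alg halg⟩, B, fun P => ?_⟩
  refine le_trans ?_ (hB (P.map τ.symm.toEmbedding))
  rw [ek_eq, ek_eq]
  have hle : ∀ i : ι, f (τ i) ∉ (C.map cjL ⊔ D) ⊔ KK (W.map cjL) → f i ∉ C ⊔ KK W := by
    intro i hi h1
    apply hi
    obtain ⟨c, hc, x, hx, hcx⟩ := Submodule.mem_sup.mp h1
    have h2 : (starRingEnd ℂ) x ∈ KK (W.map cjL) := by
      rw [mem_KK] at hx ⊢
      exact conj_mem_map hx
    have h3 : (starRingEnd ℂ) c ∈ C.map cjL := ⟨c, hc, rfl⟩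
    have h4 : f (τ i) = ((starRingEnd ℂ) c + -((starRingEnd ℂ) (f i) - f (τ i))) +
        (starRingEnd ℂ) x := by
      rw [← hcx, map_add]; ring
    rw [h4]
    exact Submodule.add_mem _ (Submodule.mem_sup_left (Submodule.add_mem _
      (Submodule.mem_sup_left h3) (Submodule.mem_sup_right (D.neg_mem (hτ i)))))
      (Submodule.mem_sup_right h2)
  calc ∑ i ∈ P.filter (fun i => f i ∉ (C.map cjL ⊔ D) ⊔ KK (W.map cjL)), (q i : ℝ)⁻¹
      = ∑ j ∈ (P.filter (fun i => f i ∉ (C.map cjL ⊔ D) ⊔ KK (W.map cjL))).map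
          τ.symm.toEmbedding, (q j : ℝ)⁻¹ := by
        rw [Finset.sum_map]
        apply Finset.sum_congr rfl
        intro i _
        have := hτq (τ.symm i)
        rw [Equiv.apply_symm_apply] at this
        simp only [Equiv.coe_toEmbedding]
        rw [← this]
    _ ≤ _ := by
        apply Finset.sum_le_sum_of_subset_of_nonneg
        · intro j hj
          rw [Finset.mem_map] at hj
          obtain ⟨i, hi, rfl⟩ := hj
          rw [Finset.mem_filter] at hi ⊢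
          refine ⟨Finset.mem_map_of_mem _ hi.1, ?_⟩
          apply hle
          simp only [Equiv.coe_toEmbedding, Equiv.apply_symm_apply]
          exact hi.2
        · intro j _ _; positivity

lemma conj_stable {C V D : Submodule ℚ ℂ} (h : CoP q f C V)
    (hmin : ∀ C' W, CoP q f C' W → V ≤ W) (τ : ι ≃ ι)
    (hτq : ∀ i, q (τ i) = q i) (hD : FiniteDimensional ℚ D)
    (hτ : ∀ i, (starRingEnd ℂ) (f i) - f (τ i) ∈ D) :
    ∀ v ∈ V, (starRingEnd ℂ) v ∈ V := by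
  intro v hv
  obtain ⟨w, hw, hwv⟩ := hmin _ _ (h.map τ hτq hD hτ) hv
  have : (starRingEnd ℂ) v = w := by
    rw [← hwv, cjL_apply, Complex.conj_conj]
  rw [this]; exact hw

lemma not_CoP_bot (hpos : S_pos) (hgrp : S_grp) (hq : ∀ i, 2 ≤ q i) (hL : IsL q L)
    (hLow : Low q L) (hInd : Ind f) {C : Submodule ℚ ℂ} : ¬ CoP q f C ⊥ := by
  classical
  rintro ⟨hC, -, hB⟩
  obtain ⟨δ, hδ, h⟩ := hpos ι q f L hq hL hLow _ hB
  obtain ⟨M, hM⟩ := hgrp ι q f hq hInd C hC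
  have h1 : ∀ᶠ x : ℕ in atTop, δ * Real.log x ≤ M := by
    filter_upwards [h] with x hx
    refine hx.trans ?_
    rw [wt_eq_filter]
    apply hM 0
    intro s hs
    rw [Finset.mem_filter] at hs
    rw [fv_zero, sub_zero]
    exact hs.2
  have h2 := (Real.tendsto_log_atTop.comp tendsto_natCast_atTop_atTop).eventually_gt_atTop (M / δ)
  obtain ⟨x, hx1, hx2⟩ := (h1.and h2).exists
  have h4 : M / δ < Real.log x := hx2
  rw [div_lt_iff₀ hδ] at h4
  linarith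

/-- **abstract main theorem** (with the pieces as hypotheses) -/
theorem main_abs [DecidableEq ι] (hzs : S_zs) (hlos : S_los) (hcmk : S_cmk) (htwo : S_two)
    (hcut : S_cut) (hmta : S_mta) (hlim : S_lim) (hexk : S_exk) (hfra : S_fra) (hgrp : S_grp)
    (hzex : S_zex) (hpos : S_pos) (hrrk : AE.S_rrk) (hadm : AE.S_adm)
    (hq : ∀ i, 2 ≤ q i) (hL : IsL q L) (hMt : Mt0 q L) (hLow : Low q L) (hInd : Ind f) :
    ∃ V : Submodule ℚ ℂ, Good V ∧
      (∀ (τ : ι ≃ ι) (D : Submodule ℚ ℂ), (∀ i, q (τ i) = q i) → FiniteDimensional ℚ D →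
        (∀ i, (starRingEnd ℂ) (f i) - f (τ i) ∈ D) → ∀ v ∈ V, (starRingEnd ℂ) v ∈ V) ∧
      (V = ⊥ → ∀ (r : ℕ) (C : Submodule ℚ ℂ), FiniteDimensional ℚ C →
        LN q L {m | ∃ S, Good S ∧ finrank ℚ S ≤ r ∧ Fv f m ∈ C ⊔ KK S}) ∧
      (V ≠ ⊥ → ∀ C : Submodule ℚ ℂ, FiniteDimensional ℚ C →
        LN q L {m | ∃ S, Good S ∧ ¬ V ≤ S ∧ Fv f m ∈ C ⊔ KK S}) ∧
      (V ≠ ⊥ → ∀ C : Submodule ℚ ℂ, FiniteDimensional ℚ C →
        ∃ B : ℝ, ∀ Y : Finset (ι →₀ ℕ), (∀ m ∈ Y, ∃ S, Good S ∧ S ⊓ V = ⊥ ∧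
          Fv f m ∈ C ⊔ KK S) → ∑ m ∈ Y, (nm q m : ℝ)⁻¹ ≤ B) ∧
      (V ≠ ⊥ → ∃ C : Submodule ℚ ℂ, FiniteDimensional ℚ C ∧
        ∃ δ : ℝ, 0 < δ ∧ ∀ᶠ x : ℕ in atTop,
          δ * Real.log x ≤ Wt q {m | Fv f m ∈ C ⊔ KK V} (L x)) := by
  classical
  by_cases hno : ∃ C W, CoP q f C W
  · obtain ⟨C₀, V, hV, hmin⟩ := exists_min hadm hno
    have hVne : V ≠ ⊥ := by
      rintro rfl
      exact not_CoP_bot hpos hgrp hq hL hLow hInd hV
    have f0 := hV.1
    -- an admissible family for every shift space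
    have hfamily : ∀ C : Submodule ℚ ℂ, FiniteDimensional ℚ C → ∃ C' : Submodule ℚ ℂ,
        FiniteDimensional ℚ C' ∧ C ≤ C' ∧ AE.Adm (fun S => C' ⊔ KK S) ∧ Bd q f (C' ⊔ KK V) ∧
        ∀ W, Good W → Bd q f (C' ⊔ KK W) → V ≤ W := by
      intro C hC
      obtain ⟨C', hC', hle, hK⟩ := hadm (C ⊔ C₀) (Submodule.finiteDimensional_sup C C₀)
      exact ⟨C', hC', le_sup_left.trans hle, hK,
        hV.2.2.mono (sup_le_sup_right (le_sup_right.trans hle) (KK V)),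
        fun W hW hB => hmin C' W ⟨hC', hW, hB⟩⟩
    refine ⟨V, hV.2.1, fun τ D hτq hD hτ => conj_stable hV hmin τ hτq hD hτ,
      fun h => absurd h hVne, ?_, ?_, ?_⟩
    · intro _ C hC
      obtain ⟨C', hC', hle, hK, hB, hmin'⟩ := hfamily C hC
      apply (LN_B hlos hcmk htwo hcut hmta hrrk hlim hexk hfra hq hL hMt hK hV.2.1 hB
        hmin' 0).mono
      rintro m ⟨S, hS, hVS, hm⟩
      refine ⟨S, hS, hVS, ?_⟩
      rw [zero_add]
      exact sup_le_sup_right hle _ hm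
    · intro _ C hC
      obtain ⟨C', hC', hle, hK, hB, hmin'⟩ := hfamily C hC
      obtain ⟨B, hbd⟩ := bdd_disjoint hzs hzex hgrp hq hInd hC' hK hV.2.1 hB
      refine ⟨B, fun Y hY => hbd Y fun m hm => ?_⟩
      obtain ⟨S, hS, hSV, h⟩ := hY m hm
      exact ⟨S, hS, hSV, sup_le_sup_right hle _ h⟩
    · intro _
      exact ⟨C₀, hV.1, hpos ι q f L hq hL hLow _ hV.2.2⟩
  · push Not at hno
    refine ⟨⊥, Good.bot, ?_, ?_, fun h => absurd rfl h, fun h => absurd rfl h,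
      fun h => absurd rfl h⟩
    · intro _ _ _ _ _ v hv
      rw [Submodule.mem_bot] at hv ⊢
      rw [hv, map_zero]
    · intro _ r C hC
      obtain ⟨C', hC', hle, hK⟩ := hadm C hC
      apply (LN_K hlos hcmk htwo hcut hmta hq hL hMt hK (𝒞 := fun _ => True)
        (fun _ _ _ _ _ => trivial) (fun W hW _ hB => hno C' W ⟨hC', hW, hB⟩) r 0).mono
      rintro m ⟨S, hS, hr, hm⟩
      refine ⟨S, hS, trivial, hr, ?_⟩
      rw [zero_add]
      exact sup_le_sup_right hle _ hm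

end Pool.Agent.Lib.MP_c82530_nt.AG
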