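import Pool.Agent.Lib.MP_c82530_nt.AG.Defs

set_option autoImplicit false

namespace Pool.Agent.Lib.MP_c82530_nt.AG

open Set Pool.Agent.Lib.MP_c82530_nt Pool.Agent.Lib.MP_c82530_nt.AA Module

private lemma cmk_nonneg {ι : Type} (q : ι → ℕ) (f : ι → ℂ) (K : Submodule ℚ ℂ) (i : ι) :
    0 ≤ {i : ι | f i ∉ K}.indicator (fun i => (q i : ℝ)⁻¹) i :=
  Set.indicator_nonneg (fun i _ => by positivity) i

private lemma cmk_le {ι : Type} (q : ι → ℕ) (f : ι → ℂ) (K : Submodule ℚ ℂ) (i : ι) :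
    {i : ι | f i ∉ K}.indicator (fun i => (q i : ℝ)⁻¹) i ≤ (q i : ℝ)⁻¹ := by
  have h : (0 : ℝ) ≤ (q i : ℝ)⁻¹ := by positivity
  unfold Set.indicator
  split_ifs
  · exact le_rfl
  · exact h

private lemma cmk_mono {ι : Type} (q : ι → ℕ) (f : ι → ℂ) (K : Submodule ℚ ℂ) {P Q : Finset ι}
    (h : P ⊆ Q) : EK q f K P ≤ EK q f K Q :=
  Finset.sum_le_sum_of_subset_of_nonneg h fun i _ _ => cmk_nonneg q f K i

private lemma cmk_inf {K : Submodule ℚ ℂ → Submodule ℚ ℂ} (hK : AE.Adm K)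
    {W1 W2 : Submodule ℚ ℂ} (h1 : Good W1) (h2 : Good W2) {z : ℂ} (z1 : z ∈ K W1)
    (z2 : z ∈ K W2) : z ∈ K (W1 ⊓ W2) := by
  obtain ⟨fam, hfam⟩ := hK.2 z
  have a1 := (hfam W1 W1 h1 h1 (Submodule.mem_sup_left z1)).1
  obtain ⟨a2, a3⟩ := hfam W2 W2 h2 h2 (Submodule.mem_sup_left z2)
  refine a3 (W1 ⊓ W2) h1.inf fun M hM => le_inf ?_ ?_
  · exact (a1 M hM).elim id id
  · exact (a2 M hM).elim id id

private lemma cmk_EK_inf {ι : Type} (q : ι → ℕ) (f : ι → ℂ)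
    {K : Submodule ℚ ℂ → Submodule ℚ ℂ} (hK : AE.Adm K) {W1 W2 : Submodule ℚ ℂ}
    (h1 : Good W1) (h2 : Good W2) (P : Finset ι) :
    EK q f (K (W1 ⊓ W2)) P ≤ EK q f (K W1) P + EK q f (K W2) P := by
  classical
  unfold EK
  rw [← Finset.sum_add_distrib]
  apply Finset.sum_le_sum
  intro i _
  have n1 := cmk_nonneg q f (K W1) i
  have n2 := cmk_nonneg q f (K W2) i
  have n3 := cmk_le q f (K (W1 ⊓ W2)) i
  by_cases a1 : f i ∈ K W1
  · by_cases a2 : f i ∈ K W2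
    · have a3 := cmk_inf hK h1 h2 a1 a2
      have e : {i : ι | f i ∉ K (W1 ⊓ W2)}.indicator (fun i => (q i : ℝ)⁻¹) i = 0 :=
        Set.indicator_of_notMem (fun h : f i ∉ K (W1 ⊓ W2) => h a3) _
      rw [e]
      exact add_nonneg n1 n2
    · have e : {i : ι | f i ∉ K W2}.indicator (fun i => (q i : ℝ)⁻¹) i = (q i : ℝ)⁻¹ :=
        Set.indicator_of_mem (show f i ∉ K W2 from a2) _
      rw [← e] at n3
      linarith
  · have e : {i : ι | f i ∉ K W1}.indicator (fun i => (q i : ℝ)⁻¹) i = (q i : ℝ)⁻¹ :=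
      Set.indicator_of_mem (show f i ∉ K W1 from a1) _
    rw [← e] at n3
    linarith

private lemma cmk_large {ι : Type} {q : ι → ℕ} {f : ι → ℂ} {K : Submodule ℚ ℂ}
    (h : ¬ Bd q f K) (C : ℝ) : ∃ P₀ : Finset ι, ∀ P, P₀ ⊆ P → C ≤ EK q f K P := by
  by_contra hcon
  push Not at hcon
  apply h
  refine ⟨C, fun P => ?_⟩
  obtain ⟨Q, hQ, hQ2⟩ := hcon P
  exact (cmk_mono q f K hQ).trans hQ2.le

private lemma cmk_compactness {ι : Type} [DecidableEq ι] {q : ι → ℕ} {f : ι → ℂ}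
    {K : Submodule ℚ ℂ → Submodule ℚ ℂ} (hK : AE.Adm K)
    {𝒞 : Submodule ℚ ℂ → Prop} (hcl : ∀ W1 W2, Good W2 → W1 ≤ W2 → 𝒞 W2 → 𝒞 W1)
    (hno : ∀ W, Good W → 𝒞 W → ¬ Bd q f (K W)) :
    ∀ (d : ℕ) (C : ℝ), ∃ P : Finset ι,
      ∀ W, Good W → 𝒞 W → finrank ℚ W ≤ d → C ≤ EK q f (K W) P := by
  intro d
  induction d with
  | zero =>
    intro C
    by_cases hb : 𝒞 ⊥
    · obtain ⟨P, hP⟩ := cmk_large (hno ⊥ Good.bot hb) C
      refine ⟨P, fun W hW _ hd => ?_⟩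
      have := hW.1
      have hW0 : W = ⊥ := by
        rw [← Submodule.finrank_eq_zero (R := ℚ)]
        omega
      rw [hW0]
      exact hP P (Finset.Subset.refl P)
    · refine ⟨∅, fun W hW hc hd => ?_⟩
      exfalso
      have := hW.1
      have hW0 : W = ⊥ := by
        rw [← Submodule.finrank_eq_zero (R := ℚ)]
        omega
      rw [hW0] at hc
      exact hb hc
  | succ d ih =>
    intro C
    by_contra hcon
    push Not at hcon
    obtain ⟨P0, hP0⟩ := ih (2 * C)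
    choose Wx hg hc hr hlt using hcon
    have key : ∀ P, P0 ⊆ P → Wx P = Wx P0 := by
      intro P hP
      have f1 := (hg P).1
      have f0 := (hg P0).1
      have h1 : EK q f (K (Wx P ⊓ Wx P0)) P0 < 2 * C := by
        have h2 := cmk_EK_inf q f hK (hg P) (hg P0) P0
        have h3 : EK q f (K (Wx P)) P0 ≤ EK q f (K (Wx P)) P := cmk_mono q f _ hP
        have h4 := hlt P
        have h5 := hlt P0
        linarith
      have h2 : d < finrank ℚ (Wx P ⊓ Wx P0 : Submodule ℚ ℂ) := by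
        by_contra h3
        push Not at h3
        exact absurd (hP0 _ (hg P).inf (hcl _ _ (hg P0) inf_le_right (hc P0)) h3)
          (not_le.mpr h1)
      have e1 : Wx P ⊓ Wx P0 = Wx P :=
        Submodule.eq_of_le_of_finrank_le inf_le_left (by have := hr P; omega)
      have e2 : Wx P ⊓ Wx P0 = Wx P0 :=
        Submodule.eq_of_le_of_finrank_le inf_le_right (by have := hr P0; omega)
      exact e1.symm.trans e2
    obtain ⟨Q, hQ⟩ := cmk_large (hno _ (hg P0) (hc P0)) C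
    have h1 := hQ (Q ∪ P0) Finset.subset_union_left
    have h2 := hlt (Q ∪ P0)
    rw [key _ Finset.subset_union_right] at h2
    linarith

theorem p_cmk : S_cmk := by
  intro ι _ q f _ K hK 𝒞 hcl hno M C E
  obtain ⟨P, hP⟩ := cmk_compactness hK hcl hno M (C + ∑ i ∈ E, (q i : ℝ)⁻¹)
  refine ⟨P \ E, Finset.sdiff_disjoint, fun W hW hc hM => ?_⟩
  have h1 := hP W hW hc hM
  have h2 : EK q f (K W) P ≤ EK q f (K W) (P \ E) + EK q f (K W) E := by
    have h3 : EK q f (K W) P ≤ EK q f (K W) ((P \ E) ∪ E) :=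
      cmk_mono q f _ (by
        intro i hi
        by_cases hE : i ∈ E
        · exact Finset.mem_union_right _ hE
        · exact Finset.mem_union_left _ (Finset.mem_sdiff.mpr ⟨hi, hE⟩))
    refine h3.trans (le_of_eq ?_)
    exact Finset.sum_union Finset.sdiff_disjoint
  have h4 : EK q f (K W) E ≤ ∑ i ∈ E, (q i : ℝ)⁻¹ :=
    Finset.sum_le_sum fun i _ => cmk_le q f (K W) i
  linarith

end Pool.Agent.Lib.MP_c82530_nt.AG
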