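import Pool.Agent.Lib.MP_c82530_nt.AG.Defs

set_option autoImplicit false

namespace Pool.Agent.Lib.MP_c82530_nt.AG

open Set Pool.Agent.Lib.MP_c82530_nt Pool.Agent.Lib.MP_c82530_nt.AA Module

private theorem cut_pos {ι : Type} (q : ι → ℕ) (hq : ∀ i, 2 ≤ q i) (P : Finset ι) :
    0 < ZP q P := by
  refine Finset.prod_pos fun i _ => ?_
  rw [inv_pos, sub_pos]
  exact inv_lt_one_of_one_lt₀ (by exact_mod_cast (hq i))

theorem p_cut (hzs : S_zs) : S_cut := by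
  classical
  intro ι q hq P ε hε
  set T : Set ℝ := {x | ∃ Y : Finset (ι →₀ ℕ), (∀ m ∈ Y, m.support ⊆ P) ∧
    ∑ m ∈ Y, (nm q m : ℝ)⁻¹ = x} with hT
  have hbdd : BddAbove T := by
    refine ⟨ZP q P, ?_⟩
    rintro x ⟨Y, hY, rfl⟩
    exact hzs ι q hq P Y hY
  have hne : T.Nonempty := ⟨0, ∅, by simp, by simp⟩
  have hpos : 0 < ε * ZP q P := mul_pos hε (cut_pos q hq P)
  obtain ⟨x, ⟨F, hF, rfl⟩, hx⟩ := exists_lt_of_lt_csSup hne
    (show sSup T - ε * ZP q P < sSup T by linarith)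
  refine ⟨F, fun Y hY hYF => ?_⟩
  have hd : Disjoint F Y := by
    rw [Finset.disjoint_left]
    intro b hb hbY
    exact hYF b hbY hb
  have h1 : ∑ m ∈ F ∪ Y, (nm q m : ℝ)⁻¹ ≤ sSup T := by
    refine le_csSup hbdd ⟨F ∪ Y, fun b hb => ?_, rfl⟩
    rcases Finset.mem_union.1 hb with h | h
    · exact hF b h
    · exact hY b h
  rw [Finset.sum_union hd] at h1
  linarith

end Pool.Agent.Lib.MP_c82530_nt.AG
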