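import Pool.Agent.Lib.MP_c82530_nt.AG.Defs

set_option autoImplicit false

/-!
# Piece EXK: shrinking the exceptional weight
-/

namespace Pool.Agent.Lib.MP_c82530_nt.AG

open Set Pool.Agent.Lib.MP_c82530_nt Pool.Agent.Lib.MP_c82530_nt.AA Module

theorem p_exk : S_exk := by
  classical
  rintro ι q f _ K ⟨C, hC⟩ ε hε
  set A : Set ℝ := {x | ∃ P : Finset ι, (∀ p ∈ P, f p ∉ K) ∧ x = ∑ p ∈ P, (q p : ℝ)⁻¹} with hA
  have hne : A.Nonempty := ⟨0, ∅, by simp, by simp⟩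
  have hbd : BddAbove A := ⟨C, by
    rintro x ⟨P, hP, rfl⟩
    have h1 := hC P
    have h2 : EK q f K P = ∑ p ∈ P, (q p : ℝ)⁻¹ := by
      unfold EK
      apply Finset.sum_congr rfl
      intro i hi
      exact Set.indicator_of_mem (show i ∈ {i : ι | f i ∉ K} from hP i hi) _
    rw [h2] at h1
    exact h1⟩
  obtain ⟨x, ⟨Q, hQ, rfl⟩, hx⟩ := exists_lt_of_lt_csSup hne (show sSup A - ε < sSup A by linarith)
  refine ⟨Q, ?_⟩
  intro P hP
  have hdis : Disjoint P Q := by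
    rw [Finset.disjoint_left]
    intro p hp hp0
    exact (hP p hp).1 hp0
  have h1 : ∑ p ∈ P ∪ Q, (q p : ℝ)⁻¹ ≤ sSup A := by
    apply le_csSup hbd
    refine ⟨P ∪ Q, ?_, rfl⟩
    intro p hp
    rcases Finset.mem_union.1 hp with h | h
    · exact (hP p h).2
    · exact hQ p h
  rw [Finset.sum_union hdis] at h1
  linarith

end Pool.Agent.Lib.MP_c82530_nt.AG
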