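import Mathlib
import Pool.Agent.Lib.MP_c82530_nt.AG.Defs

set_option autoImplicit false

namespace Pool.Agent.Lib.MP_c82530_nt.AG

open Set Pool.Agent.Lib.MP_c82530_nt Pool.Agent.Lib.MP_c82530_nt.AA Module Filter Topology

private lemma lim_nonneg {ι : Type} (q : ι → ℕ) (A : Set (ι →₀ ℕ)) (T : Finset (ι →₀ ℕ)) :
    0 ≤ Wt q A T :=
  Finset.sum_nonneg fun m _ => Set.indicator_nonneg (fun m _ => by positivity) m

theorem p_lim : S_lim := by
  classical
  intro ι q L hq hL hMt D hD
  obtain ⟨C, hC, hMt⟩ := hMt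
  obtain ⟨x₀, hx₀⟩ := hMt ∅
  rw [LN, Metric.tendsto_atTop]
  intro ε hε
  obtain ⟨D1, D2, hsub, hD1, hD2⟩ := hD (ε / (4 * C)) (by positivity)
  rw [LN, Metric.tendsto_atTop] at hD1
  obtain ⟨N₁, hN₁⟩ := hD1 (ε / 4) (by positivity)
  refine ⟨max (max 3 N₁) x₀, fun N hN => ?_⟩
  have hN3 : 3 ≤ N := le_trans (le_trans (le_max_left _ _) (le_max_left _ _)) hN
  have hNN : N₁ ≤ N := le_trans (le_trans (le_max_right _ _) (le_max_left _ _)) hN
  have hNx : x₀ ≤ N := le_trans (le_max_right _ _) hN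
  have hlog1 : 1 ≤ Real.log N := by
    rw [Real.le_log_iff_exp_le (by positivity)]
    have h1 := Real.exp_one_lt_d9
    have h2 : (3 : ℝ) ≤ N := by exact_mod_cast hN3
    linarith
  have hlog : 0 < Real.log N := by linarith
  have h1 := hN₁ N hNN
  rw [Real.dist_eq, sub_zero, abs_of_nonneg (div_nonneg (lim_nonneg q D1 _) hlog.le),
    div_lt_iff₀ hlog] at h1
  rw [Real.dist_eq, sub_zero, abs_of_nonneg (div_nonneg (lim_nonneg q D _) hlog.le),
    div_lt_iff₀ hlog]
  have h2 := hD2 N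
  have h3 : Wt q univ (L N) ≤ C * Real.log N := by
    have h := hx₀ N hNx
    have e1 : {m : ι →₀ ℕ | Disjoint m.support (∅ : Finset ι)} = univ := by
      ext m; simp
    have e2 : ZP q (∅ : Finset ι) = 1 := by simp [ZP]
    rw [e1, e2, div_one] at h
    exact h
  have h4 : Wt q D (L N) ≤ Wt q D1 (L N) + Wt q D2 (L N) := by
    unfold Wt
    rw [← Finset.sum_add_distrib]
    apply Finset.sum_le_sum
    intro b hb
    have e1 : 0 ≤ D1.indicator (fun m : ι →₀ ℕ => (nm q m : ℝ)⁻¹) b :=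
      Set.indicator_nonneg (fun b _ => by positivity) b
    have e2 : 0 ≤ D2.indicator (fun m : ι →₀ ℕ => (nm q m : ℝ)⁻¹) b :=
      Set.indicator_nonneg (fun b _ => by positivity) b
    by_cases h : b ∈ D
    · rw [Set.indicator_of_mem h]
      rcases hsub h with h5 | h5
      · rw [Set.indicator_of_mem h5]
        linarith
      · rw [Set.indicator_of_mem h5]
        linarith
    · rw [Set.indicator_of_notMem h]
      linarith
  have h5 : ε / (4 * C) * Wt q univ (L N) ≤ ε / 4 * Real.log N := by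
    calc ε / (4 * C) * Wt q univ (L N) ≤ ε / (4 * C) * (C * Real.log N) :=
          mul_le_mul_of_nonneg_left h3 (by positivity)
      _ = ε / 4 * Real.log N := by field_simp
  nlinarith

end Pool.Agent.Lib.MP_c82530_nt.AG
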