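import Mathlib
import Pool.Agent.Lib.MP_c82530_nt.AG.Defs

set_option autoImplicit false

/-!
# MP_c82530_nt, project AG, piece LO (Littlewood-Offord type bound)
-/

namespace Pool.Agent.Lib.MP_c82530_nt.AG

open scoped BigOperators Real
open MeasureTheory

private theorem lo_box {ι : Type} (P : Finset ι) (N : ℕ) (g : ι → ℕ → ℂ) :
    ∑ m ∈ P.finsupp (fun _ => Finset.range N), ∏ i ∈ P, g i (m i) =
      ∏ i ∈ P, ∑ j ∈ Finset.range N, g i j := by
  classical
  rw [Finset.prod_sum, Finset.finsupp, Finset.sum_map]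
  refine Finset.sum_congr rfl fun p _ => ?_
  rw [← Finset.prod_attach P]
  refine Finset.prod_congr rfl fun i _ => ?_
  congr 1
  exact Finsupp.indicator_of_mem i.2 p

/-- the value at a prime -/
private noncomputable def loz {ι : Type} (q : ι → ℕ) (a : ι → ℤ) (t : ℝ) (i : ι) : ℂ :=
  (q i : ℂ)⁻¹ * Complex.exp (2 * π * Complex.I * (a i : ℂ) * (t : ℂ))

private theorem lo_norm_exp (x : ℤ) (t : ℝ) :
    ‖Complex.exp (2 * π * Complex.I * (x : ℂ) * (t : ℂ))‖ = 1 := by
  have : 2 * (π : ℂ) * Complex.I * (x : ℂ) * (t : ℂ) = ((2 * π * x * t : ℝ) : ℂ) * Complex.I := by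
    push_cast
    ring
  rw [this, Complex.norm_exp_ofReal_mul_I]

private theorem loz_norm {ι : Type} (q : ι → ℕ) (a : ι → ℤ) (t : ℝ) (i : ι) :
    ‖loz q a t i‖ = (q i : ℝ)⁻¹ := by
  rw [loz, norm_mul, lo_norm_exp, mul_one, norm_inv, Complex.norm_natCast]

private theorem loz_cont {ι : Type} (q : ι → ℕ) (a : ι → ℤ) (i : ι) :
    Continuous (fun t : ℝ => loz q a t i) := by
  unfold loz
  fun_prop

/-- orthogonality -/
private theorem lo_orth (x : ℤ) :
    ∫ t in (0:ℝ)..1, Complex.exp (2 * π * Complex.I * (x : ℂ) * (t : ℂ)) =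
      if x = 0 then 1 else 0 := by
  rcases eq_or_ne x 0 with hx | hx
  · subst hx
    simp
  · rw [if_neg hx]
    have hc : (2 * (π : ℂ) * Complex.I * (x : ℂ)) ≠ 0 := by
      refine mul_ne_zero (mul_ne_zero (mul_ne_zero two_ne_zero ?_) Complex.I_ne_zero) ?_
      · exact_mod_cast Real.pi_ne_zero
      · exact_mod_cast hx
    rw [integral_exp_mul_complex hc]
    have h1 : Complex.exp (2 * (π : ℂ) * Complex.I * (x : ℂ) * ((1 : ℝ) : ℂ)) = 1 := by
      rw [Complex.exp_eq_one_iff]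
      exact ⟨x, by push_cast; ring⟩
    rw [h1]
    simp

private theorem lo_mono {ι : Type} (q : ι → ℕ) (P : Finset ι) (a : ι → ℤ) (t : ℝ)
    (m : ι →₀ ℕ) (hm : m.support ⊆ P) :
    ∏ i ∈ P, (loz q a t i) ^ (m i) = (nm q m : ℂ)⁻¹ *
      Complex.exp (2 * π * Complex.I * ((∑ i ∈ P, (m i : ℤ) * a i : ℤ) : ℂ) * (t : ℂ)) := by
  have h1 : (nm q m : ℂ) = ∏ i ∈ P, (q i : ℂ) ^ (m i) := by
    unfold nm
    rw [Finsupp.prod_of_support_subset m hm _ (fun i _ => pow_zero _)]
    push_cast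
    rfl
  rw [h1]
  simp only [loz, mul_pow, Finset.prod_mul_distrib, inv_pow, Finset.prod_inv_distrib]
  congr 1
  push_cast
  rw [Finset.mul_sum, Finset.sum_mul, Complex.exp_sum]
  refine Finset.prod_congr rfl fun i _ => ?_
  rw [← Complex.exp_nat_mul]
  congr 1
  ring

/-- the main inequality between the sum and the integral -/
private theorem lo_int {ι : Type} (q : ι → ℕ) (hq : ∀ i, 2 ≤ q i) (P : Finset ι) (a : ι → ℤ)
    (k : ℤ) (Y : Finset (ι →₀ ℕ)) (hY : ∀ m ∈ Y, m.support ⊆ P)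
    (hk : ∀ m ∈ Y, ∑ i ∈ P, (m i : ℤ) * a i = k) :
    ∑ m ∈ Y, (nm q m : ℝ)⁻¹ ≤ ∫ t in (0:ℝ)..1, ‖∏ i ∈ P, (1 - loz q a t i)⁻¹‖ := by
  classical
  set J : ℝ := ∫ t in (0:ℝ)..1, ‖∏ i ∈ P, (1 - loz q a t i)⁻¹‖ with hJ
  have hne : ∀ (t : ℝ) (i : ι), 1 - loz q a t i ≠ 0 := by
    intro t i h0
    have h1 : ‖loz q a t i‖ = 1 := by
      have : loz q a t i = 1 := (sub_eq_zero.mp h0).symm
      rw [this, norm_one]
    rw [loz_norm] at h1
    have h2 : (1 : ℝ) < q i := by exact_mod_cast (hq i)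
    have h3 : (q i : ℝ)⁻¹ < 1 := inv_lt_one_of_one_lt₀ h2
    linarith
  have hcprod : Continuous (fun t : ℝ => ‖∏ i ∈ P, (1 - loz q a t i)⁻¹‖) := by
    refine Continuous.norm (continuous_finsetProd _ fun i _ => ?_)
    exact Continuous.inv₀ (continuous_const.sub (loz_cont q a i)) fun t => hne t i
  have hbound : ∀ᶠ N : ℕ in Filter.atTop,
      ∑ m ∈ Y, (nm q m : ℝ)⁻¹ ≤ (1 + (1 / 2 : ℝ) ^ N) ^ P.card * J := by
    -- the exponents are bounded
    obtain ⟨N₀, hN₀⟩ : ∃ N₀ : ℕ, ∀ m ∈ Y, ∀ i ∈ P, m i < N₀ := by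
      refine ⟨Y.sup (fun m => P.sup fun i => m i) + 1, fun m hm i hi => ?_⟩
      have h1 : m i ≤ P.sup fun i => m i := Finset.le_sup (f := fun i => m i) hi
      have h2 : (P.sup fun i => m i) ≤ Y.sup (fun m : ι →₀ ℕ => P.sup fun i => m i) :=
        Finset.le_sup (f := fun m : ι →₀ ℕ => P.sup fun i => m i) hm
      omega
    refine Filter.eventually_atTop.mpr ⟨N₀, fun N hN => ?_⟩
    set Bx : Finset (ι →₀ ℕ) := P.finsupp (fun _ => Finset.range N) with hBx
    have hBmem : ∀ m ∈ Bx, m.support ⊆ P := fun m hm => (Finset.mem_finsupp_iff.mp hm).1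
    have hYB : Y ⊆ Bx := by
      intro m hm
      rw [hBx, Finset.mem_finsupp_iff]
      exact ⟨hY m hm, fun i hi => Finset.mem_range.mpr ((hN₀ m hm i hi).trans_le hN)⟩
    set I : ℂ := ∫ t in (0:ℝ)..1, Complex.exp (2 * π * Complex.I * ((-k : ℤ) : ℂ) * (t : ℂ)) *
        ∏ i ∈ P, ∑ j ∈ Finset.range N, (loz q a t i) ^ j with hI
    have hIval : I = ((∑ m ∈ Bx, (if ∑ i ∈ P, (m i : ℤ) * a i = k then (nm q m : ℝ)⁻¹ else 0) : ℝ)
        : ℂ) := by
      have h1 : ∀ t : ℝ, Complex.exp (2 * π * Complex.I * ((-k : ℤ) : ℂ) * (t : ℂ)) *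
          ∏ i ∈ P, ∑ j ∈ Finset.range N, (loz q a t i) ^ j =
          ∑ m ∈ Bx, (nm q m : ℂ)⁻¹ * Complex.exp (2 * π * Complex.I *
            (((∑ i ∈ P, (m i : ℤ) * a i) - k : ℤ) : ℂ) * (t : ℂ)) := by
        intro t
        rw [← lo_box P N (fun i j => (loz q a t i) ^ j), Finset.mul_sum]
        refine Finset.sum_congr rfl fun m hm => ?_
        rw [lo_mono q P a t m (hBmem m hm), mul_left_comm, ← Complex.exp_add]
        congr 2
        push_cast
        ring
      rw [hI]
      simp only [h1]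
      rw [intervalIntegral.integral_finsetSum]
      · rw [Complex.ofReal_sum]
        refine Finset.sum_congr rfl fun m _ => ?_
        rw [intervalIntegral.integral_const_mul, lo_orth]
        by_cases h : ∑ i ∈ P, (m i : ℤ) * a i = k
        · rw [if_pos (by omega), if_pos h]
          push_cast
          ring
        · rw [if_neg (by omega), if_neg h, mul_zero, Complex.ofReal_zero]
      · intro m _
        refine Continuous.intervalIntegrable ?_ _ _
        fun_prop
    have h2 : ∑ m ∈ Y, (nm q m : ℝ)⁻¹ ≤ I.re := by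
      rw [hIval, Complex.ofReal_re]
      have h3 : ∑ m ∈ Y, (nm q m : ℝ)⁻¹ =
          ∑ m ∈ Y, (if ∑ i ∈ P, (m i : ℤ) * a i = k then (nm q m : ℝ)⁻¹ else 0) :=
        Finset.sum_congr rfl fun m hm => (if_pos (hk m hm)).symm
      rw [h3]
      refine Finset.sum_le_sum_of_subset_of_nonneg hYB fun m _ _ => ?_
      split_ifs
      · positivity
      · exact le_rfl
    refine h2.trans ((Complex.re_le_norm I).trans ?_)
    rw [hI]
    refine (intervalIntegral.norm_integral_le_integral_norm zero_le_one).trans ?_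
    rw [hJ, ← intervalIntegral.integral_const_mul]
    refine intervalIntegral.integral_mono_on zero_le_one ?_ ?_ fun t _ => ?_
    · refine Continuous.intervalIntegrable (Continuous.norm ?_) _ _
      have : ∀ i ∈ P, Continuous (fun t : ℝ => ∑ j ∈ Finset.range N, (loz q a t i) ^ j) :=
        fun i _ => continuous_finsetSum _ fun j _ => (loz_cont q a i).pow j
      exact Continuous.mul (by fun_prop) (continuous_finsetProd _ this)
    · exact (continuous_const.mul hcprod).intervalIntegrable _ _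
    · rw [norm_mul, lo_norm_exp, one_mul, norm_prod, norm_prod]
      have h4 : (1 + (1 / 2 : ℝ) ^ N) ^ P.card = ∏ _i ∈ P, (1 + (1 / 2 : ℝ) ^ N) := by
        rw [Finset.prod_const]
      rw [h4, ← Finset.prod_mul_distrib]
      refine Finset.prod_le_prod (fun i _ => norm_nonneg _) fun i _ => ?_
      have h5 : ∑ j ∈ Finset.range N, (loz q a t i) ^ j =
          (1 - (loz q a t i) ^ N) * (1 - loz q a t i)⁻¹ := by
        have h6 := mul_neg_geom_sum (loz q a t i) N
        rw [eq_mul_inv_iff_mul_eq₀ (hne t i), mul_comm]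
        exact h6
      rw [h5, norm_mul]
      refine mul_le_mul_of_nonneg_right ?_ (norm_nonneg _)
      refine (norm_sub_le _ _).trans ?_
      rw [norm_one, norm_pow, loz_norm]
      have h7 : (q i : ℝ)⁻¹ ≤ 1 / 2 := by
        rw [one_div]
        exact inv_anti₀ (by norm_num) (by exact_mod_cast hq i)
      gcongr
  have hlim : Filter.Tendsto (fun N : ℕ => (1 + (1 / 2 : ℝ) ^ N) ^ P.card * J) Filter.atTop
      (nhds J) := by
    have h1 : Filter.Tendsto (fun N : ℕ => (1 / 2 : ℝ) ^ N) Filter.atTop (nhds 0) :=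
      tendsto_pow_atTop_nhds_zero_of_lt_one (by norm_num) (by norm_num)
    have h2 := ((h1.const_add 1).pow P.card).mul_const J
    simpa using h2
  exact ge_of_tendsto hlim hbound

/-- the estimate of one factor -/
private theorem lo_factor {ι : Type} (q' : ι → ℕ) (hq' : ∀ i, 2 ≤ q' i) (a : ι → ℤ) (i : ι)
    (t : ℝ) :
    ‖(1 - loz q' a t i)⁻¹‖ ≤ (1 - (q' i : ℝ)⁻¹)⁻¹ *
      Real.exp (-(2 / 3 * ((q' i : ℝ)⁻¹ * Real.sin (π * (a i * t)) ^ 2))) := by
  have hp2 : (2 : ℝ) ≤ q' i := by exact_mod_cast hq' i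
  set q : ℝ := (q' i : ℝ)⁻¹ with hq
  have hq0 : 0 < q := by positivity
  have hq1 : q ≤ 1 / 2 := by
    rw [hq, inv_le_comm₀ (by linarith) (by norm_num)]
    linarith
  set θ : ℝ := π * (a i * t) with hθ
  have h1 : loz q' a t i = ((q * Real.cos (2 * θ) : ℝ) : ℂ) +
      ((q * Real.sin (2 * θ) : ℝ) : ℂ) * Complex.I := by
    rw [loz]
    have : 2 * (π : ℂ) * Complex.I * (a i : ℂ) * (t : ℂ) = ((2 * θ : ℝ) : ℂ) * Complex.I := by
      rw [hθ]
      push_cast
      ring
    rw [this, Complex.exp_mul_I, ← Complex.ofReal_cos, ← Complex.ofReal_sin, hq]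
    push_cast
    ring
  have hns : Complex.normSq (1 - loz q' a t i) = (1 - q) ^ 2 + 4 * q * Real.sin θ ^ 2 := by
    rw [h1, Complex.normSq_apply]
    simp only [Complex.sub_re, Complex.one_re, Complex.add_re, Complex.ofReal_re, Complex.mul_re,
      Complex.I_re, mul_zero, Complex.ofReal_im, Complex.I_im, mul_one, sub_self, add_zero,
      Complex.sub_im, Complex.one_im, Complex.add_im, Complex.mul_im, zero_sub, zero_add]
    rw [Real.cos_two_mul, Real.sin_two_mul]
    have hc : Real.cos θ ^ 2 = 1 - Real.sin θ ^ 2 := Real.cos_sq' θ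
    have h4 : (1 - q * (2 * Real.cos θ ^ 2 - 1)) * (1 - q * (2 * Real.cos θ ^ 2 - 1)) +
        -(q * (2 * Real.sin θ * Real.cos θ)) * -(q * (2 * Real.sin θ * Real.cos θ)) =
        (1 - q * (2 * Real.cos θ ^ 2 - 1)) ^ 2 +
          q ^ 2 * (4 * Real.sin θ ^ 2 * Real.cos θ ^ 2) := by ring
    rw [h4, hc]
    ring
  set s : ℝ := Real.sin θ ^ 2 with hs
  have hs0 : 0 ≤ s := sq_nonneg _
  have hs1 : s ≤ 1 := Real.sin_sq_le_one θ
  have hpos : 0 < (1 - q) ^ 2 + 4 * q * s := by
    have : 0 < (1 - q) ^ 2 := by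
      apply pow_pos
      linarith
    positivity
  have hnpos : 0 < ‖1 - loz q' a t i‖ := by
    rw [norm_pos_iff]
    intro h0
    rw [h0, map_zero] at hns
    linarith
  -- squared inequality
  have hkey : (1 - q) ^ 2 * Real.exp (2 * (2 / 3 * (q * s))) ≤ (1 - q) ^ 2 + 4 * q * s := by
    set y : ℝ := 2 * (2 / 3 * (q * s)) with hy
    have hqs : q * s ≤ 1 / 2 := by nlinarith
    have hqs0 : 0 ≤ q * s := by positivity
    have hy1 : y ≤ 2 / 3 := by
      rw [hy]
      linarith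
    have hy0 : 0 ≤ y := by
      rw [hy]
      positivity
    have he : Real.exp y ≤ 1 + 3 * y := by
      have h5 : 1 - y ≤ Real.exp (-y) := by
        have := Real.add_one_le_exp (-y)
        linarith
      have h6 : Real.exp y * Real.exp (-y) = 1 := by
        rw [← Real.exp_add]
        simp
      have h7 : Real.exp y * (1 - y) ≤ 1 := by
        calc Real.exp y * (1 - y) ≤ Real.exp y * Real.exp (-y) :=
              mul_le_mul_of_nonneg_left h5 (Real.exp_pos y).le
          _ = 1 := h6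
      have h8 : 1 ≤ (1 + 3 * y) * (1 - y) := by nlinarith
      have h9 : 0 < 1 - y := by linarith
      have h10 : Real.exp y * (1 - y) ≤ (1 + 3 * y) * (1 - y) := h7.trans h8
      exact le_of_mul_le_mul_right h10 h9
    have h11 : (1 - q) ^ 2 ≤ 1 := by nlinarith
    have h12 : 3 * y = 4 * (q * s) := by
      rw [hy]
      ring
    calc (1 - q) ^ 2 * Real.exp y ≤ (1 - q) ^ 2 * (1 + 3 * y) :=
          mul_le_mul_of_nonneg_left he (sq_nonneg _)
      _ = (1 - q) ^ 2 + (1 - q) ^ 2 * (4 * (q * s)) := by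
          rw [← h12]
          ring
      _ ≤ (1 - q) ^ 2 + 1 * (4 * (q * s)) := by
          gcongr
      _ = (1 - q) ^ 2 + 4 * q * s := by ring
  have hkey2 : ((1 - q) * Real.exp (2 / 3 * (q * s))) ^ 2 ≤ ‖1 - loz q' a t i‖ ^ 2 := by
    rw [← Complex.normSq_eq_norm_sq, hns, mul_pow, ← Real.exp_nat_mul]
    push_cast
    exact hkey
  have hkey3 : (1 - q) * Real.exp (2 / 3 * (q * s)) ≤ ‖1 - loz q' a t i‖ := by
    have h13 : 0 ≤ (1 - q) * Real.exp (2 / 3 * (q * s)) := by
      have : 0 < 1 - q := by linarith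
      positivity
    exact (pow_le_pow_iff_left₀ h13 hnpos.le two_ne_zero).mp hkey2
  rw [norm_inv, Real.exp_neg, ← mul_inv]
  refine inv_anti₀ ?_ hkey3
  have : 0 < 1 - q := by linarith
  positivity

/-- the Gaussian type integral -/
private theorem lo_gauss {E : ℝ} (hE : 0 < E) :
    ∫ t in (0:ℝ)..1, Real.exp (-(2 / 3 * (E * Real.sin (π * t) ^ 2))) ≤
      √(3 * π / 8) / √E := by
  set h : ℝ → ℝ := fun t => Real.exp (-(2 / 3 * (E * Real.sin (π * t) ^ 2))) with hh
  have hper : Function.Periodic h 1 := by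
    intro t
    simp only [hh]
    rw [mul_add, mul_one, Real.sin_add_pi]
    simp
  have h1 : ∫ t in (0:ℝ)..1, h t = ∫ t in (-(1/2):ℝ)..(-(1/2) + 1), h t := by
    have := hper.intervalIntegral_add_eq 0 (-(1/2))
    rwa [zero_add] at this
  change ∫ t in (0:ℝ)..1, h t ≤ _
  rw [h1]
  have hcont : Continuous h := by
    simp only [hh]
    fun_prop
  have hb : 0 < 8 / 3 * E := by positivity
  have h2 : ∫ t in (-(1/2):ℝ)..(-(1/2) + 1), h t ≤
      ∫ t in (-(1/2):ℝ)..(-(1/2) + 1), Real.exp (-(8 / 3 * E) * t ^ 2) := by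
    refine intervalIntegral.integral_mono_on (by norm_num) (hcont.intervalIntegrable _ _)
      (Continuous.intervalIntegrable (by fun_prop) _ _) fun t ht => ?_
    simp only [hh]
    apply Real.exp_le_exp.mpr
    have ht1 : |t| ≤ 1 / 2 := by
      rw [abs_le]
      constructor
      · linarith [ht.1]
      · linarith [ht.2]
    have h3 : 2 * |t| ≤ Real.sin (π * |t|) := by
      have := Real.mul_le_sin (x := π * |t|) (by positivity) (by
        have := Real.pi_pos
        nlinarith)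
      have h4 : 2 / π * (π * |t|) = 2 * |t| := by
        field_simp
      rwa [h4] at this
    have h5 : Real.sin (π * |t|) ^ 2 = Real.sin (π * t) ^ 2 := by
      rcases abs_choice t with h | h
      · rw [h]
      · rw [h, mul_neg, Real.sin_neg]
        ring
    have h6 : 4 * t ^ 2 ≤ Real.sin (π * t) ^ 2 := by
      rw [← h5, ← sq_abs t]
      nlinarith [abs_nonneg t]
    nlinarith
  refine h2.trans ?_
  have h7 : ∫ t in (-(1/2):ℝ)..(-(1/2) + 1), Real.exp (-(8 / 3 * E) * t ^ 2) ≤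
      ∫ t : ℝ, Real.exp (-(8 / 3 * E) * t ^ 2) := by
    rw [intervalIntegral.integral_of_le (by norm_num)]
    exact setIntegral_le_integral (integrable_exp_neg_mul_sq hb)
      (Filter.Eventually.of_forall fun t => (Real.exp_pos _).le)
  refine h7.trans (le_of_eq ?_)
  rw [integral_gaussian, ← Real.sqrt_div' _ hE.le]
  congr 1
  field_simp

/-- scaling by a nonzero integer -/
private theorem lo_scale (h : ℝ → ℝ) (hper : Function.Periodic h 1) (hc : Continuous h) (a : ℤ)
    (ha : a ≠ 0) :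
    ∫ t in (0:ℝ)..1, h (a * t) = ∫ t in (0:ℝ)..1, h t := by
  have ha' : (a : ℝ) ≠ 0 := by exact_mod_cast ha
  rw [intervalIntegral.integral_comp_mul_left (fun t => h t) ha']
  have h1 := hper.intervalIntegral_add_zsmul_eq a 0
  simp only [zero_add, mul_zero, mul_one, zsmul_eq_mul] at h1 ⊢
  rw [h1 fun _ _ => hc.intervalIntegrable _ _]
  simp only [smul_eq_mul]
  field_simp

/-- Piece [AG LO]. -/
theorem p_lo : S_lo := by
  classical
  refine ⟨√(3 * π / 8), by positivity, ?_⟩
  intro ι q hq P a k Y hY hk hE0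
  have hEeq : ∑ i ∈ P, {i : ι | a i ≠ 0}.indicator (fun i => (q i : ℝ)⁻¹) i =
      ∑ p ∈ P with a p ≠ 0, (q p : ℝ)⁻¹ := by
    rw [Finset.sum_filter]
    refine Finset.sum_congr rfl fun i _ => ?_
    simp only [Set.indicator_apply, Set.mem_ofPred_eq]
  rw [hEeq] at hE0 ⊢
  set E : ℝ := ∑ p ∈ P with a p ≠ 0, (q p : ℝ)⁻¹ with hEdef
  have hE : 0 < E := hE0
  refine (lo_int q hq P a k Y hY hk).trans ?_
  set h : ℝ → ℝ := fun t => Real.exp (-(2 / 3 * (E * Real.sin (π * t) ^ 2))) with hh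
  have hper : Function.Periodic h 1 := by
    intro t
    simp only [hh]
    rw [mul_add, mul_one, Real.sin_add_pi]
    simp
  have hhc : Continuous h := by
    simp only [hh]
    fun_prop
  have hZ : 0 ≤ ZP q P := by
    unfold ZP
    refine Finset.prod_nonneg fun p _ => ?_
    rw [inv_nonneg, sub_nonneg]
    exact inv_le_one_of_one_le₀ (by exact_mod_cast (by omega : 1 ≤ 2).trans (hq p))
  have hpt : ∀ t : ℝ, ‖∏ p ∈ P, (1 - loz q a t p)⁻¹‖ ≤
      ZP q P * ∑ p ∈ P with a p ≠ 0, ((q p : ℝ)⁻¹ / E) * h (a p * t) := by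
    intro t
    rw [norm_prod]
    have h1 : ∏ p ∈ P, ‖(1 - loz q a t p)⁻¹‖ ≤ ∏ p ∈ P, ((1 - (q p : ℝ)⁻¹)⁻¹ *
        Real.exp (-(2 / 3 * ((q p : ℝ)⁻¹ * Real.sin (π * (a p * t)) ^ 2)))) :=
      Finset.prod_le_prod (fun p _ => norm_nonneg _) fun p _ => lo_factor q hq a p t
    refine h1.trans ?_
    rw [Finset.prod_mul_distrib, ← Real.exp_sum]
    refine mul_le_mul_of_nonneg_left ?_ hZ
    have h2 : ∑ p ∈ P, -(2 / 3 * ((q p : ℝ)⁻¹ * Real.sin (π * (a p * t)) ^ 2)) =
        ∑ p ∈ P with a p ≠ 0, ((q p : ℝ)⁻¹ / E) •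
          (-(2 / 3 * (E * Real.sin (π * (a p * t)) ^ 2))) := by
      rw [Finset.sum_filter]
      refine Finset.sum_congr rfl fun p _ => ?_
      split_ifs with h3
      · simp only [smul_eq_mul]
        field_simp
      · have : a p = 0 := by
          by_contra h4
          exact h3 h4
        rw [this]
        simp
    rw [h2]
    have h4 := convexOn_exp.map_sum_le (t := P.filter fun p => a p ≠ 0)
      (w := fun p => (q p : ℝ)⁻¹ / E)
      (p := fun p => -(2 / 3 * (E * Real.sin (π * (a p * t)) ^ 2)))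
      (fun p _ => by positivity) (by
        rw [← Finset.sum_div]
        exact div_self hE.ne') (fun p _ => Set.mem_univ _)
    refine h4.trans (le_of_eq ?_)
    rfl
  have hI : ∫ t in (0:ℝ)..1, ‖∏ p ∈ P, (1 - loz q a t p)⁻¹‖ ≤
      ∫ t in (0:ℝ)..1, ZP q P * ∑ p ∈ P with a p ≠ 0, ((q p : ℝ)⁻¹ / E) * h (a p * t) := by
    refine intervalIntegral.integral_mono_on zero_le_one ?_ ?_ fun t _ => hpt t
    · refine Continuous.intervalIntegrable (Continuous.norm ?_) _ _
      refine continuous_finsetProd _ fun p _ => ?_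
      refine Continuous.inv₀ (continuous_const.sub (loz_cont q a p)) fun t h0 => ?_
      have h1 : ‖loz q a t p‖ = 1 := by
        have : loz q a t p = 1 := (sub_eq_zero.mp h0).symm
        rw [this, norm_one]
      rw [loz_norm] at h1
      have h2 : (1 : ℝ) < q p := by exact_mod_cast (hq p)
      have h3 : (q p : ℝ)⁻¹ < 1 := inv_lt_one_of_one_lt₀ h2
      linarith
    · refine Continuous.intervalIntegrable ?_ _ _
      fun_prop
  refine hI.trans ?_
  rw [intervalIntegral.integral_const_mul, intervalIntegral.integral_finsetSum]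
  · have h5 : ∀ p ∈ P.filter (fun p => a p ≠ 0),
        ∫ t in (0:ℝ)..1, ((q p : ℝ)⁻¹ / E) * h (a p * t) = ((q p : ℝ)⁻¹ / E) *
          ∫ t in (0:ℝ)..1, h t := by
      intro p hp
      rw [intervalIntegral.integral_const_mul, lo_scale h hper hhc (a p) (Finset.mem_filter.mp hp).2]
    rw [Finset.sum_congr rfl h5, ← Finset.sum_mul, ← Finset.sum_div, ← hEdef, div_self hE.ne',
      one_mul, mul_comm]
    exact mul_le_mul_of_nonneg_right (lo_gauss hE) hZ
  · intro p _
    refine Continuous.intervalIntegrable ?_ _ _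
    fun_prop

end Pool.Agent.Lib.MP_c82530_nt.AG
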