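import Pool.Agent.Lib.MP_c82530_nt.AG.Defs

set_option autoImplicit false

/-! [AG LOS] Littlewood-Offord for a rational subspace, over a free commutative monoid. -/

namespace Pool.Agent.Lib.MP_c82530_nt.AG

open Set Pool.Agent.Lib.MP_c82530_nt Pool.Agent.Lib.MP_c82530_nt.AA Module Filter Topology

private lemma los_exists_int_mult {ι : Type} (P : Finset ι) (h : ι → ℚ) :
    ∃ N : ℕ, N ≠ 0 ∧ ∃ a : ι → ℤ, ∀ p ∈ P, (a p : ℚ) = N * h p := by
  classical
  refine ⟨∏ p ∈ P, (h p).den, ?_, ?_⟩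
  · rw [Finset.prod_ne_zero_iff]
    intro p _
    exact (h p).den_ne_zero
  · refine ⟨fun p => (h p).num * ∏ q ∈ P.erase p, ((h q).den : ℤ), ?_⟩
    intro p hp
    rw [← Finset.mul_prod_erase P _ hp]
    push_cast
    have h1 : (h p) * ((h p).den : ℚ) = (h p).num := Rat.mul_den_eq_num (h p)
    rw [← h1]
    ring

private lemma los_Fv {ι : Type} (f : ι → ℂ) {P : Finset ι} {m : ι →₀ ℕ} (hm : m.support ⊆ P) :
    Fv f m = ∑ i ∈ P, ((m i : ℚ) • f i) := by
  unfold Fv
  rw [Finsupp.sum_of_support_subset _ hm _ (by simp)]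
  apply Finset.sum_congr rfl
  intro p _
  rw [Rat.smul_def]
  push_cast
  rfl

private lemma los_ZP_nonneg {ι : Type} {q : ι → ℕ} (hq : ∀ i, 2 ≤ q i) (P : Finset ι) :
    0 ≤ ZP q P := by
  unfold ZP
  refine Finset.prod_nonneg fun i _ => ?_
  have h1 : (2 : ℝ) ≤ q i := by exact_mod_cast hq i
  have h2 : ((q i : ℝ))⁻¹ ≤ 1 := inv_le_one_of_one_le₀ (by linarith)
  exact inv_nonneg.2 (by linarith)

theorem p_los (h : S_lo) : S_los := by
  classical
  obtain ⟨C, hC, h⟩ := h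
  refine ⟨C, hC, ?_⟩
  intro ι q fv hq P K g hE Y hY hYA
  by_cases hY0 : Y = ∅
  · rw [hY0, Finset.sum_empty]
    exact mul_nonneg (div_nonneg hC.le (Real.sqrt_nonneg _)) (los_ZP_nonneg hq P)
  obtain ⟨b0, hb0⟩ := Finset.nonempty_iff_ne_empty.mpr hY0
  obtain ⟨f, hf⟩ := Module.exists_dual_forall_apply_ne_zero (K := ℚ)
    (fun p : {p // p ∈ P.filter (fun i => fv i ∉ K)} =>
      (Submodule.Quotient.mk (fv (p : ι)) : ℂ ⧸ K)) (by
      intro p
      rw [ne_eq, Submodule.Quotient.mk_eq_zero]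
      exact (Finset.mem_filter.1 p.2).2)
  obtain ⟨N, hN, a, ha⟩ := los_exists_int_mult P (fun p => f (Submodule.Quotient.mk (fv p)))
  have hane : ∀ p ∈ P, (a p ≠ 0 ↔ fv p ∉ K) := by
    intro p hp
    constructor
    · intro h1 h2
      apply h1
      have h3 := ha p hp
      rw [(Submodule.Quotient.mk_eq_zero K).mpr h2, map_zero, mul_zero] at h3
      exact_mod_cast h3
    · intro h1 h2
      have h3 := ha p hp
      rw [h2] at h3
      have h4 := hf ⟨p, Finset.mem_filter.2 ⟨hp, h1⟩⟩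
      have : (N : ℚ) ≠ 0 := by exact_mod_cast hN
      rw [Int.cast_zero] at h3
      rcases mul_eq_zero.mp h3.symm with h5 | h5
      · exact this h5
      · exact h4 h5
  have hEK : ∑ i ∈ P, {i : ι | a i ≠ 0}.indicator (fun i => (q i : ℝ)⁻¹) i = EK q fv K P := by
    unfold EK
    refine Finset.sum_congr rfl fun i hi => ?_
    by_cases h1 : a i ≠ 0
    · rw [Set.indicator_of_mem (show i ∈ {i : ι | a i ≠ 0} from h1),
        Set.indicator_of_mem (show i ∈ {i : ι | fv i ∉ K} from (hane i hi).1 h1)]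
    · rw [Set.indicator_of_notMem (show i ∉ {i : ι | a i ≠ 0} from h1),
        Set.indicator_of_notMem (show i ∉ {i : ι | fv i ∉ K} from fun h2 => h1 ((hane i hi).2 h2))]
  have hval : ∀ m : ι →₀ ℕ, m.support ⊆ P → ((∑ p ∈ P, (m p : ℤ) * a p : ℤ) : ℚ) =
      N * f (Submodule.Quotient.mk (Fv fv m)) := by
    intro m hm
    rw [los_Fv fv hm]
    have h1 : (Submodule.Quotient.mk (∑ p ∈ P, ((m p : ℚ) • fv p)) :
        ℂ ⧸ K) = ∑ p ∈ P, (m p : ℚ) • (Submodule.Quotient.mk (fv p)) := by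
      rw [← Submodule.mkQ_apply, map_sum]
      apply Finset.sum_congr rfl
      intro p _
      rw [map_smul, Submodule.mkQ_apply]
    rw [h1, map_sum, Finset.mul_sum, Int.cast_sum]
    apply Finset.sum_congr rfl
    intro p hp
    rw [map_smul, Int.cast_mul, ha p hp, smul_eq_mul, Int.cast_natCast]
    ring
  have := h ι q hq P a (∑ p ∈ P, (b0 p : ℤ) * a p) Y hY ?_ ?_
  · rw [hEK] at this
    exact this
  · intro b hb
    have h1 := hval b (hY b hb)
    have h2 := hval b0 (hY b0 hb0)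
    have h3 : (Submodule.Quotient.mk (Fv fv b) : ℂ ⧸ K) = Submodule.Quotient.mk (Fv fv b0) := by
      rw [Submodule.Quotient.eq]
      have h4 : g + Fv fv b ∈ K := hYA b hb
      have h5 : g + Fv fv b0 ∈ K := hYA b0 hb0
      have h6 := K.sub_mem h4 h5
      have h7 : g + Fv fv b - (g + Fv fv b0) = Fv fv b - Fv fv b0 := by ring
      rwa [h7] at h6
    rw [h3, ← h2] at h1
    exact_mod_cast h1
  · rw [hEK]
    exact hE

end Pool.Agent.Lib.MP_c82530_nt.AG
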