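import Mathlib
import Pool.Agent.Lib.MP_c82530_nt.AG.Defs

set_option autoImplicit false

/-!
# AG, piece MTA: from the integers prime to `P` to sets which are small on all cosets
-/

namespace Pool.Agent.Lib.MP_c82530_nt.AG

open Set Pool.Agent.Lib.MP_c82530_nt Pool.Agent.Lib.MP_c82530_nt.AA Module Filter Topology

private theorem mta_nm_add {ι : Type} (q : ι → ℕ) (s t : ι →₀ ℕ) :
    nm q (s + t) = nm q s * nm q t := by
  classical
  unfold nm
  exact Finsupp.prod_add_index' (fun i => pow_zero _) (fun i a b => pow_add _ a b)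

private theorem mta_nm_pos {ι : Type} {q : ι → ℕ} (hq : ∀ i, 2 ≤ q i) (m : ι →₀ ℕ) :
    0 < nm q m := by
  unfold nm
  exact Finset.prod_pos fun i _ => pow_pos (by have := hq i; omega) _

private theorem mta_ZP_pos {ι : Type} {q : ι → ℕ} (hq : ∀ i, 2 ≤ q i) (P : Finset ι) :
    0 < ZP q P := by
  unfold ZP
  refine Finset.prod_pos fun i _ => inv_pos.2 ?_
  have h1 : (2 : ℝ) ≤ q i := by exact_mod_cast hq i
  have h2 : (q i : ℝ)⁻¹ < 1 := inv_lt_one_of_one_lt₀ (by linarith)
  linarith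

theorem p_mta : S_mta := by
  classical
  intro ι q L hq hL P A ε hε h x
  have hnm := fun m : ι →₀ ℕ => mta_nm_pos hq m
  let s : (ι →₀ ℕ) → (ι →₀ ℕ) := fun m => m.filter (· ∈ P)
  let t : (ι →₀ ℕ) → (ι →₀ ℕ) := fun m => m.filter (fun i => ¬ i ∈ P)
  have hst : ∀ m, m = s m + t m := fun m => (Finsupp.filter_add_filter_not m (· ∈ P)).symm
  have hs : ∀ m, (s m).support ⊆ P := by
    intro m i hi
    have h1 : i ∈ (m.filter (· ∈ P)).support := hi
    rw [Finsupp.support_filter, Finset.mem_filter] at h1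
    exact h1.2
  have ht : ∀ m, Disjoint (t m).support P := by
    intro m
    rw [Finset.disjoint_left]
    intro i hi
    have h1 : i ∈ (m.filter (fun i => ¬ i ∈ P)).support := hi
    rw [Finsupp.support_filter, Finset.mem_filter] at h1
    exact h1.2
  have htL : ∀ m ∈ L x, t m ∈ L x := by
    intro m hm
    rw [hL] at hm ⊢
    have h1 : nm q m = nm q (s m) * nm q (t m) := by
      conv_lhs => rw [hst m]
      exact mta_nm_add q _ _
    have h2 := hnm (s m)
    calc nm q (t m) ≤ nm q (s m) * nm q (t m) := Nat.le_mul_of_pos_left _ h2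
      _ = nm q m := h1.symm
      _ ≤ x := hm
  set Y : Finset (ι →₀ ℕ) := (L x).filter (fun m => m ∈ A) with hY
  have h1 : Wt q A (L x) = ∑ m ∈ Y, (nm q m : ℝ)⁻¹ := by
    unfold Wt
    rw [hY, Finset.sum_filter]
    rfl
  have hsum : ∑ b ∈ Y, (nm q b : ℝ)⁻¹ = ∑ u ∈ Y.image t, ∑ b ∈ Y with t b = u, (nm q b : ℝ)⁻¹ :=
    (Finset.sum_fiberwise_of_maps_to (fun b hb => Finset.mem_image_of_mem t hb) _).symm
  have hstep : ∀ u ∈ Y.image t, ∑ b ∈ Y with t b = u, (nm q b : ℝ)⁻¹ ≤
      (nm q u : ℝ)⁻¹ * (ε * ZP q P) := by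
    intro u _
    have hinj : Set.InjOn s (Y.filter fun b => t b = u : Finset (ι →₀ ℕ)) := by
      intro a ha b hb hab
      simp only [Finset.coe_filter, Set.mem_ofPred_eq] at ha hb
      rw [hst a, hst b, hab, ha.2, hb.2]
    have h3 : ∑ b ∈ Y with t b = u, (nm q b : ℝ)⁻¹ =
        (nm q u : ℝ)⁻¹ * ∑ a ∈ (Y.filter fun b => t b = u).image s, (nm q a : ℝ)⁻¹ := by
      rw [Finset.sum_image hinj, Finset.mul_sum]
      apply Finset.sum_congr rfl
      intro b hb
      rw [Finset.mem_filter] at hb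
      have h4 : nm q b = nm q (s b) * nm q u := by
        conv_lhs => rw [hst b, hb.2]
        exact mta_nm_add q _ _
      rw [h4]
      push_cast
      rw [mul_inv, mul_comm]
    rw [h3]
    apply mul_le_mul_of_nonneg_left _ (by positivity)
    apply h u
    · intro a ha
      obtain ⟨b, _, rfl⟩ := Finset.mem_image.mp ha
      exact hs b
    · intro a ha
      obtain ⟨b, hb, rfl⟩ := Finset.mem_image.mp ha
      rw [Finset.mem_filter] at hb
      change s b + u ∈ A
      rw [← hb.2, ← hst b]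
      rw [hY, Finset.mem_filter] at hb
      exact hb.1.2
  have hlast : ∑ u ∈ Y.image t, (nm q u : ℝ)⁻¹ ≤ Wt q {m | Disjoint m.support P} (L x) := by
    have h5 : ∑ u ∈ Y.image t, (nm q u : ℝ)⁻¹ =
        ∑ u ∈ Y.image t, ({m : ι →₀ ℕ | Disjoint m.support P}.indicator
          (fun m => (nm q m : ℝ)⁻¹) u) := by
      apply Finset.sum_congr rfl
      intro u hu
      obtain ⟨b, _, rfl⟩ := Finset.mem_image.mp hu
      rw [Set.indicator_of_mem]
      exact ht b
    rw [h5]
    unfold Wt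
    refine Finset.sum_le_sum_of_subset_of_nonneg ?_ ?_
    · intro u hu
      obtain ⟨b, hb, rfl⟩ := Finset.mem_image.mp hu
      exact htL b (Finset.mem_filter.mp hb).1
    · intro u _ _
      exact Set.indicator_nonneg (fun m _ => by positivity) u
  rw [h1, hsum]
  calc _ ≤ ∑ u ∈ Y.image t, (nm q u : ℝ)⁻¹ * (ε * ZP q P) := Finset.sum_le_sum hstep
    _ = (∑ u ∈ Y.image t, (nm q u : ℝ)⁻¹) * (ε * ZP q P) := by rw [Finset.sum_mul]
    _ ≤ Wt q {m | Disjoint m.support P} (L x) * (ε * ZP q P) :=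
        mul_le_mul_of_nonneg_right hlast (mul_nonneg hε (mta_ZP_pos hq P).le)
    _ = ε * ZP q P * Wt q {m | Disjoint m.support P} (L x) := by ring

end Pool.Agent.Lib.MP_c82530_nt.AG
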