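import Pool.Agent.Lib.MP_c82530_nt.AG.Defs

set_option autoImplicit false

/-!
# Piece POS: a positive proportion of the integers has its value in `K`
-/

namespace Pool.Agent.Lib.MP_c82530_nt.AG

open Set Pool.Agent.Lib.MP_c82530_nt Pool.Agent.Lib.MP_c82530_nt.AA Module Filter Topology

private lemma p_pos_nm_add {ι : Type} (q : ι → ℕ) (s t : ι →₀ ℕ) :
    nm q (s + t) = nm q s * nm q t := by
  unfold nm
  exact Finsupp.prod_add_index' (fun i => pow_zero _) (fun i a b => pow_add _ _ _)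

private lemma p_pos_nm_pos {ι : Type} {q : ι → ℕ} (hq : ∀ i, 2 ≤ q i) (m : ι →₀ ℕ) :
    0 < nm q m := by
  unfold nm Finsupp.prod
  exact Finset.prod_pos fun i _ => pow_pos (by have := hq i; omega) _

private lemma p_pos_ZP {ι : Type} {q : ι → ℕ} (hq : ∀ i, 2 ≤ q i) (P : Finset ι) :
    0 < ZP q P := by
  unfold ZP
  refine Finset.prod_pos fun i _ => inv_pos.mpr ?_
  have h2 : (2 : ℝ) ≤ q i := by exact_mod_cast hq i
  have h3 : (q i : ℝ)⁻¹ ≤ (2 : ℝ)⁻¹ := inv_anti₀ (by norm_num) h2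
  have h4 : (2 : ℝ)⁻¹ < 1 := by norm_num
  linarith

private lemma p_pos_Wt {ι : Type} (q : ι → ℕ) (A : Set (ι →₀ ℕ)) (T : Finset (ι →₀ ℕ))
    [DecidablePred (· ∈ A)] :
    Wt q A T = ∑ m ∈ T.filter (· ∈ A), (nm q m : ℝ)⁻¹ := by
  unfold Wt
  rw [Finset.sum_filter]
  apply Finset.sum_congr rfl
  intro b _
  rw [Set.indicator_apply]

theorem p_pos (hzs : S_zs) (hexk : S_exk) (hfra : S_fra) : S_pos := by
  classical
  intro ι q f L hq hL hlow K hK
  obtain ⟨Q, hQ⟩ := hexk ι q f hq K hK (1 / 2) (by norm_num)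
  obtain ⟨c, hc, hev⟩ := hlow
  have hZQ := p_pos_ZP hq Q
  refine ⟨c / (2 * ZP q Q), by positivity, ?_⟩
  filter_upwards [hev] with x hx
  set A : Set ι := {i : ι | i ∈ Q ∨ f i ∈ K} with hA
  have h1 := hfra ι q L hq hL A (1 / 2) (fun P hP => hQ P fun i hi =>
    ⟨fun h => hP i hi (Or.inl h), fun h => hP i hi (Or.inr h)⟩) x
  set s : (ι →₀ ℕ) → (ι →₀ ℕ) := fun m => m.filter (· ∈ Q) with hs
  set t : (ι →₀ ℕ) → (ι →₀ ℕ) := fun m => m.filter (fun i => ¬ i ∈ Q) with ht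
  have hst : ∀ m, m = s m + t m := fun m => (Finsupp.filter_pos_add_filter_neg m _).symm
  set Y : Finset (ι →₀ ℕ) := (L x).filter (· ∈ {m : ι →₀ ℕ | ∀ i ∈ m.support, i ∈ A}) with hY
  set G : Finset (ι →₀ ℕ) := (L x).filter (· ∈ {m : ι →₀ ℕ | Fv f m ∈ K}) with hG
  have hYm : ∀ m ∈ Y, nm q m ≤ x ∧ ∀ i ∈ m.support, i ∈ A := by
    intro m hm
    rw [hY, Finset.mem_filter, hL] at hm
    exact hm
  have hts : ∀ m ∈ Y, t m ∈ G := by
    intro m hm
    rw [hG, Finset.mem_filter, hL]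
    constructor
    · have e : nm q m = nm q (s m) * nm q (t m) := by
        conv_lhs => rw [hst m]
        exact p_pos_nm_add q _ _
      have e2 := p_pos_nm_pos hq (s m)
      calc nm q (t m) ≤ nm q (s m) * nm q (t m) := Nat.le_mul_of_pos_left _ e2
        _ = nm q m := e.symm
        _ ≤ x := (hYm m hm).1
    · change Fv f (t m) ∈ K
      unfold Fv Finsupp.sum
      refine Submodule.sum_mem _ fun i hi => ?_
      rw [ht, Finsupp.support_filter, Finset.mem_filter] at hi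
      have hfi : f i ∈ K := by
        rcases (hYm m hm).2 i hi.1 with h | h
        · exact absurd h hi.2
        · exact h
      have h6 : ((t m i : ℕ) : ℂ) * f i = (t m i) • f i := by rw [nsmul_eq_mul]
      change ((t m i : ℕ) : ℂ) * f i ∈ K
      rw [h6]
      exact nsmul_mem hfi _
  have h2 : ∑ m ∈ Y, (nm q m : ℝ)⁻¹ ≤ ZP q Q * ∑ m ∈ G, (nm q m : ℝ)⁻¹ := by
    have hinj : Set.InjOn (fun m => (s m, t m)) (Y : Set (ι →₀ ℕ)) := by
      intro m _ m' _ hmm
      simp only [Prod.mk.injEq] at hmm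
      rw [hst m, hst m', hmm.1, hmm.2]
    have h3 : ∑ m ∈ Y, (nm q m : ℝ)⁻¹ = ∑ r ∈ Y.image (fun m => (s m, t m)),
        (nm q r.1 : ℝ)⁻¹ * (nm q r.2 : ℝ)⁻¹ := by
      rw [Finset.sum_image hinj]
      apply Finset.sum_congr rfl
      intro m _
      conv_lhs => rw [hst m, p_pos_nm_add]
      push_cast
      rw [mul_inv]
    rw [h3]
    calc ∑ r ∈ Y.image (fun m => (s m, t m)), (nm q r.1 : ℝ)⁻¹ * (nm q r.2 : ℝ)⁻¹
        ≤ ∑ r ∈ (Y.image s) ×ˢ G, (nm q r.1 : ℝ)⁻¹ * (nm q r.2 : ℝ)⁻¹ := by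
          apply Finset.sum_le_sum_of_subset_of_nonneg
          · intro r hr
            obtain ⟨m, hm, rfl⟩ := Finset.mem_image.mp hr
            exact Finset.mem_product.mpr ⟨Finset.mem_image_of_mem s hm, hts m hm⟩
          · intro r _ _
            positivity
      _ = (∑ a ∈ Y.image s, (nm q a : ℝ)⁻¹) * ∑ b ∈ G, (nm q b : ℝ)⁻¹ := by
          rw [Finset.sum_product, Finset.sum_mul_sum]
      _ ≤ ZP q Q * ∑ b ∈ G, (nm q b : ℝ)⁻¹ := by
          apply mul_le_mul_of_nonneg_right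
          · apply hzs ι q hq Q
            intro a ha
            obtain ⟨m, hm, rfl⟩ := Finset.mem_image.mp ha
            intro i hi
            rw [hs, Finsupp.support_filter, Finset.mem_filter] at hi
            exact hi.2
          · exact Finset.sum_nonneg fun b _ => by positivity
  rw [p_pos_Wt q {m : ι →₀ ℕ | ∀ i ∈ m.support, i ∈ A}] at h1
  rw [p_pos_Wt q {m : ι →₀ ℕ | Fv f m ∈ K}]
  have h6 : (1 / 2) * (c * Real.log x) ≤ ZP q Q * ∑ b ∈ G, (nm q b : ℝ)⁻¹ := by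
    refine le_trans ?_ (h1.trans h2)
    have : (1 : ℝ) - 1 / 2 = 1 / 2 := by norm_num
    rw [this]
    linarith
  have h7 : c / (2 * ZP q Q) * Real.log x = ((1 / 2) * (c * Real.log x)) / ZP q Q := by
    field_simp
  change c / (2 * ZP q Q) * Real.log x ≤ ∑ b ∈ G, (nm q b : ℝ)⁻¹
  rw [h7, div_le_iff₀ hZQ]
  linarith

end Pool.Agent.Lib.MP_c82530_nt.AG
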