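import Pool.Agent.Lib.MP_c82530_nt.AG.Defs

set_option autoImplicit false

namespace Pool.Agent.Lib.MP_c82530_nt.AG

open Set

private lemma agtwo_cs {T : Type} (X Z : Finset T) (w v : T → ℝ) (hv : ∀ z ∈ Z, 0 ≤ v z)
    (f : T → T → Prop) [∀ s t, Decidable (f s t)] :
    (∑ x ∈ X, ∑ z ∈ Z, if f x z then w x * v z else 0) ^ 2 ≤
      (∑ z ∈ Z, v z) * ∑ z ∈ Z, ∑ x ∈ X, ∑ x' ∈ X,
        if f x z ∧ f x' z then w x * w x' * v z else 0 := by
  have h1 : ∑ x ∈ X, ∑ z ∈ Z, (if f x z then w x * v z else 0) =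
      ∑ z ∈ Z, Real.sqrt (v z) * (Real.sqrt (v z) * ∑ x ∈ X, if f x z then w x else 0) := by
    rw [Finset.sum_comm]
    refine Finset.sum_congr rfl fun z hz => ?_
    rw [← mul_assoc, Real.mul_self_sqrt (hv z hz), Finset.mul_sum]
    refine Finset.sum_congr rfl fun x _ => ?_
    split_ifs
    · ring
    · ring
  have h2 : ∑ z ∈ Z, v z = ∑ z ∈ Z, Real.sqrt (v z) ^ 2 :=
    Finset.sum_congr rfl fun z hz => (Real.sq_sqrt (hv z hz)).symm
  have h3 : ∑ z ∈ Z, ∑ x ∈ X, ∑ x' ∈ X, (if f x z ∧ f x' z then w x * w x' * v z else 0) =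
      ∑ z ∈ Z, (Real.sqrt (v z) * ∑ x ∈ X, if f x z then w x else 0) ^ 2 := by
    refine Finset.sum_congr rfl fun z hz => ?_
    rw [mul_pow, Real.sq_sqrt (hv z hz), sq (∑ x ∈ X, if f x z then w x else 0),
      Finset.sum_mul_sum, Finset.mul_sum]
    refine Finset.sum_congr rfl fun x _ => ?_
    rw [Finset.mul_sum]
    refine Finset.sum_congr rfl fun x' _ => ?_
    by_cases ha : f x z <;> by_cases hb : f x' z
    · rw [if_pos ⟨ha, hb⟩, if_pos ha, if_pos hb]; ring
    · rw [if_neg (fun h => hb h.2), if_neg hb]; ring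
    · rw [if_neg (fun h => ha h.1), if_neg ha]; ring
    · rw [if_neg (fun h => ha h.1), if_neg ha]; ring
  rw [h1, h2, h3]
  exact Finset.sum_mul_sq_le_sq_mul_sq Z _ _

private lemma agtwo_pos {ι : Type} {q : ι → ℕ} (hq : ∀ i, 2 ≤ q i) (P : Finset ι) :
    0 < ZP q P := by
  unfold ZP
  refine Finset.prod_pos fun i _ => ?_
  have h2 : (2 : ℝ) ≤ q i := by exact_mod_cast hq i
  have h3 : (q i : ℝ)⁻¹ ≤ 2⁻¹ := inv_anti₀ (by norm_num) h2
  have : 0 < 1 - (q i : ℝ)⁻¹ := by linarith [h3, (by norm_num : (2 : ℝ)⁻¹ < 1)]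
  positivity

private lemma agtwo_add {ι : Type} (q : ι → ℕ) (s t : ι →₀ ℕ) :
    nm q (s + t) = nm q s * nm q t := by
  classical
  unfold nm
  exact Finsupp.prod_add_index' (fun i => pow_zero _) fun i a b => pow_add _ a b

/-- the abstract form of the argument: any weights -/
private lemma agtwo_abs {T : Type} [Add T] (w : T → ℝ) (hw : ∀ a, 0 ≤ w a)
    (hwm : ∀ a b, w (a + b) = w a * w b) (I1 I2 : T → Prop) (Z1 Z2 : ℝ) (hZ1 : 0 < Z1)
    (hZ2 : 0 < Z2) (F : Finset T)
    (hzs1 : ∀ Y : Finset T, (∀ m ∈ Y, I1 m) → ∑ m ∈ Y, w m ≤ Z1)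
    (hzs2 : ∀ Y : Finset T, (∀ m ∈ Y, I2 m) → ∑ m ∈ Y, w m ≤ Z2)
    (A : Set T) (ε1 δ : ℝ) (hε1 : 0 ≤ ε1) (hδ : 0 ≤ δ) (hεδ : 5 * ε1 ≤ δ ^ 2)
    (S1 S2 : Set T → Prop)
    (hS1 : ∀ D, S1 D → ∀ Y : Finset T, (∀ m ∈ Y, I1 m) → (∀ m ∈ Y, m ∈ D) →
      ∑ m ∈ Y, w m ≤ ε1 * Z1)
    (hS2 : ∀ D, S2 D → ∀ Y : Finset T, (∀ m ∈ Y, I2 m) → (∀ m ∈ Y, m ∈ D) →
      ∑ m ∈ Y, w m ≤ ε1 * Z2)
    (hS2e : S2 ∅)
    (hF : S1 {s | s ∉ F})
    (B0 : T → Set T) (BA BB : T → T → Set T)
    (hB0 : ∀ t, S1 (B0 t)) (hBA : ∀ s t, S1 (BA s t))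
    (hBB : ∀ s ∈ F, ∀ s' ∈ F, S2 (BB s s'))
    (hcov : ∀ s s' t : T, I1 s → I1 s' → I2 t →
      s + t ∈ A → s' + t ∈ A → s ∈ B0 t ∨ s' ∈ BA s t ∨ t ∈ BB s s')
    (Y : Finset T) (hYA : ∀ m ∈ Y, m ∈ A) (s t : T → T) (hs : ∀ b ∈ Y, I1 (s b))
    (ht : ∀ b ∈ Y, I2 (t b)) (hst : ∀ b ∈ Y, b = s b + t b) :
    ∑ m ∈ Y, w m ≤ δ * (Z1 * Z2) := by
  classical
  set X : Finset T := Y.image s with hX
  set Z : Finset T := Y.image t with hZ
  have hXf : ∀ a ∈ X, I1 a := by
    intro a ha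
    obtain ⟨b, hb, rfl⟩ := Finset.mem_image.mp ha
    exact hs b hb
  have hZf : ∀ a ∈ Z, I2 a := by
    intro a ha
    obtain ⟨b, hb, rfl⟩ := Finset.mem_image.mp ha
    exact ht b hb
  have site1 : ∀ D, S1 D → ∑ b ∈ X, (if b ∈ D then w b else 0) ≤ ε1 * Z1 := by
    intro D hD
    rw [← Finset.sum_filter]
    exact hS1 D hD _ (fun b hb => hXf b (Finset.mem_filter.mp hb).1)
      fun b hb => (Finset.mem_filter.mp hb).2
  have site2 : ∀ D, S2 D → ∑ b ∈ Z, (if b ∈ D then w b else 0) ≤ ε1 * Z2 := by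
    intro D hD
    rw [← Finset.sum_filter]
    exact hS2 D hD _ (fun b hb => hZf b (Finset.mem_filter.mp hb).1)
      fun b hb => (Finset.mem_filter.mp hb).2
  -- step 1
  have step1 : ∑ b ∈ Y, w b ≤
      ∑ x ∈ X, ∑ z ∈ Z, if x + z ∈ A then w x * w z else 0 := by
    rw [← Finset.sum_product' (s := X) (t := Z)
      (f := fun x z => if x + z ∈ A then w x * w z else 0)]
    have hinj : Set.InjOn (fun b => (s b, t b)) (Y : Set T) := by
      intro x hx y hy hxy
      simp only [Prod.mk.injEq] at hxy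
      rw [hst x hx, hst y hy, hxy.1, hxy.2]
    have h3 : ∑ b ∈ Y, w b = ∑ q ∈ Y.image (fun b => (s b, t b)),
        (if q.1 + q.2 ∈ A then w q.1 * w q.2 else 0) := by
      rw [Finset.sum_image hinj]
      apply Finset.sum_congr rfl
      intro b hb
      have h4 := hst b hb
      simp only
      rw [← h4, if_pos (hYA b hb)]
      conv_lhs => rw [h4]
      rw [hwm]
    rw [h3]
    apply Finset.sum_le_sum_of_subset_of_nonneg
    · intro q hq
      obtain ⟨b, hb, rfl⟩ := Finset.mem_image.mp hq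
      exact Finset.mem_product.mpr ⟨Finset.mem_image_of_mem s hb, Finset.mem_image_of_mem t hb⟩
    · intro q _ _
      split_ifs
      · exact mul_nonneg (hw _) (hw _)
      · exact le_rfl
  -- step 2
  have step2 := agtwo_cs X Z w w (fun a _ => hw a) (fun x z => x + z ∈ A)
  have hsX : ∑ a ∈ X, w a ≤ Z1 := hzs1 X hXf
  have hsZ : ∑ a ∈ Z, w a ≤ Z2 := hzs2 Z hZf
  have hsX0 : 0 ≤ ∑ a ∈ X, w a := Finset.sum_nonneg fun a _ => hw a
  have hsZ0 : 0 ≤ ∑ a ∈ Z, w a := Finset.sum_nonneg fun a _ => hw a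
  -- the three kinds of sums
  have e1 : ∀ D : T → Set T, (∀ z, S1 (D z)) →
      ∑ z ∈ Z, ∑ x ∈ X, ∑ x' ∈ X,
        ((if x ∈ D z then w x else 0) * w x' * w z) ≤
      ε1 * (Z1 ^ 2 * Z2) := by
    intro D hD
    calc _ = ∑ z ∈ Z, w z * ((∑ x ∈ X, if x ∈ D z then w x else 0) *
          ∑ x' ∈ X, w x') := by
          refine Finset.sum_congr rfl fun z _ => ?_
          rw [Finset.sum_mul_sum, Finset.mul_sum]
          refine Finset.sum_congr rfl fun x _ => ?_
          rw [Finset.mul_sum]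
          refine Finset.sum_congr rfl fun x' _ => ?_
          ring
      _ ≤ ∑ z ∈ Z, w z * ((ε1 * Z1) * Z1) := by
          refine Finset.sum_le_sum fun z _ => ?_
          apply mul_le_mul_of_nonneg_left _ (hw _)
          exact mul_le_mul (site1 _ (hD z)) hsX hsX0 (by positivity)
      _ = (∑ z ∈ Z, w z) * ((ε1 * Z1) * Z1) := by rw [Finset.sum_mul]
      _ ≤ Z2 * ((ε1 * Z1) * Z1) := mul_le_mul_of_nonneg_right hsZ (by positivity)
      _ = _ := by ring
  have e2 : ∀ D : T → T → Set T, (∀ x z, S1 (D x z)) →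
      ∑ z ∈ Z, ∑ x ∈ X, ∑ x' ∈ X,
        (w x * (if x' ∈ D x z then w x' else 0) * w z) ≤
      ε1 * (Z1 ^ 2 * Z2) := by
    intro D hD
    calc _ = ∑ z ∈ Z, ∑ x ∈ X, (w z * w x *
          ∑ x' ∈ X, if x' ∈ D x z then w x' else 0) := by
          refine Finset.sum_congr rfl fun z _ => ?_
          refine Finset.sum_congr rfl fun x _ => ?_
          rw [Finset.mul_sum]
          refine Finset.sum_congr rfl fun x' _ => ?_
          ring
      _ ≤ ∑ z ∈ Z, ∑ x ∈ X, (w z * w x * (ε1 * Z1)) := by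
          refine Finset.sum_le_sum fun z _ => ?_
          refine Finset.sum_le_sum fun x _ => ?_
          exact mul_le_mul_of_nonneg_left (site1 _ (hD x z)) (mul_nonneg (hw _) (hw _))
      _ = ((∑ z ∈ Z, w z) * ∑ x ∈ X, w x) * (ε1 * Z1) := by
          rw [Finset.sum_mul_sum, Finset.sum_mul]
          refine Finset.sum_congr rfl fun z _ => ?_
          rw [Finset.sum_mul]
      _ ≤ (Z2 * Z1) * (ε1 * Z1) := by
          apply mul_le_mul_of_nonneg_right _ (by positivity)
          exact mul_le_mul hsZ hsX hsX0 hZ2.le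
      _ = _ := by ring
  have e3 : ∀ D : T → T → Set T, (∀ x x', S2 (D x x')) →
      ∑ z ∈ Z, ∑ x ∈ X, ∑ x' ∈ X,
        (w x * w x' * (if z ∈ D x x' then w z else 0)) ≤
      ε1 * (Z1 ^ 2 * Z2) := by
    intro D hD
    calc _ = ∑ x ∈ X, ∑ x' ∈ X, (w x * w x' *
          ∑ z ∈ Z, if z ∈ D x x' then w z else 0) := by
          rw [Finset.sum_comm]
          refine Finset.sum_congr rfl fun x _ => ?_
          rw [Finset.sum_comm]
          refine Finset.sum_congr rfl fun x' _ => ?_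
          rw [Finset.mul_sum]
      _ ≤ ∑ x ∈ X, ∑ x' ∈ X, (w x * w x' * (ε1 * Z2)) := by
          refine Finset.sum_le_sum fun x _ => ?_
          refine Finset.sum_le_sum fun x' _ => ?_
          exact mul_le_mul_of_nonneg_left (site2 _ (hD x x')) (mul_nonneg (hw _) (hw _))
      _ = ((∑ x ∈ X, w x) * ∑ x ∈ X, w x) * (ε1 * Z2) := by
          rw [Finset.sum_mul_sum, Finset.sum_mul]
          refine Finset.sum_congr rfl fun x _ => ?_
          rw [Finset.sum_mul]
      _ ≤ (Z1 * Z1) * (ε1 * Z2) := by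
          apply mul_le_mul_of_nonneg_right _ (by positivity)
          exact mul_le_mul hsX hsX hsX0 hZ1.le
      _ = _ := by ring
  -- step 3
  obtain ⟨NF, hNF, hNF'⟩ : ∃ NF : Set T, (∀ s, s ∉ F → s ∈ NF) ∧ S1 NF :=
    ⟨{s | s ∉ F}, fun _ h => h, hF⟩
  let BB' : T → T → Set T := fun x x' => if x ∈ F ∧ x' ∈ F then BB x x' else ∅
  have hBB' : ∀ x x', S2 (BB' x x') := by
    intro x x'
    by_cases h : x ∈ F ∧ x' ∈ F
    · have : BB' x x' = BB x x' := if_pos h
      rw [this]
      exact hBB x h.1 x' h.2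
    · have : BB' x x' = ∅ := if_neg h
      rw [this]
      exact hS2e
  have step3 : ∑ z ∈ Z, ∑ x ∈ X, ∑ x' ∈ X,
      (if (x + z ∈ A ∧ x' + z ∈ A) then w x * w x' * w z else 0) ≤
      5 * ε1 * (Z1 ^ 2 * Z2) := by
    have hle : ∑ z ∈ Z, ∑ x ∈ X, ∑ x' ∈ X,
        (if (x + z ∈ A ∧ x' + z ∈ A) then w x * w x' * w z else 0) ≤
        ∑ z ∈ Z, ∑ x ∈ X, ∑ x' ∈ X,
          ((if x ∈ NF then w x else 0) * w x' * w z +
            w x * (if x' ∈ NF then w x' else 0) * w z +
            (if x ∈ B0 z then w x else 0) * w x' * w z +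
            w x * (if x' ∈ BA x z then w x' else 0) * w z +
            w x * w x' * (if z ∈ BB' x x' then w z else 0)) := by
      refine Finset.sum_le_sum fun z hz => Finset.sum_le_sum fun x hx =>
        Finset.sum_le_sum fun x' hx' => ?_
      have hx0 := hw x
      have hx0' := hw x'
      have hz0 := hw z
      have a1 : 0 ≤ (if x ∈ NF then w x else 0) * w x' * w z := by
        split_ifs <;> positivity
      have a2 : 0 ≤ w x * (if x' ∈ NF then w x' else 0) * w z := by
        split_ifs <;> positivity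
      have a3 : 0 ≤ (if x ∈ B0 z then w x else 0) * w x' * w z := by
        split_ifs <;> positivity
      have a4 : 0 ≤ w x * (if x' ∈ BA x z then w x' else 0) * w z := by
        split_ifs <;> positivity
      have a5 : 0 ≤ w x * w x' * (if z ∈ BB' x x' then w z else 0) := by
        split_ifs <;> positivity
      by_cases hall : x + z ∈ A ∧ x' + z ∈ A
      · rw [if_pos hall]
        by_cases hxF : x ∈ F
        · by_cases hxF' : x' ∈ F
          · rcases hcov x x' z (hXf x hx) (hXf x' hx') (hZf z hz) hall.1 hall.2 with h | h | h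
            · have : (if x ∈ B0 z then w x else 0) * w x' * w z =
                  w x * w x' * w z := by rw [if_pos h]
              linarith
            · have : w x * (if x' ∈ BA x z then w x' else 0) * w z =
                  w x * w x' * w z := by rw [if_pos h]
              linarith
            · have h' : z ∈ BB' x x' := by
                have : BB' x x' = BB x x' := if_pos ⟨hxF, hxF'⟩
                rw [this]
                exact h
              have : w x * w x' * (if z ∈ BB' x x' then w z else 0) =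
                  w x * w x' * w z := by rw [if_pos h']
              linarith
          · have h : x' ∈ NF := hNF _ hxF'
            have : w x * (if x' ∈ NF then w x' else 0) * w z =
                w x * w x' * w z := by rw [if_pos h]
            linarith
        · have h : x ∈ NF := hNF _ hxF
          have : (if x ∈ NF then w x else 0) * w x' * w z =
              w x * w x' * w z := by rw [if_pos h]
          linarith
      · rw [if_neg hall]
        linarith
    refine hle.trans ?_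
    simp only [Finset.sum_add_distrib]
    have f1 := e1 (fun _ => NF) (fun _ => hNF')
    have f2 := e2 (fun _ _ => NF) (fun _ _ => hNF')
    have f3 := e1 B0 hB0
    have f4 := e2 BA hBA
    have f5 := e3 BB' hBB'
    linarith
  -- step 4
  have step4 : (∑ x ∈ X, ∑ z ∈ Z, if x + z ∈ A then w x * w z else 0) ^ 2 ≤
      (δ * (Z1 * Z2)) ^ 2 := by
    refine step2.trans ?_
    calc _ ≤ Z2 * (5 * ε1 * (Z1 ^ 2 * Z2)) := by
          apply mul_le_mul hsZ step3 _ hZ2.le
          refine Finset.sum_nonneg fun z _ => Finset.sum_nonneg fun x _ =>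
            Finset.sum_nonneg fun x' _ => ?_
          split_ifs
          · exact mul_nonneg (mul_nonneg (hw _) (hw _)) (hw _)
          · exact le_rfl
      _ ≤ Z2 * (δ ^ 2 * (Z1 ^ 2 * Z2)) := by
          apply mul_le_mul_of_nonneg_left _ hZ2.le
          exact mul_le_mul_of_nonneg_right hεδ (by positivity)
      _ = _ := by ring
  have step5 := le_of_sq_le_sq step4 (by positivity)
  exact step1.trans step5

/-- piece TWO -/
theorem p_two (hzs : S_zs) : S_two := by
  intro ι _ q hq P1 P2 F hd A ε1 δ hε1 hδ hεδ hF B0 BA BB hB0 hBA hBB hcov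
  intro Y hY hYA
  have hZ1 := agtwo_pos hq P1
  have hZ2 := agtwo_pos hq P2
  have hU : ZP q (P1 ∪ P2) = ZP q P1 * ZP q P2 := Finset.prod_union hd
  rw [hU]
  refine agtwo_abs (fun m => (nm q m : ℝ)⁻¹) (fun a => by positivity)
    (fun a b => ?_) (fun m => m.support ⊆ P1) (fun m => m.support ⊆ P2) (ZP q P1) (ZP q P2)
    hZ1 hZ2 F (hzs ι q hq P1) (hzs ι q hq P2) A ε1 δ hε1 hδ hεδ
    (fun D => Sm q P1 D ε1) (fun D => Sm q P2 D ε1) (fun D hD => hD) (fun D hD => hD) ?_ hF
    B0 BA BB hB0 hBA hBB hcov Y hYA (fun m => m.filter (· ∈ P1)) (fun m => m.filter (· ∉ P1))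
    ?_ ?_ ?_
  · rw [agtwo_add]
    push_cast
    rw [mul_inv]
  · intro Y' _ hY'
    have h0 : Y' = ∅ := Finset.eq_empty_of_forall_notMem fun b hb => hY' b hb
    rw [h0, Finset.sum_empty]
    positivity
  · intro b _
    change (b.filter (· ∈ P1)).support ⊆ P1
    rw [Finsupp.support_filter]
    intro i hi
    exact (Finset.mem_filter.mp hi).2
  · intro b hb
    change (b.filter (· ∉ P1)).support ⊆ P2
    rw [Finsupp.support_filter]
    intro i hi
    obtain ⟨h3, h4⟩ := Finset.mem_filter.mp hi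
    exact (Finset.mem_union.mp (hY b hb h3)).resolve_left h4
  · intro b _
    exact (Finsupp.filter_add_filter_not b (· ∈ P1)).symm

end Pool.Agent.Lib.MP_c82530_nt.AG
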