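import Pool.Agent.Lib.MP_c82530_nt.AG.Defs

/-!
# Piece ZEX: the Euler product is at most an exponential
-/

set_option autoImplicit false

namespace Pool.Agent.Lib.MP_c82530_nt.AG

theorem p_zex : S_zex := by
  intro ι q hq P
  unfold ZP
  rw [Finset.mul_sum, Real.exp_sum]
  refine Finset.prod_le_prod (fun i _ => ?_) (fun i _ => ?_)
  · have h2 : (2 : ℝ) ≤ q i := by exact_mod_cast hq i
    have h3 : (q i : ℝ)⁻¹ ≤ 1 / 2 := by
      rw [one_div]
      exact inv_anti₀ (by norm_num) h2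
    exact inv_nonneg.2 (by linarith)
  · have h2 : (2 : ℝ) ≤ q i := by exact_mod_cast hq i
    have h3 : (q i : ℝ)⁻¹ ≤ 1 / 2 := by
      rw [one_div]
      exact inv_anti₀ (by norm_num) h2
    have h4 : 0 ≤ (q i : ℝ)⁻¹ := by positivity
    have h5 : (1 - (q i : ℝ)⁻¹)⁻¹ ≤ 1 + 2 * (q i : ℝ)⁻¹ := by
      rw [inv_le_comm₀ (by linarith) (by linarith), ← one_div, div_le_iff₀ (by linarith)]
      nlinarith
    refine h5.trans ?_
    have := Real.add_one_le_exp (2 * (q i : ℝ)⁻¹)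
    linarith

end Pool.Agent.Lib.MP_c82530_nt.AG
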