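import Pool.Agent.Lib.MP_c82530_nt.AG.Defs

set_option autoImplicit false

namespace Pool.Agent.Lib.MP_c82530_nt.AG

open scoped BigOperators

private lemma zs_geom {r : ℝ} (h0 : 0 ≤ r) (h1 : r < 1) (K : ℕ) :
    ∑ k ∈ Finset.range K, r ^ k ≤ (1 - r)⁻¹ := by
  rw [← tsum_geometric_of_lt_one h0 h1]
  exact (summable_geometric_of_lt_one h0 h1).sum_le_tsum _ fun k _ => pow_nonneg h0 k

private lemma zs_nm {ι : Type} (q : ι → ℕ) (m : ι →₀ ℕ) (i : ι) :
    nm q m = q i ^ m i * nm q (m.erase i) := by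
  classical
  unfold nm
  exact (Finsupp.mul_prod_erase' m i (fun i k => q i ^ k) fun i => pow_zero _).symm

/-- piece ZS -/
theorem p_zs : S_zs := by
  classical
  intro ι q hq P
  induction P using Finset.induction_on with
  | empty =>
    intro Y hY
    have h1 : Y ⊆ {0} := by
      intro m hm
      have := hY m hm
      rw [Finset.subset_empty, Finsupp.support_eq_empty] at this
      simpa using this
    calc ∑ m ∈ Y, (nm q m : ℝ)⁻¹ ≤ ∑ m ∈ ({0} : Finset (ι →₀ ℕ)), (nm q m : ℝ)⁻¹ :=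
          Finset.sum_le_sum_of_subset_of_nonneg h1 fun m _ _ => by positivity
      _ = ZP q ∅ := by simp [nm, ZP]
  | insert i P hi ih =>
    intro Y hY
    have hqi : (2 : ℝ) ≤ q i := by exact_mod_cast hq i
    have hr0 : 0 ≤ (q i : ℝ)⁻¹ := by positivity
    have hr1 : (q i : ℝ)⁻¹ < 1 := inv_lt_one_of_one_lt₀ (by linarith)
    set K : ℕ := Y.sup fun m => m i with hK
    set Z : Finset (ι →₀ ℕ) := Y.image fun m => m.erase i with hZ
    have hZs : ∀ m ∈ Z, m.support ⊆ P := by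
      intro m hm
      obtain ⟨b, hb, rfl⟩ := Finset.mem_image.mp hm
      rw [Finsupp.support_erase]
      intro j hj
      rw [Finset.mem_erase] at hj
      have := hY b hb hj.2
      rw [Finset.mem_insert] at this
      exact this.resolve_left hj.1
    have h1 : ∑ m ∈ Y, (nm q m : ℝ)⁻¹ =
        ∑ t ∈ Y.image (fun m => (m i, m.erase i)), ((q i : ℝ)⁻¹ ^ t.1 * (nm q t.2 : ℝ)⁻¹) := by
      rw [Finset.sum_image]
      · refine Finset.sum_congr rfl fun m _ => ?_
        rw [zs_nm q m i]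
        push_cast
        rw [mul_inv, inv_pow]
      · intro x _ y _ hxy
        simp only [Prod.mk.injEq] at hxy
        rw [← Finsupp.single_add_erase i x, ← Finsupp.single_add_erase i y, hxy.1, hxy.2]
    have h2 : Y.image (fun m => (m i, m.erase i)) ⊆ Finset.range (K + 1) ×ˢ Z := by
      intro t ht
      obtain ⟨b, hb, rfl⟩ := Finset.mem_image.mp ht
      rw [Finset.mem_product, Finset.mem_range]
      exact ⟨Nat.lt_succ_of_le (Finset.le_sup (f := fun m : ι →₀ ℕ => m i) hb),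
        Finset.mem_image_of_mem _ hb⟩
    calc ∑ m ∈ Y, (nm q m : ℝ)⁻¹
        = ∑ t ∈ Y.image (fun m => (m i, m.erase i)), ((q i : ℝ)⁻¹ ^ t.1 * (nm q t.2 : ℝ)⁻¹) := h1
      _ ≤ ∑ t ∈ Finset.range (K + 1) ×ˢ Z, ((q i : ℝ)⁻¹ ^ t.1 * (nm q t.2 : ℝ)⁻¹) :=
          Finset.sum_le_sum_of_subset_of_nonneg h2 fun t _ _ => by positivity
      _ = (∑ k ∈ Finset.range (K + 1), (q i : ℝ)⁻¹ ^ k) * ∑ m ∈ Z, (nm q m : ℝ)⁻¹ := by
          rw [Finset.sum_mul_sum, ← Finset.sum_product']
      _ ≤ (1 - (q i : ℝ)⁻¹)⁻¹ * ZP q P := by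
          refine mul_le_mul (zs_geom hr0 hr1 _) (ih Z hZs) ?_ ?_
          · exact Finset.sum_nonneg fun m _ => by positivity
          · rw [inv_nonneg]; linarith
      _ = ZP q (insert i P) := by
          unfold ZP
          rw [Finset.prod_insert hi]

end Pool.Agent.Lib.MP_c82530_nt.AG
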