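import Mathlib
import Pool.Agent.Lib.MP_c82530_nt.AG.Defs

set_option autoImplicit false

/-!
# The free monoid of the integral ideals of a number field
-/

namespace Pool.Agent.Lib.MP_c82530_nt.AG

open Set Pool.Agent.Lib.MP_c82530_nt Pool.Agent.Lib.MP_c82530_nt.AA Module Filter Topology
open NumberField IsDedekindDomain

/-- the number of elements of `A` in `T` -/
noncomputable def Ct {ι : Type} (A : Set (ι →₀ ℕ)) (T : Finset (ι →₀ ℕ)) : ℝ :=
  ∑ m ∈ T, A.indicator (fun _ => (1 : ℝ)) m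

/-- the norm of a prime ideal -/
noncomputable def qn (k : Type) [Field k] [NumberField k] (v : HeightOneSpectrum (𝓞 k)) : ℕ :=
  Ideal.absNorm v.asIdeal

/-- the ideal with the exponents `m` -/
noncomputable def toI {k : Type} [Field k] [NumberField k] (m : HeightOneSpectrum (𝓞 k) →₀ ℕ) :
    Ideal (𝓞 k) := m.prod fun v n => v.asIdeal ^ n

/-- the logarithm attached to a prime ideal `v`, where `γ v` generates `v ^ h` -/
noncomputable def fn {k : Type} [Field k] [NumberField k] (σ : k →+* ℂ) (h : ℕ)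
    (γ : HeightOneSpectrum (𝓞 k) → 𝓞 k) (v : HeightOneSpectrum (𝓞 k)) : ℂ :=
  (h : ℂ)⁻¹ * Complex.log (σ (γ v))

/-- `γ v` generates `v ^ h` -/
def IsGen {k : Type} [Field k] [NumberField k] (h : ℕ) (γ : HeightOneSpectrum (𝓞 k) → 𝓞 k) :
    Prop := 0 < h ∧ ∀ v, γ v ≠ 0 ∧ Ideal.span {γ v} = v.asIdeal ^ h

/-! ### abstract pieces -/

/-- piece CNP: counting the integers prime to `P`.
Proof: induction on `P`. For `i ∉ P` the integers of norm `≤ x` which are prime to `P` are those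
prime to `insert i P` and the `m' + single i 1` with `m'` prime to `P` and of norm `≤ x / q i`
(natural number division). So `Ct (insert i P) (L x) = Ct P (L x) - Ct P (L (x / q i))`, and
`Ct P (L (x / q i)) / x → (κ / ZP q P) / q i`. -/
def S_cnp : Prop := ∀ (ι : Type) (q : ι → ℕ) (L : ℕ → Finset (ι →₀ ℕ)), (∀ i, 2 ≤ q i) →
  IsL q L → ∀ κ : ℝ, Tendsto (fun x : ℕ => Ct univ (L x) / x) atTop (𝓝 κ) → ∀ P : Finset ι,
  Tendsto (fun x : ℕ => Ct {m | Disjoint m.support P} (L x) / x) atTop (𝓝 (κ / ZP q P))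

/-- piece ABEL: from counting to logarithmic weights.
Proof: `Wt q A (L x) = ∑ n ∈ Icc 1 x, (N n - N (n - 1)) / n`, `N n = Ct A (L n)`, which is
`N x / (x + 1) + ∑ n ∈ Icc 1 x, N n / (n (n + 1))` (`N 0 = 0`, all norms are `≥ 1`); the first
term is bounded; `N n / (n (n + 1)) = (D + o(1)) / (n + 1)`, and
`∑ n ∈ Icc 1 x, 1 / (n + 1) ~ log x`; use `Asymptotics.IsLittleO.sum_range`. -/
def S_abel : Prop := ∀ (ι : Type) (q : ι → ℕ) (L : ℕ → Finset (ι →₀ ℕ)), (∀ i, 2 ≤ q i) →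
  IsL q L → ∀ (A : Set (ι →₀ ℕ)) (D : ℝ), Tendsto (fun x : ℕ => Ct A (L x) / x) atTop (𝓝 D) →
  Tendsto (fun x : ℕ => Wt q A (L x) / Real.log x) atTop (𝓝 D)

/-- piece CNT: `theorem p_cnt (hcnp : S_cnp) (habel : S_abel) : S_cnt`, with the constant `2 κ` in
`Mt0` and `κ / 2` in `Low`. -/
def S_cnt : Prop := ∀ (ι : Type) (q : ι → ℕ) (L : ℕ → Finset (ι →₀ ℕ)), (∀ i, 2 ≤ q i) →
  IsL q L → ∀ κ : ℝ, 0 < κ → Tendsto (fun x : ℕ => Ct univ (L x) / x) atTop (𝓝 κ) →
  Mt0 q L ∧ Low q L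

/-- piece SHIFT. Proof: `Wt A (L y)` is at most the sum over `j ∈ J` of the `1 / nm m`, `m ∈ L y`,
`m + j ∈ B`; as `1 / nm m = nm j / nm (m + j)` and `m + j ∈ L (y * Q)`, `Q` the sum of all `nm j`,
`j ∈ J`, it is at most `Q * Wt B (L (y * Q))`. Take `y = x / Q` (natural number division) and
`log y ≥ (1 / 2) log x` for large `x`. -/
def S_shift : Prop := ∀ (ι : Type) (q : ι → ℕ) (L : ℕ → Finset (ι →₀ ℕ)), (∀ i, 2 ≤ q i) →
  IsL q L → ∀ (A B : Set (ι →₀ ℕ)) (J : Finset (ι →₀ ℕ)), (∀ m ∈ A, ∃ j ∈ J, m + j ∈ B) →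
  (∃ δ : ℝ, 0 < δ ∧ ∀ᶠ x : ℕ in atTop, δ * Real.log x ≤ Wt q A (L x)) →
  ∃ δ : ℝ, 0 < δ ∧ ∀ᶠ x : ℕ in atTop, δ * Real.log x ≤ Wt q B (L x)

/-! ### pieces on number fields -/

/-- piece TOI: unique factorization of ideals (Mathlib: `Ideal.finprod_heightOneSpectrum_...`,
`UniqueFactorizationMonoid`, `HeightOneSpectrum.maxPowDividing`, `Ideal.absNorm` is multiplicative).
The first clause: `v.asIdeal` is neither `⊥` nor `⊤`. -/
def S_toi : Prop := ∀ (k : Type) [Field k] [NumberField k],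
  (∀ v, 2 ≤ qn k v) ∧
  (∀ m : HeightOneSpectrum (𝓞 k) →₀ ℕ, Ideal.absNorm (toI m) = nm (qn k) m ∧ toI m ≠ ⊥) ∧
  (Function.Injective (toI (k := k))) ∧ (∀ I : Ideal (𝓞 k), I ≠ ⊥ → ∃ m, toI m = I) ∧
  (∀ m m' : HeightOneSpectrum (𝓞 k) →₀ ℕ, toI (m + m') = toI m * toI m')

/-- piece ISL: `theorem p_isl (htoi : S_toi) : S_isl`, from `Ideal.finite_setOf_absNorm_le`
(or a similar name; see Mathlib/NumberTheory/NumberField/Ideal/Asymptotics.lean). -/
def S_isl : Prop := ∀ (k : Type) [Field k] [NumberField k],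
  ∃ L : ℕ → Finset (HeightOneSpectrum (𝓞 k) →₀ ℕ), IsL (qn k) L

/-- piece CNZ: `theorem p_cnz (htoi : S_toi) : S_cnz`, the number of ideals, from Mathlib
`NumberField.Ideal.tendsto_norm_le_div_atTop₀`; the limit is positive (`NumberField.regulator`,
`classNumber`, `torsionOrder` and `|discr|` are positive). -/
def S_cnz : Prop := ∀ (k : Type) [Field k] [NumberField k]
  (L : ℕ → Finset (HeightOneSpectrum (𝓞 k) →₀ ℕ)), IsL (qn k) L →
  ∃ κ : ℝ, 0 < κ ∧ Tendsto (fun x : ℕ => Ct univ (L x) / x) atTop (𝓝 κ)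

/-- piece GEN: finiteness of the class group, `h` the class number -/
def S_gen : Prop := ∀ (k : Type) [Field k] [NumberField k],
  ∃ (h : ℕ) (γ : HeightOneSpectrum (𝓞 k) → 𝓞 k), IsGen h γ

/-- piece UC: all logarithms of all units span a finite dimensional space.
Proof: the unit group is finitely generated (Mathlib: `Module.Finite ℤ (Additive (𝓞 k)ˣ)` or
`Monoid.FG`, Dirichlet); let `C` be the span of `2 π i` and of `Complex.log (σ s)` for the
generators `s`; induction on the closure; two logarithms of a number differ by a multiple of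
`2 π i` (`Complex.exp_eq_exp_iff_exists_int`). -/
def S_uc : Prop := ∀ (k : Type) [Field k] [NumberField k] (σ : k →+* ℂ),
  ∃ C : Submodule ℚ ℂ, FiniteDimensional ℚ C ∧ ∀ (u : (𝓞 k)ˣ) (l : ℂ),
    Complex.exp l = σ (u : 𝓞 k) → l ∈ C

/-- piece LG: `theorem p_lg (huc : S_uc) (htoi : S_toi) : S_lg`.
Proof: `β ^ h` and `∏ γ v ^ (m v)` generate the same ideal, so they differ by a unit, and `h * l`
minus `h * Fv (fn σ h γ) m = ∑ m v * log (σ (γ v))` is a logarithm of that unit. -/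
def S_lg : Prop := ∀ (k : Type) [Field k] [NumberField k] (σ : k →+* ℂ) (h : ℕ)
  (γ : HeightOneSpectrum (𝓞 k) → 𝓞 k), IsGen h γ → ∃ C : Submodule ℚ ℂ,
  FiniteDimensional ℚ C ∧ ∀ (m : HeightOneSpectrum (𝓞 k) →₀ ℕ) (β : 𝓞 k) (l : ℂ),
    Ideal.span {β} = toI m → Complex.exp l = σ β → l - Fv (fn σ h γ) m ∈ C

/-- piece IND: `theorem p_ind (htoi : S_toi) : S_ind`.
Proof: let `∑ a v * fn v` be algebraic; multiply by a common denominator `N` of the `a v` and by
`h`: `l = ∑ b v * log (σ (γ v))` is algebraic, `b v = N * a v` integers, and `exp l` is algebraic,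
so `l = 0` (`log_transcendental` in Pool/Agent/Lib/MP_c82530_nt/LWMain.lean). So
`∏ σ (γ v) ^ b v = 1`; with the positive part `b⁺` and the negative part `b⁻` (exponents in `ℕ`) we
get `∏ γ v ^ b⁺ v = ∏ γ v ^ b⁻ v` in `𝓞 k` (`σ` is injective), the ideals are `toI (h • b⁺)`
and `toI (h • b⁻)`, so `b⁺ = b⁻` and `a = 0`. -/
def S_ind : Prop := ∀ (k : Type) [Field k] [NumberField k] (σ : k →+* ℂ) (h : ℕ)
  (γ : HeightOneSpectrum (𝓞 k) → 𝓞 k), IsGen h γ → Ind (fn σ h γ)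

/-- piece CONJ: `theorem p_conj (hlg : S_lg) (htoi : S_toi) : S_conj`.
Proof: complex conjugation restricts to an automorphism `c` of `k`, `σ (c x) = conj (σ x)`; it acts
on `𝓞 k` and on the primes, `τ v = c (v)`, and preserves the norm (`𝓞 k / v ≃ 𝓞 k / c v`, or
`Ideal.absNorm` of a map under a ring equivalence). `c (γ v)` generates `(τ v) ^ h`, and
`h * conj (fn v)` is a logarithm of `σ (c (γ v))`; apply LG to `β = c (γ v)` and
`m = single (τ v) h`, and divide by `h`. -/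
def S_conj : Prop := ∀ (k : Type) [Field k] [NumberField k] (σ : k →+* ℂ) (h : ℕ)
  (γ : HeightOneSpectrum (𝓞 k) → 𝓞 k), IsGen h γ →
  (∀ x : k, ∃ y : k, σ y = (starRingEnd ℂ) (σ x)) →
  ∃ τ : HeightOneSpectrum (𝓞 k) ≃ HeightOneSpectrum (𝓞 k), (∀ v, qn k (τ v) = qn k v) ∧
  ∃ D : Submodule ℚ ℂ, FiniteDimensional ℚ D ∧
    ∀ v, (starRingEnd ℂ) (fn σ h γ v) - fn σ h γ (τ v) ∈ D

/-- piece CLS: `theorem p_cls (htoi : S_toi) : S_cls`. Proof: for every class choose a nonzero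
integral ideal in the class (`ClassGroup.mk0_surjective`), `J` is the set of their exponents. -/
def S_cls : Prop := ∀ (k : Type) [Field k] [NumberField k],
  ∃ J : Finset (HeightOneSpectrum (𝓞 k) →₀ ℕ), ∀ m : HeightOneSpectrum (𝓞 k) →₀ ℕ,
    ∃ j ∈ J, ∃ β : 𝓞 k, Ideal.span {β} = toI (m + j)

/-- piece BR: `theorem p_br (htoi : S_toi) : S_br`, translation of the sums. The zero ideal has norm
`0` and contributes `0⁻¹ = 0`. -/
def S_br : Prop := ∀ (k : Type) [Field k] [NumberField k]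
  (L : ℕ → Finset (HeightOneSpectrum (𝓞 k) →₀ ℕ)), IsL (qn k) L →
  ∀ (A : Set (Ideal (𝓞 k))) (x : ℕ),
    ∑ᶠ I ∈ {I : Ideal (𝓞 k) | I ∈ A ∧ Ideal.absNorm I ≤ x}, (Ideal.absNorm I : ℝ)⁻¹ =
      Wt (qn k) {m | toI m ∈ A} (L x)

end Pool.Agent.Lib.MP_c82530_nt.AG
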