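import Pool.Agent.Lib.MP_c82530_nt.AG.NF
import Pool.Agent.Lib.MP_c82530_nt.LWMain

set_option autoImplicit false

/-!
# Piece IND: the values at the primes are independent modulo the algebraic numbers (helper5)
-/

namespace Pool.Agent.Lib.MP_c82530_nt.AG

open Set Pool.Agent.Lib.MP_c82530_nt Pool.Agent.Lib.MP_c82530_nt.AA Module Filter Topology
open NumberField IsDedekindDomain

/-- a common denominator -/
theorem ind_den {ι : Type} (a : ι →₀ ℚ) : ∃ (N : ℕ) (b : ι →₀ ℤ), 0 < N ∧
    ∀ i, ((b i : ℤ) : ℚ) = N * a i := by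
  classical
  let N : ℕ := ∏ i ∈ a.support, (a i).den
  have hN : 0 < N := Finset.prod_pos fun i _ => (a i).pos
  refine ⟨N, a.mapRange (fun t => ((N : ℚ) * t).num) (by simp), hN, ?_⟩
  intro i
  rw [Finsupp.mapRange_apply]
  by_cases hi : a i = 0
  · simp [hi]
  · have h1 : (a i).den ∣ N := Finset.dvd_prod_of_mem (fun i => (a i).den) (by simpa using hi)
    obtain ⟨c, hc⟩ := h1
    have h2 : (N : ℚ) * a i = ((c * (a i).num : ℤ) : ℚ) := by
      rw [hc]
      conv_lhs => rw [← Rat.num_div_den (a i)]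
      have h3 : ((a i).den : ℚ) ≠ 0 := by exact_mod_cast (a i).den_nz
      rw [Rat.num_div_den]
      push_cast
      nth_rewrite 2 [← Rat.num_div_den (a i)]
      field_simp
    rw [h2, Rat.num_intCast]

theorem p_ind (htoi : S_toi) : S_ind := by
  classical
  intro k _ _ σ h γ hγ a ha
  obtain ⟨hh, hgen⟩ := hγ
  obtain ⟨N, b, hN, hb⟩ := ind_den a
  obtain ⟨-, -, hinj, -, -⟩ := htoi k
  have hh0 : (h : ℂ) ≠ 0 := by exact_mod_cast hh.ne'
  have hσγ : ∀ v, σ ((γ v : 𝓞 k) : k) ≠ 0 := by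
    intro v hv
    have h1 : ((γ v : 𝓞 k) : k) = 0 := (map_eq_zero σ).1 hv
    exact (hgen v).1 (by exact_mod_cast h1)
  -- the logarithm
  let l : ℂ := ∑ v ∈ a.support, (b v : ℂ) * Complex.log (σ ((γ v : 𝓞 k) : k))
  have hl : l = (N : ℂ) * h * (a.sum fun i t => (t : ℂ) * fn σ h γ i) := by
    rw [Finsupp.sum, Finset.mul_sum]
    refine Finset.sum_congr rfl fun v _ => ?_
    have h1 : ((b v : ℤ) : ℂ) = (N : ℂ) * ((a v : ℚ) : ℂ) := by
      have := hb v
      have h2 : (((b v : ℤ) : ℚ) : ℂ) = ((N * a v : ℚ) : ℂ) := by rw [this]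
      push_cast at h2
      exact h2
    rw [h1, fn]
    field_simp
  have hlalg : IsAlgebraic ℚ l := by
    rw [hl]
    refine IsAlgebraic.mul (IsAlgebraic.mul ?_ ?_) ha
    · exact isAlgebraic_natCast N
    · exact isAlgebraic_natCast h
  have hexp : Complex.exp l = ∏ v ∈ a.support, σ ((γ v : 𝓞 k) : k) ^ (b v) := by
    rw [Complex.exp_sum]
    refine Finset.prod_congr rfl fun v _ => ?_
    rw [Complex.exp_int_mul, Complex.exp_log (hσγ v)]
  have hkalg : ∀ x : k, IsAlgebraic ℚ (σ x) := by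
    intro x
    have h1 : IsAlgebraic ℚ x := Algebra.IsAlgebraic.isAlgebraic x
    exact h1.algHom σ.toRatAlgHom
  have hexpalg : IsAlgebraic ℚ (Complex.exp l) := by
    have h1 : Complex.exp l = σ (∏ v ∈ a.support, ((γ v : 𝓞 k) : k) ^ (b v)) := by
      rw [hexp, map_prod]
      refine Finset.prod_congr rfl fun v _ => ?_
      rw [map_zpow₀]
    rw [h1]
    exact hkalg _
  have hl0 : l = 0 := by
    by_contra hne
    exact log_transcendental hexpalg hne hlalg
  rw [hl0, Complex.exp_zero] at hexp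
  -- the positive and the negative parts
  have hprod : ∏ v ∈ a.support, (γ v) ^ (b v).toNat = ∏ v ∈ a.support, (γ v) ^ (-(b v)).toNat := by
    have h1 : σ (((∏ v ∈ a.support, (γ v) ^ (b v).toNat : 𝓞 k)) : k) =
        σ (((∏ v ∈ a.support, (γ v) ^ (-(b v)).toNat : 𝓞 k)) : k) := by
      have h2 : ∀ v, σ ((γ v : 𝓞 k) : k) ^ (b v).toNat =
          σ ((γ v : 𝓞 k) : k) ^ (b v) * σ ((γ v : 𝓞 k) : k) ^ (-(b v)).toNat := by
        intro v
        rw [← zpow_natCast, ← zpow_natCast, ← zpow_add₀ (hσγ v)]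
        congr 1
        omega
      simp only [map_prod, map_pow]
      rw [Finset.prod_congr rfl fun v _ => h2 v, Finset.prod_mul_distrib, ← hexp, one_mul]
    have h3 := σ.injective h1
    exact_mod_cast h3
  let bp : HeightOneSpectrum (𝓞 k) →₀ ℕ := b.mapRange Int.toNat (by simp)
  let bm : HeightOneSpectrum (𝓞 k) →₀ ℕ := b.mapRange (fun t => (-t).toNat) (by simp)
  have hsupp : b.support ⊆ a.support := by
    intro v hv
    rw [Finsupp.mem_support_iff] at hv ⊢
    intro h0
    apply hv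
    have := hb v
    rw [h0, mul_zero] at this
    exact_mod_cast this
  have htoI : ∀ c : HeightOneSpectrum (𝓞 k) →₀ ℕ, c.support ⊆ a.support →
      Ideal.span {∏ v ∈ a.support, (γ v) ^ (c v)} = toI (h • c) := by
    intro c hc
    have hsub : (h • c).support ⊆ a.support := (Finsupp.support_smul).trans hc
    rw [toI, Finsupp.prod_of_support_subset _ hsub _ (fun v _ => pow_zero _),
      ← Ideal.prod_span_singleton]
    refine Finset.prod_congr rfl fun v _ => ?_
    rw [← Ideal.span_singleton_pow, (hgen v).2, ← pow_mul, Finsupp.smul_apply, smul_eq_mul]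
  have hp := htoI bp ((Finsupp.support_mapRange).trans hsupp)
  have hm := htoI bm ((Finsupp.support_mapRange).trans hsupp)
  have hpm : h • bp = h • bm := by
    apply hinj
    rw [← hp, ← hm]
    congr 2
  ext v
  have h1 : h * (b v).toNat = h * (-(b v)).toNat := by
    have := DFunLike.congr_fun hpm v
    simpa [bp, bm] using this
  have h2 : (b v).toNat = (-(b v)).toNat := Nat.eq_of_mul_eq_mul_left hh h1
  have h3 : b v = 0 := by omega
  have h4 := hb v
  rw [h3] at h4
  have h5 : (N : ℚ) ≠ 0 := by exact_mod_cast hN.ne'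
  have h6 : (N : ℚ) * a v = 0 := by rw [← h4]; simp
  simpa [h5] using h6

end Pool.Agent.Lib.MP_c82530_nt.AG
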