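import Pool.Agent.Lib.MP_c82530_nt.AG.NF

set_option autoImplicit false

/-!
# Piece TOI: unique factorization of ideals (helper80)
-/

namespace Pool.Agent.Lib.MP_c82530_nt.AG

open Set Pool.Agent.Lib.MP_c82530_nt Pool.Agent.Lib.MP_c82530_nt.AA Module Filter Topology
open NumberField IsDedekindDomain

variable {k : Type} [Field k] [NumberField k]

private theorem toi_two (v : HeightOneSpectrum (𝓞 k)) : 2 ≤ qn k v := by
  have h1 : Ideal.absNorm v.asIdeal ≠ 0 := by
    rw [Ne, Ideal.absNorm_eq_zero_iff]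
    exact v.ne_bot
  have h2 : Ideal.absNorm v.asIdeal ≠ 1 := by
    rw [Ne, Ideal.absNorm_eq_one_iff]
    exact v.isPrime.ne_top
  unfold qn
  omega

private theorem toi_norm (m : HeightOneSpectrum (𝓞 k) →₀ ℕ) :
    Ideal.absNorm (toI m) = nm (qn k) m := by
  unfold toI nm qn Finsupp.prod
  rw [map_prod]
  simp only [map_pow]

private theorem toi_ne (m : HeightOneSpectrum (𝓞 k) →₀ ℕ) : toI m ≠ ⊥ := by
  unfold toI Finsupp.prod
  rw [← Ideal.zero_eq_bot, Finset.prod_ne_zero_iff]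
  intro v _
  exact pow_ne_zero _ v.ne_bot

private theorem toi_add (m m' : HeightOneSpectrum (𝓞 k) →₀ ℕ) :
    toI (m + m') = toI m * toI m' := by
  classical
  unfold toI
  exact Finsupp.prod_add_index' (fun v => pow_zero _) (fun v a b => pow_add _ _ _)

private theorem toi_single (v : HeightOneSpectrum (𝓞 k)) :
    toI (Finsupp.single v 1) = v.asIdeal := by
  unfold toI
  exact (Finsupp.prod_single_index (h := fun (v : HeightOneSpectrum (𝓞 k)) n => v.asIdeal ^ n)
    (pow_zero _)).trans (pow_one _)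

private theorem toi_split (m : HeightOneSpectrum (𝓞 k) →₀ ℕ) (v : HeightOneSpectrum (𝓞 k)) :
    ∃ J : Ideal (𝓞 k), toI m = v.asIdeal ^ m v * J ∧ ¬ v.asIdeal ∣ J := by
  classical
  refine ⟨∏ w ∈ m.support.erase v, w.asIdeal ^ m w, ?_, ?_⟩
  · unfold toI Finsupp.prod
    by_cases hv : v ∈ m.support
    · exact (Finset.mul_prod_erase m.support (fun w => w.asIdeal ^ m w) hv).symm
    · rw [Finset.erase_eq_of_notMem hv]
      rw [Finsupp.notMem_support_iff] at hv
      rw [hv, pow_zero, one_mul]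
  · intro h
    rw [Prime.dvd_finsetProd_iff v.prime] at h
    obtain ⟨w, hw, hvw⟩ := h
    have h1 : v.asIdeal ∣ w.asIdeal := v.prime.dvd_of_dvd_pow hvw
    have h2 : w.asIdeal ≤ v.asIdeal := Ideal.le_of_dvd h1
    have h3 : w.asIdeal = v.asIdeal := by
      have hmax : w.asIdeal.IsMaximal := w.isMaximal
      exact hmax.eq_of_le v.isPrime.ne_top h2
    exact (Finset.mem_erase.1 hw).1 (HeightOneSpectrum.ext h3)

private theorem toi_le {m m' : HeightOneSpectrum (𝓞 k) →₀ ℕ} (h : toI m = toI m')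
    (v : HeightOneSpectrum (𝓞 k)) : m v ≤ m' v := by
  obtain ⟨J, hJ1, hJ2⟩ := toi_split m v
  obtain ⟨J', hJ'1, hJ'2⟩ := toi_split m' v
  have h1 : v.asIdeal ^ m v ∣ J' * v.asIdeal ^ m' v := by
    rw [mul_comm, ← hJ'1, ← h, hJ1]
    exact Dvd.intro _ rfl
  have h2 := v.prime.pow_dvd_of_dvd_mul_left (m v) hJ'2 h1
  exact (pow_dvd_pow_iff v.prime.ne_zero v.prime.not_isUnit).1 h2

private theorem toi_surj (I : Ideal (𝓞 k)) (hI : I ≠ ⊥) : ∃ m, toI m = I := by
  induction I using UniqueFactorizationMonoid.induction_on_prime with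
  | h₁ => exact absurd rfl hI
  | h₂ x hx =>
    refine ⟨0, ?_⟩
    unfold toI
    rw [Finsupp.prod_zero_index]
    exact (Ideal.one_eq_top).trans (Ideal.isUnit_iff.1 hx).symm
  | h₃ a p ha hp ih =>
    obtain ⟨m, hm⟩ := ih ha
    refine ⟨Finsupp.single ⟨p, Ideal.isPrime_of_prime hp, hp.ne_zero⟩ 1 + m, ?_⟩
    rw [toi_add, toi_single, hm]

/-- piece TOI -/
theorem p_toi : S_toi := by
  intro k _ _
  refine ⟨toi_two, fun m => ⟨toi_norm m, toi_ne m⟩, ?_, toi_surj, toi_add⟩
  intro m m' h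
  ext v
  exact le_antisymm (toi_le h v) (toi_le h.symm v)

end Pool.Agent.Lib.MP_c82530_nt.AG
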