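import Pool.Agent.Lib.MP_c82530_nt.AG.NF

set_option autoImplicit false

/-!
# Piece ABEL: from counting to logarithmic weights
-/

namespace Pool.Agent.Lib.MP_c82530_nt.AG

open Set Pool.Agent.Lib.MP_c82530_nt Pool.Agent.Lib.MP_c82530_nt.AA Module Filter Topology

private lemma abel_harm : Tendsto (fun x : ℕ => (∑ n ∈ Finset.range x, 1 / ((n : ℝ) + 1)) /
    Real.log x) atTop (𝓝 1) := by
  have hlog : Tendsto (fun x : ℕ => Real.log x) atTop atTop :=
    Real.tendsto_log_atTop.comp tendsto_natCast_atTop_atTop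
  have h1 := Real.tendsto_harmonic_sub_log
  have h2 : Tendsto (fun x : ℕ => ((harmonic x : ℝ) - Real.log x) / Real.log x + 1) atTop
      (𝓝 (0 + 1)) := (h1.div_atTop hlog).add tendsto_const_nhds
  rw [zero_add] at h2
  refine h2.congr' ?_
  filter_upwards [hlog.eventually_gt_atTop 0] with x hx
  have h3 : (harmonic x : ℝ) = ∑ n ∈ Finset.range x, 1 / ((n : ℝ) + 1) := by
    rw [harmonic]
    push_cast
    refine Finset.sum_congr rfl fun n _ => ?_
    rw [one_div]
  rw [← h3]
  field_simp
  ring

private lemma abel_core (N W : ℕ → ℝ) (h0 : N 0 = 0) (hW0 : W 0 = 0)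
    (hW : ∀ n : ℕ, W (n + 1) = W n + (N (n + 1) - N n) / ((n : ℝ) + 1)) (D : ℝ)
    (hN : Tendsto (fun x : ℕ => N x / x) atTop (𝓝 D)) :
    Tendsto (fun x : ℕ => W x / Real.log x) atTop (𝓝 D) := by
  have hlog : Tendsto (fun x : ℕ => Real.log x) atTop atTop :=
    Real.tendsto_log_atTop.comp tendsto_natCast_atTop_atTop
  -- summation by parts
  have hS : ∀ x : ℕ, W x = N x / x + ∑ n ∈ Finset.range x, N n / n * (1 / ((n : ℝ) + 1)) := by
    intro x
    induction x with
    | zero => simp [hW0, h0]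
    | succ x ih =>
      rw [hW, ih, Finset.sum_range_succ]
      rcases Nat.eq_zero_or_pos x with hx | hx
      · subst hx
        simp [h0]
      · have hx' : (x : ℝ) ≠ 0 := by positivity
        push_cast
        field_simp
        ring
  have hf : (fun n : ℕ => N n / n * (1 / ((n : ℝ) + 1)) - D * (1 / ((n : ℝ) + 1))) =o[atTop]
      fun n : ℕ => 1 / ((n : ℝ) + 1) := by
    have h1 : (fun n : ℕ => N n / n * (1 / ((n : ℝ) + 1)) - D * (1 / ((n : ℝ) + 1))) =
        fun n : ℕ => (N n / n - D) * (1 / ((n : ℝ) + 1)) := by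
      funext n
      ring
    rw [h1]
    have h2 : (fun n : ℕ => N n / n - D) =o[atTop] fun _ : ℕ => (1 : ℝ) := by
      rw [Asymptotics.isLittleO_one_iff]
      have := hN.sub_const D
      rwa [sub_self] at this
    have h3 := h2.mul_isBigO (Asymptotics.isBigO_refl (fun n : ℕ => 1 / ((n : ℝ) + 1)) atTop)
    simpa using h3
  have hH := abel_harm
  have hHtop : Tendsto (fun x : ℕ => ∑ n ∈ Finset.range x, 1 / ((n : ℝ) + 1)) atTop atTop := by
    have h1 : Tendsto (fun x : ℕ => (∑ n ∈ Finset.range x, 1 / ((n : ℝ) + 1)) / Real.log x *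
        Real.log x) atTop atTop := hH.pos_mul_atTop one_pos hlog
    refine h1.congr' ?_
    filter_upwards [hlog.eventually_gt_atTop 0] with x hx
    rw [div_mul_cancel₀ _ hx.ne']
  have hsum := hf.sum_range (fun n => by positivity) hHtop
  have h4 := hsum.tendsto_div_nhds_zero.mul hH
  have h5 : Tendsto (fun x : ℕ => (N x / x) / Real.log x) atTop (𝓝 0) := hN.div_atTop hlog
  have h6 := (h5.add h4).add (hH.const_mul D)
  have h7 : (0 : ℝ) + 0 * 1 + D * 1 = D := by ring
  rw [h7] at h6
  refine h6.congr' ?_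
  filter_upwards [hlog.eventually_gt_atTop 0, hHtop.eventually_gt_atTop 0] with x hx hHx
  rw [hS x, Finset.sum_sub_distrib, ← Finset.mul_sum]
  field_simp
  ring

private lemma abel_nm {ι : Type} (q : ι → ℕ) (hq : ∀ i, 2 ≤ q i) (m : ι →₀ ℕ) : 0 < nm q m := by
  unfold nm
  refine Finset.prod_pos fun i _ => ?_
  have := hq i
  positivity

theorem p_abel : S_abel := by
  classical
  intro ι q L hq hL A D hD
  refine abel_core (fun x => Ct A (L x)) (fun x => Wt q A (L x)) ?_ ?_ ?_ D hD
  · have h0 : L 0 = ∅ := by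
      rw [Finset.eq_empty_iff_forall_notMem]
      intro m hm
      have := (hL 0 m).1 hm
      have := abel_nm q hq m
      omega
    simp [Ct, h0]
  · have h0 : L 0 = ∅ := by
      rw [Finset.eq_empty_iff_forall_notMem]
      intro m hm
      have := (hL 0 m).1 hm
      have := abel_nm q hq m
      omega
    simp [Wt, h0]
  · intro n
    have hsub : L n ⊆ L (n + 1) := by
      intro m hm
      have := (hL n m).1 hm
      exact (hL (n + 1) m).2 (by omega)
    have hnew : ∀ m ∈ L (n + 1) \ L n, nm q m = n + 1 := by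
      intro m hm
      rw [Finset.mem_sdiff] at hm
      have h1 := (hL (n + 1) m).1 hm.1
      have h2 : ¬ nm q m ≤ n := fun h => hm.2 ((hL n m).2 h)
      omega
    have e1 : Wt q A (L (n + 1)) = Wt q A (L n) +
        ∑ m ∈ L (n + 1) \ L n, A.indicator (fun m => (nm q m : ℝ)⁻¹) m := by
      unfold Wt
      rw [← Finset.sum_sdiff hsub]
      ring
    have e2 : Ct A (L (n + 1)) = Ct A (L n) +
        ∑ m ∈ L (n + 1) \ L n, A.indicator (fun _ => (1 : ℝ)) m := by
      unfold Ct
      rw [← Finset.sum_sdiff hsub]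
      ring
    rw [e1, e2, add_sub_cancel_left, Finset.sum_div]
    congr 1
    refine Finset.sum_congr rfl fun m hm => ?_
    by_cases hmA : m ∈ A
    · rw [Set.indicator_of_mem hmA, Set.indicator_of_mem hmA, hnew m hm]
      push_cast
      rw [one_div]
    · rw [Set.indicator_of_notMem hmA, Set.indicator_of_notMem hmA, zero_div]

end Pool.Agent.Lib.MP_c82530_nt.AG
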