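import Pool.Agent.Lib.MP_c82530_nt.AG.NF

set_option autoImplicit false

/-!
# MP_c82530_nt, AG, piece BR: sums over ideals are sums over exponents
-/

namespace Pool.Agent.Lib.MP_c82530_nt.AG

open Set Pool.Agent.Lib.MP_c82530_nt Pool.Agent.Lib.MP_c82530_nt.AA Module Filter Topology
open NumberField IsDedekindDomain

theorem p_br (htoi : S_toi) : S_br := by
  intro k _ _ L hL A x
  classical
  obtain ⟨-, h2, h3, h4, -⟩ := htoi k
  have hset : {I : Ideal (𝓞 k) | I ∈ A ∧ Ideal.absNorm I ≤ x} ∩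
      Function.support (fun I : Ideal (𝓞 k) => (Ideal.absNorm I : ℝ)⁻¹) =
      ((((L x).filter (fun m => toI m ∈ A)).image toI : Finset (Ideal (𝓞 k))) :
        Set (Ideal (𝓞 k))) ∩
      Function.support (fun I : Ideal (𝓞 k) => (Ideal.absNorm I : ℝ)⁻¹) := by
    ext I
    simp only [mem_inter_iff, mem_ofPred_eq, Function.mem_support, Finset.coe_image,
      Finset.coe_filter, mem_image]
    constructor
    · rintro ⟨⟨hA, hx⟩, hs⟩
      refine ⟨?_, hs⟩
      have hI : I ≠ ⊥ := by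
        rintro rfl
        apply hs
        rw [Ideal.absNorm_bot]
        simp
      obtain ⟨m, rfl⟩ := h4 I hI
      refine ⟨m, ⟨(hL x m).2 ?_, hA⟩, rfl⟩
      rw [← (h2 m).1]
      exact hx
    · rintro ⟨⟨m, ⟨hm, hA⟩, rfl⟩, hs⟩
      refine ⟨⟨hA, ?_⟩, hs⟩
      rw [(h2 m).1]
      exact (hL x m).1 hm
  rw [finsum_mem_eq_sum_of_inter_support_eq _ hset, Finset.sum_image (fun a _ b _ h => h3 h)]
  unfold Wt
  rw [Finset.sum_filter]
  refine Finset.sum_congr rfl fun m _ => ?_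
  by_cases hm : toI m ∈ A
  · rw [if_pos hm, indicator_of_mem (show m ∈ {m | toI m ∈ A} from hm), (h2 m).1]
  · rw [if_neg hm, indicator_of_notMem (show m ∉ {m | toI m ∈ A} from hm)]

end Pool.Agent.Lib.MP_c82530_nt.AG
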