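import Mathlib
import Pool.Agent.Lib.MP_c82530_nt.AG.NF

/-!
# Piece CLS: finiteness of the class group in terms of exponents
-/

set_option autoImplicit false

namespace Pool.Agent.Lib.MP_c82530_nt.AG

open NumberField IsDedekindDomain nonZeroDivisors

private lemma cls_mul (R : Type) [CommRing R] [IsDedekindDomain R] (A I : (Ideal R)⁰)
    (h : ClassGroup.mk0 (A * I) = 1) :
    ∃ β : R, Ideal.span {β} = (A : Ideal R) * (I : Ideal R) := by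
  have hm : (A : Ideal R) * (I : Ideal R) ∈ (Ideal R)⁰ := mul_mem A.2 I.2
  have e : (⟨(A : Ideal R) * (I : Ideal R), hm⟩ : (Ideal R)⁰) = A * I :=
    Subtype.ext (Submonoid.coe_mul _ A I).symm
  rw [← e] at h
  obtain ⟨β, hβ⟩ := (ClassGroup.mk0_eq_one_iff hm).mp h
  exact ⟨β, hβ.symm⟩

private lemma cls_repr (R : Type) [CommRing R] [IsDedekindDomain R]
    (C : ClassGroup R) : ∃ I : Ideal R, I ≠ ⊥ ∧ ∀ A : (Ideal R)⁰,
      ClassGroup.mk0 A = C⁻¹ → ∃ β : R, Ideal.span {β} = (A : Ideal R) * I := by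
  obtain ⟨I, hI⟩ := ClassGroup.mk0_surjective C
  refine ⟨(I : Ideal R), nonZeroDivisors.coe_ne_zero I, fun A h => cls_mul R A I ?_⟩
  rw [map_mul, hI, h, inv_mul_cancel]

private lemma cls_fin (R : Type) [CommRing R] [IsDedekindDomain R]
    [Finite (ClassGroup R)] : ∃ S : Set (Ideal R), S.Finite ∧ (∀ I ∈ S, I ≠ ⊥) ∧
      ∀ A : Ideal R, A ≠ ⊥ → ∃ I ∈ S, ∃ β : R, Ideal.span {β} = A * I := by
  choose f hf0 hf using cls_repr R
  refine ⟨Set.range f, Set.finite_range f, ?_, ?_⟩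
  · rintro _ ⟨C, rfl⟩
    exact hf0 C
  · intro A hA
    have hA0 : A ∈ (Ideal R)⁰ := mem_nonZeroDivisors_of_ne_zero hA
    exact ⟨f (ClassGroup.mk0 ⟨A, hA0⟩)⁻¹, ⟨_, rfl⟩, hf _ ⟨A, hA0⟩ (inv_inv _).symm⟩

theorem p_cls (htoi : S_toi) : S_cls := by
  intro k _ _
  obtain ⟨h2, hnorm, hinj, hsurj, hadd⟩ := htoi k
  obtain ⟨S, hS, hS0, hSA⟩ := cls_fin (𝓞 k)
  have hT : (toI (k := k) ⁻¹' S).Finite := hS.preimage hinj.injOn
  refine ⟨hT.toFinset, fun m => ?_⟩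
  obtain ⟨I, hI, β, hβ⟩ := hSA (toI m) (hnorm m).2
  obtain ⟨j, hj⟩ := hsurj I (hS0 I hI)
  refine ⟨j, ?_, β, ?_⟩
  · rw [Set.Finite.mem_toFinset, Set.mem_preimage, hj]
    exact hI
  · rw [hβ, hadd, hj]

end Pool.Agent.Lib.MP_c82530_nt.AG
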