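import Pool.Agent.Lib.MP_c82530_nt.AG.NF

set_option autoImplicit false

/-!
Piece CNP: counting the integers prime to a finite set of primes.
-/

namespace Pool.Agent.Lib.MP_c82530_nt.AG

open Set Filter Topology

private theorem cnp_nm {ι : Type} (q : ι → ℕ) (m : ι →₀ ℕ) (i : ι) :
    nm q (m + Finsupp.single i 1) = nm q m * q i := by
  classical
  unfold nm
  have h1 : (Finsupp.single i 1).prod (fun (j : ι) (k : ℕ) => q j ^ k) = q i := by
    rw [Finsupp.prod_single_index (h := fun (j : ι) (k : ℕ) => q j ^ k) (pow_zero _), pow_one]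
  rw [Finsupp.prod_add_index' (h := fun (j : ι) (k : ℕ) => q j ^ k) (fun _ => pow_zero _)
    (fun _ _ _ => pow_add _ _ _), h1]

open Classical in
private theorem cnp_card {ι : Type} (A : Set (ι →₀ ℕ)) (T : Finset (ι →₀ ℕ)) :
    Ct A T = ((T.filter (fun m => m ∈ A)).card : ℝ) := by
  unfold Ct
  rw [Finset.card_filter]
  push_cast
  refine Finset.sum_congr rfl fun m _ => ?_
  rw [Set.indicator_apply]

open Classical in
private theorem cnp_set {ι : Type} (q : ι → ℕ) (L : ℕ → Finset (ι →₀ ℕ)) (hq : ∀ i, 2 ≤ q i)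
    (hL : IsL q L) (P : Finset ι) (i : ι) (hi : i ∉ P) (A A' : Set (ι →₀ ℕ))
    (hA : ∀ m : ι →₀ ℕ, m ∈ A ↔ Disjoint m.support P)
    (hA' : ∀ m : ι →₀ ℕ, m ∈ A' ↔ i ∉ m.support ∧ Disjoint m.support P) (x : ℕ) :
    (L x).filter (fun m => m ∈ A) = (L x).filter (fun m => m ∈ A') ∪
      ((L (x / q i)).filter (fun m => m ∈ A)).image (fun m => m + Finsupp.single i 1) := by
  have hqi : 0 < q i := by have := hq i; omega
  ext m
  rw [Finset.mem_filter, Finset.mem_union, Finset.mem_image, Finset.mem_filter]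
  constructor
  · rintro ⟨h1, h2⟩
    by_cases h3 : i ∈ m.support
    · right
      have h4 : m - Finsupp.single i 1 + Finsupp.single i 1 = m := by
        ext j
        by_cases hj : i = j
        · subst hj
          have h5 := Finsupp.mem_support_iff.1 h3
          simp only [Finsupp.coe_add, Finsupp.coe_tsub, Pi.add_apply, Pi.sub_apply,
            Finsupp.single_eq_same]
          omega
        · simp [hj]
      refine ⟨m - Finsupp.single i 1, ?_, h4⟩
      rw [Finset.mem_filter]
      refine ⟨?_, ?_⟩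
      · rw [hL, Nat.le_div_iff_mul_le hqi, ← cnp_nm, h4]
        exact (hL x m).1 h1
      · rw [hA, Finset.disjoint_left] at h2 ⊢
        intro j hj
        apply h2
        rw [Finsupp.mem_support_iff] at hj ⊢
        intro h5
        apply hj
        rw [Finsupp.coe_tsub, Pi.sub_apply, h5]
        omega
    · exact Or.inl ⟨h1, (hA' m).2 ⟨h3, (hA m).1 h2⟩⟩
  · rintro (⟨h1, h3⟩ | ⟨m', h1, rfl⟩)
    · exact ⟨h1, (hA m).2 ((hA' m).1 h3).2⟩
    · rw [Finset.mem_filter] at h1
      obtain ⟨h1, h2⟩ := h1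
      refine ⟨?_, ?_⟩
      · rw [hL, cnp_nm, ← Nat.le_div_iff_mul_le hqi]
        exact (hL _ m').1 h1
      · rw [hA, Finset.disjoint_left] at h2 ⊢
        intro j hj
        by_cases h5 : i = j
        · rw [← h5]
          exact hi
        · apply h2
          rw [Finsupp.mem_support_iff] at hj ⊢
          intro h6
          apply hj
          rw [Finsupp.coe_add, Pi.add_apply, h6, Finsupp.single_eq_of_ne (fun h => h5 h.symm),
            add_zero]

open Classical in
private theorem cnp_step {ι : Type} (q : ι → ℕ) (L : ℕ → Finset (ι →₀ ℕ))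
    (hq : ∀ i, 2 ≤ q i) (hL : IsL q L) (P : Finset ι) (i : ι) (hi : i ∉ P) (A A' : Set (ι →₀ ℕ))
    (hA : ∀ m : ι →₀ ℕ, m ∈ A ↔ Disjoint m.support P)
    (hA' : ∀ m : ι →₀ ℕ, m ∈ A' ↔ i ∉ m.support ∧ Disjoint m.support P) (x : ℕ) :
    Ct A' (L x) = Ct A (L x) - Ct A (L (x / q i)) := by
  have h2 := congrArg Finset.card (cnp_set q L hq hL P i hi A A' hA hA' x)
  rw [Finset.card_union_of_disjoint, Finset.card_image_of_injective _
    (fun a b h => add_right_cancel h)] at h2
  · rw [cnp_card, cnp_card, cnp_card]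
    have h3 := congrArg (fun n : ℕ => (n : ℝ)) h2
    push_cast at h3
    linarith
  · rw [Finset.disjoint_left]
    intro m h3 h4
    rw [Finset.mem_filter, hA'] at h3
    obtain ⟨m', _, rfl⟩ := Finset.mem_image.1 h4
    apply h3.2.1
    rw [Finsupp.mem_support_iff]
    simp

private theorem cnp_div (q : ℕ) (hq : 2 ≤ q) :
    Tendsto (fun x : ℕ => ((x / q : ℕ) : ℝ) / (x : ℝ)) atTop (𝓝 (q : ℝ)⁻¹) := by
  have hq0 : (0 : ℝ) < (q : ℝ) := by exact_mod_cast (by omega : 0 < q)
  have h1 : Tendsto (fun x : ℕ => (q : ℝ)⁻¹ - (1 : ℝ) / (x : ℝ)) atTop (𝓝 (q : ℝ)⁻¹) := by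
    have := (tendsto_one_div_atTop_nhds_zero_nat (𝕜 := ℝ)).const_sub ((q : ℝ)⁻¹)
    rwa [sub_zero] at this
  refine tendsto_of_tendsto_of_tendsto_of_le_of_le' h1 tendsto_const_nhds ?_ ?_
  · filter_upwards [eventually_gt_atTop 0] with x hx
    have hx0 : (0 : ℝ) < (x : ℝ) := by exact_mod_cast hx
    rw [le_div_iff₀ hx0, sub_mul, one_div, inv_mul_cancel₀ hx0.ne', inv_mul_eq_div,
      sub_le_iff_le_add, div_le_iff₀ hq0]
    have h2 : x ≤ (x / q + 1) * q := by
      have h3 := Nat.div_add_mod x q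
      have h4 := Nat.mod_lt x (by omega : 0 < q)
      nlinarith
    exact_mod_cast h2
  · filter_upwards [eventually_gt_atTop 0] with x hx
    have hx0 : (0 : ℝ) < (x : ℝ) := by exact_mod_cast hx
    rw [div_le_iff₀ hx0, inv_mul_eq_div, le_div_iff₀ hq0]
    exact_mod_cast Nat.div_mul_le_self x q

theorem p_cnp : S_cnp := by
  classical
  intro ι q L hq hL κ hκ P
  induction P using Finset.induction_on with
  | empty =>
    have e : {m : ι →₀ ℕ | Disjoint m.support ∅} = univ := by
      ext m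
      simp
    rw [e]
    simpa [ZP] using hκ
  | insert i P hi ih =>
    have hqi := hq i
    have hq0 : (0 : ℝ) < (q i : ℝ) := by exact_mod_cast (by omega : 0 < q i)
    have h1 : Tendsto (fun x : ℕ => x / q i) atTop atTop :=
      Nat.tendsto_div_const_atTop (by omega)
    have h2 := (ih.comp h1).mul (cnp_div (q i) hqi)
    have h3 := ih.sub h2
    have e : κ / ZP q P - κ / ZP q P * (q i : ℝ)⁻¹ = κ / ZP q (insert i P) := by
      have h4 : ZP q (insert i P) = (1 - (q i : ℝ)⁻¹)⁻¹ * ZP q P := by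
        unfold ZP
        rw [Finset.prod_insert hi]
      rw [h4, div_mul_eq_div_div, div_inv_eq_mul]
      ring
    rw [e] at h3
    refine h3.congr' ?_
    filter_upwards [eventually_ge_atTop (q i)] with x hx
    have hx0 : (0 : ℝ) < (x : ℝ) := by exact_mod_cast (by omega : 0 < x)
    have hd : (0 : ℝ) < ((x / q i : ℕ) : ℝ) := by
      exact_mod_cast Nat.div_pos hx (by omega)
    rw [cnp_step q L hq hL P i hi {m | Disjoint m.support P}
      {m | Disjoint m.support (insert i P)} (fun m => Iff.rfl)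
      (fun m => Finset.disjoint_insert_right) x, Function.comp_apply, sub_div]
    congr 1
    field_simp

end Pool.Agent.Lib.MP_c82530_nt.AG
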