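import Pool.Agent.Lib.MP_c82530_nt.AG.NF

set_option autoImplicit false

/-!
# Piece CNT: the bounds of Mertens type from counting
-/

namespace Pool.Agent.Lib.MP_c82530_nt.AG

open Set Pool.Agent.Lib.MP_c82530_nt Pool.Agent.Lib.MP_c82530_nt.AA Module Filter Topology

private lemma cnt_zp {ι : Type} (q : ι → ℕ) (hq : ∀ i, 2 ≤ q i) (P : Finset ι) : 0 < ZP q P := by
  unfold ZP
  refine Finset.prod_pos fun i _ => ?_
  have h1 : (2 : ℝ) ≤ q i := by exact_mod_cast hq i
  have h2 : (q i : ℝ)⁻¹ ≤ 2⁻¹ := inv_anti₀ (by norm_num) h1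
  have h3 : (0 : ℝ) < 1 - (q i : ℝ)⁻¹ := by
    have : (2 : ℝ)⁻¹ = 1 / 2 := by norm_num
    rw [this] at h2
    linarith
  exact inv_pos.2 h3

theorem p_cnt (hcnp : S_cnp) (habel : S_abel) : S_cnt := by
  intro ι q L hq hL κ hκ hT
  have hlog : Tendsto (fun x : ℕ => Real.log x) atTop atTop :=
    Real.tendsto_log_atTop.comp tendsto_natCast_atTop_atTop
  constructor
  · refine ⟨2 * κ, by positivity, fun P => ?_⟩
    have hZ := cnt_zp q hq P
    have h1 := habel ι q L hq hL _ _ (hcnp ι q L hq hL κ hT P)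
    have h2 : κ / ZP q P < 2 * κ / ZP q P := by
      apply div_lt_div_of_pos_right _ hZ
      linarith
    have h3 := h1.eventually_lt_const h2
    obtain ⟨x₀, hx₀⟩ := eventually_atTop.1 (h3.and (hlog.eventually_gt_atTop 0))
    refine ⟨x₀, fun x hx => ?_⟩
    obtain ⟨h4, h5⟩ := hx₀ x hx
    have h6 := (div_lt_iff₀ h5).1 h4
    refine h6.le.trans (le_of_eq ?_)
    ring
  · refine ⟨κ / 2, by positivity, ?_⟩
    have h1 := habel ι q L hq hL _ _ hT
    have h2 : κ / 2 < κ := by linarith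
    filter_upwards [h1.eventually_const_lt h2, hlog.eventually_gt_atTop 0] with x h4 h5
    exact ((lt_div_iff₀ h5).1 h4).le

end Pool.Agent.Lib.MP_c82530_nt.AG
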