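import Pool.Agent.Lib.MP_c82530_nt.AG.NF

set_option autoImplicit false

/-!
# Piece CNZ: the number of the integral ideals of norm at most `x`
-/

namespace Pool.Agent.Lib.MP_c82530_nt.AG

open Set Pool.Agent.Lib.MP_c82530_nt Pool.Agent.Lib.MP_c82530_nt.AA Module Filter Topology
open NumberField IsDedekindDomain nonZeroDivisors

theorem cnz_ct (htoi : S_toi) (k : Type) [Field k] [NumberField k]
    (L : ℕ → Finset (HeightOneSpectrum (𝓞 k) →₀ ℕ)) (hL : IsL (qn k) L) (x : ℕ) :
    Ct univ (L x) =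
      (Nat.card {I : (Ideal (𝓞 k))⁰ // (Ideal.absNorm (I : Ideal (𝓞 k)) : ℝ) ≤ (x : ℝ)} : ℝ) := by
  classical
  obtain ⟨-, hn, hinj, hsur, -⟩ := htoi k
  have h1 : Ct univ (L x) = ((L x).card : ℝ) := by
    unfold Ct
    simp
  rw [h1]
  congr 1
  rw [← Nat.card_eq_finsetCard]
  refine Nat.card_congr (Equiv.ofBijective
    (fun m => ⟨⟨toI m.1, mem_nonZeroDivisors_of_ne_zero (hn m.1).2⟩, ?_⟩) ⟨?_, ?_⟩)
  · have hm := (hL x m.1).mp m.2
    have h2 := (hn m.1).1
    show ((Ideal.absNorm (toI m.1) : ℕ) : ℝ) ≤ x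
    rw [h2]
    exact_mod_cast hm
  · intro a b hab
    have h2 : toI a.1 = toI b.1 := by
      have := congrArg (fun I => (I.1 : (Ideal (𝓞 k))⁰).1) hab
      exact this
    exact Subtype.ext (hinj h2)
  · rintro ⟨⟨I, hI⟩, hIx⟩
    obtain ⟨m, hm⟩ := hsur I (nonZeroDivisors.ne_zero hI)
    have h3 : nm (qn k) m ≤ x := by
      rw [← (hn m).1, hm]
      have h4 : ((Ideal.absNorm I : ℕ) : ℝ) ≤ (x : ℝ) := hIx
      exact_mod_cast h4
    refine ⟨⟨m, (hL x m).mpr h3⟩, ?_⟩
    apply Subtype.ext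
    apply Subtype.ext
    exact hm

theorem p_cnz (htoi : S_toi) : S_cnz := by
  intro k _ _ L hL
  refine ⟨(2 ^ InfinitePlace.nrRealPlaces k * (2 * Real.pi) ^ InfinitePlace.nrComplexPlaces k *
    Units.regulator k * classNumber k) /
    (Units.torsionOrder k * Real.sqrt |(discr k : ℝ)|), ?_, ?_⟩
  · have h1 : 0 < Units.regulator k := Units.regulator_pos k
    have h2 : 0 < classNumber k := Fintype.card_pos
    have h3 : 0 < Units.torsionOrder k := Units.torsionOrder_pos k
    have h4 : (discr k : ℝ) ≠ 0 := by exact_mod_cast discr_ne_zero k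
    have h5 : 0 < |(discr k : ℝ)| := abs_pos.mpr h4
    have h2' : (0 : ℝ) < classNumber k := by exact_mod_cast h2
    have h3' : (0 : ℝ) < Units.torsionOrder k := by exact_mod_cast h3
    positivity
  · have h := (NumberField.Ideal.tendsto_norm_le_div_atTop₀ k).comp
      (tendsto_natCast_atTop_atTop (R := ℝ))
    refine Tendsto.congr (fun x => ?_) h
    rw [Function.comp_apply, cnz_ct htoi k L hL x]

end Pool.Agent.Lib.MP_c82530_nt.AG
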