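import Pool.Agent.Lib.MP_c82530_nt.AG.NF

set_option autoImplicit false

/-!
# MP_c82530_nt, AG, piece CONJ: complex conjugation on the primes
-/

namespace Pool.Agent.Lib.MP_c82530_nt.AG

open Set Pool.Agent.Lib.MP_c82530_nt Pool.Agent.Lib.MP_c82530_nt.AA Module Filter Topology
open NumberField IsDedekindDomain

/-- complex conjugation as an automorphism of the field -/
private theorem conj_aut (k : Type) [Field k] [NumberField k] (σ : k →+* ℂ)
    (hc : ∀ x : k, ∃ y : k, σ y = (starRingEnd ℂ) (σ x)) :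
    ∃ c : k ≃+* k, ∀ x, σ (c x) = (starRingEnd ℂ) (σ x) := by
  choose f hf using hc
  have hinv : ∀ x, f (f x) = x := by
    intro x
    apply σ.injective
    rw [hf, hf, Complex.conj_conj]
  refine ⟨{ toFun := f, invFun := f, left_inv := hinv, right_inv := hinv,
            map_mul' := ?_, map_add' := ?_ }, fun x => hf x⟩
  · intro x y
    apply σ.injective
    rw [hf, map_mul, map_mul, map_mul, hf, hf]
  · intro x y
    apply σ.injective
    rw [hf, map_add, map_add, map_add, hf, hf]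

/-- the action of an automorphism on the prime ideals -/
private theorem conj_primes {R : Type} [CommRing R] [IsDedekindDomain R] (e : R ≃+* R) :
    ∃ τ : HeightOneSpectrum R ≃ HeightOneSpectrum R, ∀ v,
      (τ v).asIdeal = v.asIdeal.map (e : R →+* R) := by
  have hmm : ∀ (e : R ≃+* R) (I : Ideal R),
      (I.map (e : R →+* R)).map (e.symm : R →+* R) = I := by
    intro e I
    rw [Ideal.map_map]
    have : ((e.symm : R →+* R)).comp (e : R →+* R) = RingHom.id R := by
      ext x
      simp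
    rw [this, Ideal.map_id]
  have hpr : ∀ (e : R ≃+* R) (v : HeightOneSpectrum R), (v.asIdeal.map (e : R →+* R)).IsPrime := by
    intro e v
    exact Ideal.map_isPrime_of_equiv e
  have hbot : ∀ (e : R ≃+* R) (v : HeightOneSpectrum R), v.asIdeal.map (e : R →+* R) ≠ ⊥ := by
    intro e v h
    apply v.ne_bot
    rw [← hmm e v.asIdeal, h, Ideal.map_bot]
  have hs : ∀ I : Ideal R, (I.map (e.symm : R →+* R)).map (e : R →+* R) = I := by
    intro I
    exact hmm e.symm I
  refine ⟨⟨fun v => ⟨v.asIdeal.map (e : R →+* R), hpr e v, hbot e v⟩,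
    fun v => ⟨v.asIdeal.map (e.symm : R →+* R), hpr e.symm v, hbot e.symm v⟩, ?_, ?_⟩,
    fun v => rfl⟩
  · intro v
    exact HeightOneSpectrum.ext (hmm e v.asIdeal)
  · intro v
    exact HeightOneSpectrum.ext (hs v.asIdeal)

/-- norms are preserved -/
private theorem conj_norm {k : Type} [Field k] [NumberField k] (e : 𝓞 k ≃+* 𝓞 k)
    (I : Ideal (𝓞 k)) : Ideal.absNorm (I.map (e : 𝓞 k →+* 𝓞 k)) = Ideal.absNorm I := by
  rw [Ideal.absNorm_apply, Ideal.absNorm_apply, Submodule.cardQuot_apply,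
    Submodule.cardQuot_apply]
  exact (Nat.card_congr (Ideal.quotientEquiv I _ e rfl).toEquiv).symm

theorem p_conj (hlg : S_lg) (_htoi : S_toi) : S_conj := by
  intro k _ _ σ h γ hγ hc
  classical
  obtain ⟨c, hcσ⟩ := conj_aut k σ hc
  set e : 𝓞 k ≃+* 𝓞 k := RingOfIntegers.mapRingEquiv c with he
  have heσ : ∀ x : 𝓞 k, σ ((e x : 𝓞 k) : k) = (starRingEnd ℂ) (σ (x : k)) := by
    intro x
    rw [he, RingOfIntegers.mapRingEquiv_apply]
    exact hcσ _
  obtain ⟨τ, hτ⟩ := conj_primes e
  obtain ⟨C, hC, hCl⟩ := hlg k σ h γ hγ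
  refine ⟨τ, ?_, C, hC, ?_⟩
  · intro v
    unfold qn
    rw [hτ, conj_norm]
  · intro v
    obtain ⟨hh, hg⟩ := hγ
    have hh0 : (h : ℂ) ≠ 0 := by
      exact_mod_cast hh.ne'
    have hspan : Ideal.span {e (γ v)} = toI (Finsupp.single (τ v) h) := by
      have h1 : toI (Finsupp.single (τ v) h) = (τ v).asIdeal ^ h := by
        unfold toI
        exact Finsupp.prod_single_index
          (h := fun (v : HeightOneSpectrum (𝓞 k)) (n : ℕ) => v.asIdeal ^ n) (pow_zero _)
      rw [h1, hτ, ← Ideal.map_pow, ← (hg v).2, Ideal.map_span, image_singleton]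
      rfl
    have hγ0 : σ ((γ v : 𝓞 k) : k) ≠ 0 := by
      intro h0
      apply (hg v).1
      have h1 : ((γ v : 𝓞 k) : k) = 0 := σ.injective (by rw [h0, map_zero])
      exact RingOfIntegers.ext (by rw [h1]; rfl)
    have hexp : Complex.exp ((starRingEnd ℂ) (Complex.log (σ ((γ v : 𝓞 k) : k)))) =
        σ ((e (γ v) : 𝓞 k) : k) := by
      rw [heσ, Complex.exp_conj, Complex.exp_log hγ0]
    have hmem := hCl (Finsupp.single (τ v) h) (e (γ v)) _ hspan hexp
    have hF : Fv (fn σ h γ) (Finsupp.single (τ v) h) = (h : ℂ) * fn σ h γ (τ v) := by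
      unfold Fv
      rw [Finsupp.sum_single_index]
      simp
    rw [hF] at hmem
    have hkey : (starRingEnd ℂ) (fn σ h γ v) - fn σ h γ (τ v) = ((h : ℚ)⁻¹) •
        ((starRingEnd ℂ) (Complex.log (σ ((γ v : 𝓞 k) : k))) - (h : ℂ) * fn σ h γ (τ v)) := by
      have h2 : (starRingEnd ℂ) (fn σ h γ v) =
          (h : ℂ)⁻¹ * (starRingEnd ℂ) (Complex.log (σ ((γ v : 𝓞 k) : k))) := by
        unfold fn
        rw [map_mul, map_inv₀, Complex.conj_natCast]
      rw [h2, Rat.smul_def]
      push_cast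
      field_simp
    rw [hkey]
    exact C.smul_mem _ hmem

end Pool.Agent.Lib.MP_c82530_nt.AG
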