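import Pool.Agent.Lib.MP_c82530_nt.AG.NF

set_option autoImplicit false

/-!
Piece ISL: there are finitely many ideals of bounded norm.
-/

namespace Pool.Agent.Lib.MP_c82530_nt.AG

open NumberField IsDedekindDomain

theorem p_isl (htoi : S_toi) : S_isl := by
  intro k _ _
  obtain ⟨-, hn, hinj, -, -⟩ := htoi k
  have hfin : ∀ x : ℕ, {m : HeightOneSpectrum (𝓞 k) →₀ ℕ | nm (qn k) m ≤ x}.Finite := by
    intro x
    refine Set.Finite.of_finite_image (f := toI) ?_ hinj.injOn
    refine (Ideal.finite_setOfPred_absNorm_le (S := 𝓞 k) x).subset ?_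
    rintro _ ⟨m, hm, rfl⟩
    change Ideal.absNorm (toI m) ≤ x
    rw [(hn m).1]
    exact hm
  exact ⟨fun x => (hfin x).toFinset, fun x m => (hfin x).mem_toFinset⟩

end Pool.Agent.Lib.MP_c82530_nt.AG
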