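import Pool.Agent.Lib.MP_c82530_nt.AG.NF

set_option autoImplicit false

/-!
# MP_c82530_nt, AG, piece LG: logarithms of generators of principal ideals
-/

namespace Pool.Agent.Lib.MP_c82530_nt.AG

open Set Pool.Agent.Lib.MP_c82530_nt Pool.Agent.Lib.MP_c82530_nt.AA Module Filter Topology
open NumberField IsDedekindDomain

theorem p_lg (huc : S_uc) (_htoi : S_toi) : S_lg := by
  intro k _ _ σ h γ hγ
  classical
  obtain ⟨C, hC, hCu⟩ := huc k σ
  refine ⟨C, hC, ?_⟩
  intro m β l hβ hl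
  obtain ⟨hh, hg⟩ := hγ
  set G : 𝓞 k := m.prod fun v n => γ v ^ n with hG
  have hGI : Ideal.span {G} = Ideal.span {β ^ h} := by
    rw [← Ideal.span_singleton_pow, hβ, hG]
    unfold toI
    rw [Finsupp.prod, Finsupp.prod, ← Finset.prod_pow, ← Ideal.prod_span_singleton]
    refine Finset.prod_congr rfl fun v _ => ?_
    rw [← Ideal.span_singleton_pow, (hg v).2, ← pow_mul, ← pow_mul, mul_comm]
  rw [Ideal.span_singleton_eq_span_singleton] at hGI
  obtain ⟨u, hu⟩ := hGI
  set S : 𝓞 k →+* ℂ := σ.comp (algebraMap (𝓞 k) k) with hS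
  have hSi : Function.Injective S := σ.injective.comp (FaithfulSMul.algebraMap_injective (𝓞 k) k)
  have hS' : ∀ z : 𝓞 k, σ (z : k) = S z := fun z => rfl
  have hSγ : ∀ v, S (γ v) ≠ 0 := fun v h0 => (hg v).1 (hSi (by rw [h0, map_zero]))
  have hexpG : Complex.exp (m.sum fun v n => (n : ℂ) * Complex.log (σ (γ v))) = S G := by
    rw [hG, Finsupp.prod, Finsupp.sum, Complex.exp_sum, map_prod]
    refine Finset.prod_congr rfl fun v _ => ?_
    rw [Complex.exp_nat_mul, hS', Complex.exp_log (hSγ v), map_pow]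
  have hexpB : Complex.exp ((h : ℂ) * l) = S (β ^ h) := by
    rw [Complex.exp_nat_mul, hl, hS', map_pow]
  have hG0 : S G ≠ 0 := by
    rw [← hexpG]
    exact Complex.exp_ne_zero _
  have hmem : (h : ℂ) * l - (m.sum fun v n => (n : ℂ) * Complex.log (σ (γ v))) ∈ C := by
    apply hCu u
    rw [Complex.exp_sub, hexpB, hexpG, hS', ← hu, map_mul]
    field_simp
  have hFv : (h : ℂ) * Fv (fn σ h γ) m = m.sum fun v n => (n : ℂ) * Complex.log (σ (γ v)) := by
    unfold Fv fn
    rw [Finsupp.sum, Finsupp.sum, Finset.mul_sum]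
    refine Finset.sum_congr rfl fun v _ => ?_
    have hh0 : (h : ℂ) ≠ 0 := by
      exact_mod_cast hh.ne'
    field_simp
  have hkey : l - Fv (fn σ h γ) m = ((h : ℚ)⁻¹) •
      ((h : ℂ) * l - (m.sum fun v n => (n : ℂ) * Complex.log (σ (γ v)))) := by
    have hh0 : (h : ℂ) ≠ 0 := by
      exact_mod_cast hh.ne'
    rw [← hFv, ← mul_sub, Rat.smul_def]
    push_cast
    field_simp
  rw [hkey]
  exact C.smul_mem _ hmem

end Pool.Agent.Lib.MP_c82530_nt.AG
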