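import Mathlib
import Pool.Agent.Lib.MP_c82530_nt.AG.NF

set_option autoImplicit false

/-!
# Piece SHIFT
-/

namespace Pool.Agent.Lib.MP_c82530_nt.AG

open Set Pool.Agent.Lib.MP_c82530_nt Pool.Agent.Lib.MP_c82530_nt.AA Module Filter Topology

private theorem shift_nm_add {ι : Type} (q : ι → ℕ) (m m' : ι →₀ ℕ) :
    nm q (m + m') = nm q m * nm q m' := by
  classical
  unfold nm
  exact Finsupp.prod_add_index' (fun i => pow_zero _) (fun i a b => pow_add _ _ _)

private theorem shift_nm_pos {ι : Type} (q : ι → ℕ) (hq : ∀ i, 2 ≤ q i) (m : ι →₀ ℕ) :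
    0 < nm q m := by
  unfold nm Finsupp.prod
  refine Finset.prod_pos fun i _ => ?_
  have := hq i
  positivity

private theorem shift_key {ι : Type} (q : ι → ℕ) (L : ℕ → Finset (ι →₀ ℕ)) (hq : ∀ i, 2 ≤ q i)
    (hL : IsL q L) (A B : Set (ι →₀ ℕ)) (J : Finset (ι →₀ ℕ))
    (hJ : ∀ m ∈ A, ∃ j ∈ J, m + j ∈ B) (Q : ℕ) (hQ : ∑ j ∈ J, nm q j ≤ Q) (y : ℕ) :
    Wt q A (L y) ≤ Q * Wt q B (L (y * Q)) := by
  classical
  have hB0 : ∀ T : Finset (ι →₀ ℕ), 0 ≤ Wt q B T := by
    intro T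
    unfold Wt
    exact Finset.sum_nonneg fun m _ => Set.indicator_nonneg (fun m _ => by positivity) m
  have h1 : ∀ m ∈ L y, A.indicator (fun m => (nm q m : ℝ)⁻¹) m ≤
      ∑ j ∈ J, (nm q j : ℝ) * B.indicator (fun m => (nm q m : ℝ)⁻¹) (m + j) := by
    intro m _
    have hnn : ∀ j ∈ J, 0 ≤ (nm q j : ℝ) * B.indicator (fun m => (nm q m : ℝ)⁻¹) (m + j) :=
      fun j _ => mul_nonneg (Nat.cast_nonneg _)
        (Set.indicator_nonneg (fun m _ => by positivity) _)
    by_cases hm : m ∈ A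
    · obtain ⟨j, hj, hjB⟩ := hJ m hm
      refine le_trans (le_of_eq ?_) (Finset.single_le_sum hnn hj)
      rw [Set.indicator_of_mem hm, Set.indicator_of_mem hjB, shift_nm_add]
      have h1 : (0 : ℝ) < nm q m := by exact_mod_cast shift_nm_pos q hq m
      have h2 : (0 : ℝ) < nm q j := by exact_mod_cast shift_nm_pos q hq j
      push_cast
      field_simp
    · rw [Set.indicator_of_notMem hm]
      exact Finset.sum_nonneg hnn
  have h2 : ∀ j ∈ J, ∑ m ∈ L y, B.indicator (fun m => (nm q m : ℝ)⁻¹) (m + j) ≤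
      Wt q B (L (y * Q)) := by
    intro j hj
    unfold Wt
    have hinj : Set.InjOn (fun m : ι →₀ ℕ => m + j) (L y : Set (ι →₀ ℕ)) := by
      intro a _ b _ hab
      exact add_right_cancel hab
    rw [← Finset.sum_image (f := fun m => B.indicator (fun m => (nm q m : ℝ)⁻¹) m) hinj]
    refine Finset.sum_le_sum_of_subset_of_nonneg ?_ ?_
    · intro m hm
      rw [Finset.mem_image] at hm
      obtain ⟨m', hm', rfl⟩ := hm
      rw [hL] at hm' ⊢
      rw [shift_nm_add]
      refine Nat.mul_le_mul hm' (le_trans ?_ hQ)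
      exact Finset.single_le_sum (fun j _ => Nat.zero_le (nm q j)) hj
    · intro m _ _
      exact Set.indicator_nonneg (fun m _ => by positivity) m
  calc Wt q A (L y) ≤ ∑ m ∈ L y, ∑ j ∈ J,
        (nm q j : ℝ) * B.indicator (fun m => (nm q m : ℝ)⁻¹) (m + j) := Finset.sum_le_sum h1
    _ = ∑ j ∈ J, (nm q j : ℝ) * ∑ m ∈ L y, B.indicator (fun m => (nm q m : ℝ)⁻¹) (m + j) := by
        rw [Finset.sum_comm]
        refine Finset.sum_congr rfl fun j _ => ?_
        rw [Finset.mul_sum]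
    _ ≤ ∑ j ∈ J, (nm q j : ℝ) * Wt q B (L (y * Q)) :=
        Finset.sum_le_sum fun j hj => mul_le_mul_of_nonneg_left (h2 j hj) (Nat.cast_nonneg _)
    _ = ((∑ j ∈ J, nm q j : ℕ) : ℝ) * Wt q B (L (y * Q)) := by
        rw [← Finset.sum_mul]
        push_cast
        rfl
    _ ≤ Q * Wt q B (L (y * Q)) := by
        refine mul_le_mul_of_nonneg_right ?_ (hB0 _)
        exact_mod_cast hQ

theorem p_shift : S_shift := by
  intro ι q L hq hL A B J hJ hA
  obtain ⟨δ, hδ, hA⟩ := hA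
  rw [eventually_atTop] at hA
  obtain ⟨y₀, hy₀⟩ := hA
  set Q : ℕ := ∑ j ∈ J, nm q j + 1 with hQ
  have hQ1 : 1 ≤ Q := by omega
  have hQr : (0 : ℝ) < Q := by exact_mod_cast hQ1
  refine ⟨δ / (2 * Q), by positivity, ?_⟩
  rw [eventually_atTop]
  refine ⟨max (2 * Q * Q) (y₀ * Q), fun x hx => ?_⟩
  have hx1 : 2 * Q * Q ≤ x := le_trans (le_max_left _ _) hx
  have hx2 : y₀ * Q ≤ x := le_trans (le_max_right _ _) hx
  set y : ℕ := x / Q with hy
  have hy1 : 2 * Q ≤ y := (Nat.le_div_iff_mul_le hQ1).mpr hx1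
  have hy2 : y₀ ≤ y := (Nat.le_div_iff_mul_le hQ1).mpr hx2
  have hyx : y * Q ≤ x := Nat.div_mul_le_self x Q
  have hxy : x < (y + 1) * Q := by
    have := Nat.lt_div_mul_add (a := x) hQ1
    rw [← hy] at this
    linarith [this, add_mul y 1 Q]
  have hxy2 : x ≤ y ^ 2 := by nlinarith
  have hmono : Wt q B (L (y * Q)) ≤ Wt q B (L x) := by
    unfold Wt
    refine Finset.sum_le_sum_of_subset_of_nonneg ?_ ?_
    · intro m hm
      rw [hL] at hm ⊢
      exact hm.trans hyx
    · intro m _ _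
      exact Set.indicator_nonneg (fun m _ => by positivity) m
  have h1 := hy₀ y hy2
  have h2 := shift_key q L hq hL A B J hJ Q (by omega) y
  have hxpos : (0 : ℝ) < x := by
    have : 0 < x := by nlinarith
    exact_mod_cast this
  have hlog : Real.log x ≤ 2 * Real.log y := by
    have h3 : Real.log x ≤ Real.log ((y : ℝ) ^ 2) :=
      Real.log_le_log hxpos (by exact_mod_cast hxy2)
    rwa [Real.log_pow, Nat.cast_ofNat] at h3
  have h4 : δ * Real.log x ≤ 2 * Q * Wt q B (L x) := by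
    have h5 : Q * Wt q B (L (y * Q)) ≤ Q * Wt q B (L x) :=
      mul_le_mul_of_nonneg_left hmono hQr.le
    have h6 := mul_le_mul_of_nonneg_left hlog hδ.le
    linarith
  rw [div_mul_eq_mul_div, div_le_iff₀ (by positivity)]
  linarith

end Pool.Agent.Lib.MP_c82530_nt.AG
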