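import Pool.Agent.Lib.MP_c82530_nt.AG.NF

set_option autoImplicit false

/-!
# Piece UC: the logarithms of the units span a finite dimensional space (helper5)
-/

namespace Pool.Agent.Lib.MP_c82530_nt.AG

open Set Pool.Agent.Lib.MP_c82530_nt Pool.Agent.Lib.MP_c82530_nt.AA Module Filter Topology
open NumberField IsDedekindDomain

theorem p_uc : S_uc := by
  intro k _ _ σ
  have hfg : Monoid.FG (𝓞 k)ˣ := inferInstance
  obtain ⟨S, hS, hSf⟩ := (Monoid.fg_iff).1 hfg
  let C : Submodule ℚ ℂ := Submodule.span ℚ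
    (insert (2 * Real.pi * Complex.I) ((fun s : (𝓞 k)ˣ => Complex.log (σ ((s : 𝓞 k) : k))) '' S))
  have hpi : (2 * Real.pi * Complex.I : ℂ) ∈ C := Submodule.subset_span (mem_insert _ _)
  have hshift : ∀ (l l' : ℂ), l' ∈ C → Complex.exp l = Complex.exp l' → l ∈ C := by
    intro l l' hl' h
    obtain ⟨n, hn⟩ := Complex.exp_eq_exp_iff_exists_int.1 h
    rw [hn]
    refine C.add_mem hl' ?_
    have h1 : (n : ℂ) * (2 * Real.pi * Complex.I) = ((n : ℚ)) • (2 * Real.pi * Complex.I : ℂ) := by
      rw [Rat.smul_def]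
      push_cast
      rfl
    rw [h1]
    exact C.smul_mem _ hpi
  have hne : ∀ u : (𝓞 k)ˣ, σ ((u : 𝓞 k) : k) ≠ 0 := by
    intro u h
    have h1 : ((u : 𝓞 k) : k) = 0 := (map_eq_zero σ).1 h
    exact u.ne_zero (by exact_mod_cast h1)
  refine ⟨C, ?_, ?_⟩
  · exact FiniteDimensional.span_of_finite ℚ ((hSf.image _).insert _)
  · intro u
    have hu : u ∈ Submonoid.closure S := by rw [hS]; trivial
    induction hu using Submonoid.closure_induction with
    | mem s hs =>
      intro l hl
      refine hshift l (Complex.log (σ ((s : 𝓞 k) : k)))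
        (Submodule.subset_span (mem_insert_of_mem _ (mem_image_of_mem _ hs))) ?_
      rw [Complex.exp_log (hne s)]
      exact hl
    | one =>
      intro l hl
      refine hshift l 0 C.zero_mem ?_
      rw [hl, Complex.exp_zero]
      simp
    | mul x y hx hy ihx ihy =>
      intro l hl
      have h1 := ihx (Complex.log (σ ((x : 𝓞 k) : k))) (Complex.exp_log (hne x))
      have h2 := ihy (Complex.log (σ ((y : 𝓞 k) : k))) (Complex.exp_log (hne y))
      refine hshift l _ (C.add_mem h1 h2) ?_
      rw [Complex.exp_add, Complex.exp_log (hne x), Complex.exp_log (hne y), hl]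
      simp

end Pool.Agent.Lib.MP_c82530_nt.AG
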