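import Pool.Agent.Lib.MP_c82530_nt.AG.Defs

set_option autoImplicit false

/-!
Piece FRA: integers all of whose prime factors are in a set of primes.
-/

namespace Pool.Agent.Lib.MP_c82530_nt.AG

open Set

private theorem fra_nm {ι : Type} (q : ι → ℕ) (m : ι →₀ ℕ) (i : ι) :
    nm q (m + Finsupp.single i 1) = nm q m * q i := by
  classical
  unfold nm
  have h1 : (Finsupp.single i 1).prod (fun (j : ι) (k : ℕ) => q j ^ k) = q i := by
    rw [Finsupp.prod_single_index (h := fun (j : ι) (k : ℕ) => q j ^ k) (pow_zero _), pow_one]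
  rw [Finsupp.prod_add_index' (h := fun (j : ι) (k : ℕ) => q j ^ k) (fun _ => pow_zero _)
    (fun _ _ _ => pow_add _ _ _), h1]

private theorem fra_inner {ι : Type} (q : ι → ℕ) (L : ℕ → Finset (ι →₀ ℕ)) (hq : ∀ i, 2 ≤ q i)
    (hL : IsL q L) (x : ℕ) (i : ι) :
    ∑ m ∈ L x, (if m i = 0 then 0 else (nm q m : ℝ)⁻¹) ≤
      (q i : ℝ)⁻¹ * ∑ m ∈ L x, (nm q m : ℝ)⁻¹ := by
  classical
  have h0 : ∑ m ∈ L x, (if m i = 0 then 0 else (nm q m : ℝ)⁻¹) =
      ∑ m ∈ (L x).filter (fun m => m i ≠ 0), (nm q m : ℝ)⁻¹ := by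
    rw [Finset.sum_filter]
    refine Finset.sum_congr rfl fun m _ => ?_
    by_cases h : m i = 0 <;> simp [h]
  rw [h0]
  have h1 : (L x).filter (fun m => m i ≠ 0) ⊆
      (L x).image (fun m => m + Finsupp.single i 1) := by
    intro m hm
    rw [Finset.mem_filter] at hm
    have h2 : m - Finsupp.single i 1 + Finsupp.single i 1 = m := by
      ext j
      by_cases hj : i = j
      · subst hj
        have := hm.2
        simp only [Finsupp.coe_add, Finsupp.coe_tsub, Pi.add_apply, Pi.sub_apply,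
          Finsupp.single_eq_same]
        omega
      · simp [hj]
    refine Finset.mem_image.2 ⟨m - Finsupp.single i 1, ?_, h2⟩
    rw [hL]
    refine le_trans ?_ ((hL x m).1 hm.1)
    conv_rhs => rw [← h2]
    rw [fra_nm]
    exact Nat.le_mul_of_pos_right _ (by have := hq i; omega)
  refine (Finset.sum_le_sum_of_subset_of_nonneg h1 fun b _ _ => by positivity).trans ?_
  rw [Finset.sum_image (fun a _ b _ h => add_right_cancel h), Finset.mul_sum]
  refine Finset.sum_le_sum fun m _ => ?_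
  rw [fra_nm]
  push_cast
  rw [mul_inv, mul_comm]

theorem p_fra : S_fra := by
  classical
  intro ι q L hq hL A ε hA x
  unfold Wt
  obtain ⟨B, hB⟩ : ∃ B : Set (ι →₀ ℕ), B = {m | ∀ i ∈ m.support, i ∈ A} := ⟨_, rfl⟩
  rw [← hB]
  obtain ⟨P, hP⟩ : ∃ P : Finset ι, P = ((L x).biUnion fun m => m.support).filter (· ∉ A) :=
    ⟨_, rfl⟩
  have hPε : ∑ i ∈ P, (q i : ℝ)⁻¹ ≤ ε :=
    hA P fun i hi => by
      rw [hP] at hi
      exact (Finset.mem_filter.1 hi).2
  have hH : 0 ≤ ∑ m ∈ L x, (nm q m : ℝ)⁻¹ := Finset.sum_nonneg fun b _ => by positivity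
  have hU : ∑ m ∈ L x, (univ : Set (ι →₀ ℕ)).indicator (fun m => (nm q m : ℝ)⁻¹) m =
      ∑ m ∈ L x, (nm q m : ℝ)⁻¹ :=
    Finset.sum_congr rfl fun m _ => Set.indicator_of_mem (mem_univ m) _
  rw [hU]
  have h1 : ∑ m ∈ L x, (nm q m : ℝ)⁻¹ -
      ∑ m ∈ L x, B.indicator (fun m : ι →₀ ℕ => (nm q m : ℝ)⁻¹) m ≤
      ε * ∑ m ∈ L x, (nm q m : ℝ)⁻¹ := by
    rw [← Finset.sum_sub_distrib]
    calc ∑ m ∈ L x, ((nm q m : ℝ)⁻¹ - B.indicator (fun m : ι →₀ ℕ => (nm q m : ℝ)⁻¹) m)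
        ≤ ∑ m ∈ L x, ∑ i ∈ P, (if m i = 0 then 0 else (nm q m : ℝ)⁻¹) := by
          refine Finset.sum_le_sum fun m hm => ?_
          have hnn : ∀ i ∈ P, (0 : ℝ) ≤ (if m i = 0 then 0 else (nm q m : ℝ)⁻¹) := fun i _ => by
            split_ifs
            · exact le_refl _
            · positivity
          by_cases hbB : m ∈ B
          · rw [Set.indicator_of_mem hbB, sub_self]
            exact Finset.sum_nonneg hnn
          · rw [Set.indicator_of_notMem hbB, sub_zero]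
            have h2 : ∃ i ∈ m.support, i ∉ A := by
              by_contra hcon
              push Not at hcon
              exact hbB (by rw [hB]; exact hcon)
            obtain ⟨i, hi, hiA⟩ := h2
            have hiP : i ∈ P := by
              rw [hP, Finset.mem_filter, Finset.mem_biUnion]
              exact ⟨⟨m, hm, hi⟩, hiA⟩
            have h3 := Finset.single_le_sum hnn hiP
            rwa [if_neg (Finsupp.mem_support_iff.1 hi)] at h3
      _ = ∑ i ∈ P, ∑ m ∈ L x, (if m i = 0 then 0 else (nm q m : ℝ)⁻¹) := Finset.sum_comm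
      _ ≤ ∑ i ∈ P, (q i : ℝ)⁻¹ * ∑ m ∈ L x, (nm q m : ℝ)⁻¹ :=
          Finset.sum_le_sum fun i _ => fra_inner q L hq hL x i
      _ = (∑ i ∈ P, (q i : ℝ)⁻¹) * ∑ m ∈ L x, (nm q m : ℝ)⁻¹ := by rw [Finset.sum_mul]
      _ ≤ ε * ∑ m ∈ L x, (nm q m : ℝ)⁻¹ := mul_le_mul_of_nonneg_right hPε hH
  linarith

end Pool.Agent.Lib.MP_c82530_nt.AG
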