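import Pool.Agent.Lib.MP_c82530_nt.AG.NF

set_option autoImplicit false

/-!
# Piece GEN: a power of every prime ideal is principal
-/

namespace Pool.Agent.Lib.MP_c82530_nt.AG

open NumberField IsDedekindDomain nonZeroDivisors

private lemma gen_one {k : Type} [Field k] [NumberField k] (v : HeightOneSpectrum (𝓞 k)) :
    ∃ g : 𝓞 k, g ≠ 0 ∧ Ideal.span {g} = v.asIdeal ^ (Fintype.card (ClassGroup (𝓞 k))) := by
  have hv : v.asIdeal ∈ (Ideal (𝓞 k))⁰ := mem_nonZeroDivisors_of_ne_zero v.ne_bot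
  have h1 : ClassGroup.mk0 ((⟨v.asIdeal, hv⟩ : (Ideal (𝓞 k))⁰) ^
      (Fintype.card (ClassGroup (𝓞 k)))) = 1 := by
    rw [map_pow]; exact pow_card_eq_one
  rw [ClassGroup.mk0_eq_one_iff] at h1
  obtain ⟨g, hg⟩ := h1.principal
  have hg' : v.asIdeal ^ (Fintype.card (ClassGroup (𝓞 k))) = Ideal.span {g} := by
    simpa using hg
  refine ⟨g, ?_, hg'.symm⟩
  rintro rfl
  have : v.asIdeal ^ (Fintype.card (ClassGroup (𝓞 k))) = ⊥ := by
    rw [hg']; simp
  exact v.ne_bot (pow_eq_zero_iff (Fintype.card_ne_zero) |>.1 this)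

/-- piece GEN -/
theorem p_gen : S_gen := by
  intro k _ _
  choose γ hγ using fun v : HeightOneSpectrum (𝓞 k) => gen_one v
  exact ⟨Fintype.card (ClassGroup (𝓞 k)), γ, Fintype.card_pos, hγ⟩

end Pool.Agent.Lib.MP_c82530_nt.AG
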