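import Mathlib
import Pool.Agent.Lib.MP_c82530_nt.AG.Defs

set_option autoImplicit false

namespace Pool.Agent.Lib.MP_c82530_nt.AG

open Set Pool.Agent.Lib.MP_c82530_nt Pool.Agent.Lib.MP_c82530_nt.AA Module

private lemma grp_alg {ι : Type} (f : ι → ℂ) (l : ι →₀ ℚ) :
    Finsupp.linearCombination ℚ (fun i => (KK ⊥).mkQ (f i)) l =
      (KK ⊥).mkQ (l.sum fun i t => (t : ℂ) * f i) := by
  rw [Finsupp.linearCombination_apply, Finsupp.sum, Finsupp.sum, map_sum]
  refine Finset.sum_congr rfl fun i _ => ?_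
  rw [← map_smul, Rat.smul_def]

private lemma grp_ind {ι : Type} (f : ι → ℂ) (h : Ind f) :
    LinearIndependent ℚ (fun i => (KK ⊥).mkQ (f i)) := by
  rw [linearIndependent_iff]
  intro l hl
  apply h l
  rw [grp_alg, Submodule.mkQ_apply, Submodule.Quotient.mk_eq_zero, mem_KK, InK_bot] at hl
  exact hl

/-- rational exponents -/
private noncomputable def grp_L {ι : Type} (s : ι →₀ ℕ) : ι →₀ ℚ :=
  s.mapRange (fun k : ℕ => (k : ℚ)) Nat.cast_zero

private lemma grp_L_apply {ι : Type} (s : ι →₀ ℕ) (i : ι) : grp_L s i = (s i : ℚ) := rfl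

private lemma grp_comb {ι : Type} (f : ι → ℂ) (s : ι →₀ ℕ) :
    Finsupp.linearCombination ℚ (fun i => (KK ⊥).mkQ (f i)) (grp_L s) = (KK ⊥).mkQ (Fv f s) := by
  rw [grp_alg]
  congr 1
  unfold grp_L Fv
  rw [Finsupp.sum_mapRange_index (by simp)]
  simp

private lemma grp_fin {ι V : Type*} [AddCommGroup V] [Module ℚ V] (v : ι → V) (S : Finset V)
    (hS : ∀ x ∈ S, x ∈ Submodule.span ℚ (range v)) :
    ∃ t : Finset ι, ∀ x ∈ S, x ∈ Submodule.span ℚ (v '' (t : Set ι)) := by
  classical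
  have h : ∀ x : V, ∃ t : Finset ι, x ∈ S → x ∈ Submodule.span ℚ (v '' (t : Set ι)) := by
    intro x
    by_cases hx : x ∈ S
    · obtain ⟨l, hl⟩ := Finsupp.mem_span_range_iff_exists_finsupp.mp (hS x hx)
      refine ⟨l.support, fun _ => ?_⟩
      rw [← hl, Finsupp.sum]
      exact Submodule.sum_mem _ fun i hi => Submodule.smul_mem _ _
        (Submodule.subset_span ⟨i, hi, rfl⟩)
    · exact ⟨∅, fun h => absurd h hx⟩
  choose t ht using h
  refine ⟨S.biUnion t, fun x hx => Submodule.span_mono (image_mono ?_) (ht x hx)⟩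
  intro i hi
  rw [Finset.mem_coe, Finset.mem_biUnion]
  exact ⟨x, hx, hi⟩

private lemma grp_pos {ι : Type} (q : ι → ℕ) (hq : ∀ i, 2 ≤ q i) (s : ι →₀ ℕ) : 0 < nm q s := by
  unfold nm
  refine Finset.prod_pos fun i _ => ?_
  have := hq i
  positivity

theorem p_grp (hzs : S_zs) : S_grp := by
  classical
  intro ι q f hq hf C hC
  have := hC
  set v : ι → ℂ ⧸ KK ⊥ := fun i => (KK ⊥).mkQ (f i) with hv
  set Cb : Submodule ℚ (ℂ ⧸ KK ⊥) := C.map (KK ⊥).mkQ with hCb
  have : FiniteDimensional ℚ Cb := by rw [hCb]; infer_instance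
  obtain ⟨S, hS⟩ : (Cb ⊓ Submodule.span ℚ (range v)).FG := by
    have : FiniteDimensional ℚ ((Cb ⊓ Submodule.span ℚ (range v) : Submodule ℚ (ℂ ⧸ KK ⊥))) :=
      Submodule.finiteDimensional_of_le inf_le_left
    exact Module.Finite.iff_fg.mp this
  obtain ⟨t, ht⟩ := grp_fin v S (fun x hx => by
    have h1 : x ∈ Cb ⊓ Submodule.span ℚ (range v) := by
      rw [← hS]; exact Submodule.subset_span hx
    exact h1.2)
  have hN : Cb ⊓ Submodule.span ℚ (range v) ≤ Submodule.span ℚ (v '' (t : Set _)) := by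
    rw [← hS, Submodule.span_le]
    exact fun x hx => ht x hx
  refine ⟨ZP q t, fun s₀ Y hY => ?_⟩
  -- the exponents outside `t` agree
  have key : ∀ s ∈ Y, ∀ s' ∈ Y, ∀ p : ι, p ∉ t → s p = s' p := by
    intro s hs s' hs' p hp
    have h1 : Fv f s - Fv f s' ∈ C ⊔ KK ⊥ := by
      have := Submodule.sub_mem _ (hY s hs) (hY s' hs')
      have e : Fv f s - Fv f s' = Fv f s - Fv f s₀ - (Fv f s' - Fv f s₀) := by ring
      rw [e]; exact this
    have h2 : (KK ⊥).mkQ (Fv f s) - (KK ⊥).mkQ (Fv f s') ∈ Cb := by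
      obtain ⟨c, hc, k, hk, hck⟩ := Submodule.mem_sup.mp h1
      refine ⟨c, hc, ?_⟩
      rw [← map_sub, ← hck, map_add]
      have : (KK ⊥).mkQ k = 0 := by
        rw [Submodule.mkQ_apply, Submodule.Quotient.mk_eq_zero]; exact hk
      rw [this, add_zero]
    have h3 : Finsupp.linearCombination ℚ v (grp_L s - grp_L s') =
        (KK ⊥).mkQ (Fv f s) - (KK ⊥).mkQ (Fv f s') := by
      rw [map_sub, hv, grp_comb, grp_comb]
    have h4 : (KK ⊥).mkQ (Fv f s) - (KK ⊥).mkQ (Fv f s') ∈ Submodule.span ℚ (range v) := by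
      rw [← h3, ← Finsupp.range_linearCombination]
      exact ⟨_, rfl⟩
    have h5 := hN ⟨h2, h4⟩
    rw [Finsupp.mem_span_image_iff_linearCombination] at h5
    obtain ⟨l, hl, hl2⟩ := h5
    have h6 : grp_L s - grp_L s' = l := by
      have hinj : Function.Injective (Finsupp.linearCombination ℚ v) := grp_ind f hf
      exact hinj (by rw [h3, hl2])
    have h7 : l p = 0 := by
      by_contra hne
      have : p ∈ (t : Set _) := (Finsupp.mem_supported ℚ l).mp hl (by
        rw [Finset.mem_coe, Finsupp.mem_support_iff]; exact hne)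
      exact hp this
    rw [← h6, Finsupp.sub_apply, grp_L_apply, grp_L_apply, sub_eq_zero] at h7
    exact_mod_cast h7
  set π : (ι →₀ ℕ) → (ι →₀ ℕ) := fun s => s.filter (· ∈ t) with hπ
  have hπle : ∀ s, nm q (π s) ≤ nm q s := by
    intro s
    have e : nm q (π s) * nm q (s.filter (fun i => ¬ (i ∈ t))) = nm q s :=
      Finsupp.prod_filter_mul_prod_filter_not (fun i => i ∈ t) s (fun i k => q i ^ k)
    rw [← e]
    exact Nat.le_mul_of_pos_right _ (grp_pos q hq _)
  have hinj : Set.InjOn π (Y : Set (ι →₀ ℕ)) := by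
    intro s hs s' hs' hss
    ext p
    by_cases hp : p ∈ t
    · have h1 := DFunLike.congr_fun hss p
      simp only [hπ, Finsupp.filter_apply, if_pos hp] at h1
      exact h1
    · exact key s hs s' hs' p hp
  calc ∑ s ∈ Y, (nm q s : ℝ)⁻¹ ≤ ∑ s ∈ Y, (nm q (π s) : ℝ)⁻¹ := by
        refine Finset.sum_le_sum fun s hs => ?_
        apply inv_anti₀
        · exact_mod_cast grp_pos q hq _
        · exact_mod_cast hπle s
    _ = ∑ m ∈ Y.image π, (nm q m : ℝ)⁻¹ := by
        rw [Finset.sum_image hinj]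
    _ ≤ ZP q t := by
        refine hzs ι q hq _ _ ?_
        intro m hm
        obtain ⟨a, -, rfl⟩ := Finset.mem_image.mp hm
        rw [hπ]
        intro i hi
        simp only [Finsupp.support_filter, Finset.mem_filter] at hi
        exact hi.2

end Pool.Agent.Lib.MP_c82530_nt.AG
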